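import Mathlib

/-!
# The quartic residue symbol modulo an odd Gaussian prime, written additively in `ZMod 4`
-/

set_option autoImplicit false

namespace Pool.Agent.Q33.QR

open Zsqrtd

/-- the Gaussian integers -/
abbrev G := GaussianInt

/-- the imaginary unit -/
def I : G := ⟨0, 1⟩

lemma I_mul_I : I * I = -1 := by
  apply Zsqrtd.ext <;> simp [I]

lemma I_sq : I ^ 2 = -1 := by rw [sq, I_mul_I]

lemma I_pow_four : I ^ 4 = 1 := by
  have : I ^ 4 = (I ^ 2) ^ 2 := by ring
  rw [this, I_sq]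
  ring

/-- the powers of `I` -/
def ip (k : ZMod 4) : G := I ^ k.val

lemma I_pow_mod (n : ℕ) : I ^ n = I ^ (n % 4) := by
  conv_lhs => rw [← Nat.div_add_mod n 4, pow_add, pow_mul, I_pow_four, one_pow, one_mul]

lemma ip_natCast (n : ℕ) : ip (n : ZMod 4) = I ^ n := by
  unfold ip
  rw [ZMod.val_natCast, ← I_pow_mod]

lemma ip_add (k l : ZMod 4) : ip (k + l) = ip k * ip l := by
  have h1 := ip_natCast (k.val + l.val)
  rw [Nat.cast_add, ZMod.natCast_zmod_val, ZMod.natCast_zmod_val] at h1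
  rw [h1, pow_add]
  rfl

lemma ip_zero : ip 0 = 1 := by
  unfold ip
  simp

lemma ip_one : ip 1 = I := by
  have := ip_natCast 1
  rw [Nat.cast_one, pow_one] at this
  exact this

lemma ip_two : ip 2 = -1 := by
  have := ip_natCast 2
  rw [I_sq] at this
  exact this

lemma ip_three : ip 3 = -I := by
  have := ip_natCast 3
  have h3 : I ^ 3 = -I := by
    have : I ^ 3 = I ^ 2 * I := by ring
    rw [this, I_sq]
    ring
  rw [h3] at this
  exact this

lemma zmod4_cases (k : ZMod 4) : k = 0 ∨ k = 1 ∨ k = 2 ∨ k = 3 := by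
  revert k
  decide

lemma norm_eq (α : G) : α.norm = α.re * α.re + α.im * α.im := by
  rw [Zsqrtd.norm_def]
  ring

lemma norm_nonneg (α : G) : 0 ≤ α.norm := GaussianInt.norm_nonneg α

lemma norm_dvd {α β : G} (h : α ∣ β) : α.norm ∣ β.norm := by
  obtain ⟨γ, rfl⟩ := h
  rw [Zsqrtd.norm_mul]
  exact Dvd.intro _ rfl

lemma norm_mod_four (α : G) : α.norm % 4 = 0 ∨ α.norm % 4 = 1 ∨ α.norm % 4 = 2 := by
  rw [norm_eq]
  have h1 : ∀ a : ℤ, a * a % 4 = 0 ∨ a * a % 4 = 1 := by
    intro a
    rcases Int.even_or_odd a with ⟨b, hb⟩ | ⟨b, hb⟩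
    · left
      rw [hb]
      ring_nf
      omega
    · right
      rw [hb]
      ring_nf
      omega
  rcases h1 α.re with h | h <;> rcases h1 α.im with h' | h' <;> omega

/-- odd Gaussian integers -/
def od (α : G) : Prop := α.norm % 4 = 1

lemma od_mul {α β : G} : od (α * β) ↔ od α ∧ od β := by
  unfold od
  rw [Zsqrtd.norm_mul, Int.mul_emod]
  rcases norm_mod_four α with h | h | h <;> rcases norm_mod_four β with h' | h' | h' <;>
    rw [h, h'] <;> norm_num

lemma od_ne_zero {α : G} (h : od α) : α ≠ 0 := by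
  rintro rfl
  simp [od] at h

lemma od_of_dvd {α β : G} (h : od β) (h1 : α ∣ β) : od α := by
  obtain ⟨γ, rfl⟩ := h1
  exact (od_mul.1 h).1

lemma isUnit_iff {α : G} : IsUnit α ↔ α.norm = 1 := by
  rw [← Zsqrtd.norm_eq_one_iff]
  constructor
  · intro h
    have := norm_nonneg α
    omega
  · intro h
    rw [h]
    rfl

lemma unit_od {α : G} (h : IsUnit α) : od α := by
  rw [isUnit_iff] at h
  unfold od
  rw [h]
  rfl

lemma prime_norm {π : G} (hπ : Prime π) (ho : od π) : 5 ≤ π.norm := by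
  have h1 := norm_nonneg π
  have h2 : π.norm ≠ 1 := fun h => hπ.not_isUnit (isUnit_iff.2 h)
  unfold od at ho
  omega

/-- the exponent -/
def m4 (π : G) : ℕ := ((π.norm - 1) / 4).toNat

lemma m4_spec {π : G} (ho : od π) : (4 * (m4 π : ℤ)) + 1 = π.norm := by
  have h1 := norm_nonneg π
  unfold m4 od at *
  omega

lemma ip_sub_norm {k l : ZMod 4} (h : k ≠ l) : (ip k - ip l).norm = 2 ∨ (ip k - ip l).norm = 4 := by
  rcases zmod4_cases k with rfl | rfl | rfl | rfl <;>
    rcases zmod4_cases l with rfl | rfl | rfl | rfl <;>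
    simp only [ip_zero, ip_one, ip_two, ip_three, ne_eq, not_true_eq_false] at h ⊢ <;>
    simp [I, norm_eq]

lemma ip_inj {π : G} (hπ : Prime π) (ho : od π) {k l : ZMod 4} (h : π ∣ ip k - ip l) : k = l := by
  by_contra hne
  have h1 := norm_dvd h
  have h2 := prime_norm hπ ho
  rcases ip_sub_norm hne with h3 | h3 <;> rw [h3] at h1 <;>
  · have := Int.le_of_dvd (by norm_num) h1
    omega

/-- An odd Gaussian prime lies over an odd rational prime. -/
lemma exists_rat_prime {π : G} (hπ : Prime π) (ho : od π) :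
    ∃ p : ℕ, p.Prime ∧ p ≠ 2 ∧ π ∣ (p : G) := by
  have h1 : π ∣ ((π.norm.natAbs : ℕ) : G) := by
    have h2 : ((π.norm.natAbs : ℕ) : G) = ((π.norm : ℤ) : G) := by
      rw [← Int.cast_natCast, Int.natAbs_of_nonneg (norm_nonneg π)]
    rw [h2, Zsqrtd.norm_eq_mul_conj]
    exact Dvd.intro _ rfl
  have key : ∀ n : ℕ, n ≠ 0 → π ∣ (n : G) → ∃ p : ℕ, p.Prime ∧ p ∣ n ∧ π ∣ (p : G) := by
    intro n
    induction n using Nat.recOnMul with
    | zero =>
      intro h
      exact absurd rfl h
    | one =>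
      intro _ h
      rw [Nat.cast_one] at h
      exact absurd (isUnit_of_dvd_one h) hπ.not_isUnit
    | prime p hp =>
      intro _ h
      exact ⟨p, hp, dvd_rfl, h⟩
    | mul a b iha ihb =>
      intro h0 h
      have ha : a ≠ 0 := left_ne_zero_of_mul h0
      have hb : b ≠ 0 := right_ne_zero_of_mul h0
      rw [Nat.cast_mul] at h
      rcases hπ.dvd_or_dvd h with h' | h'
      · obtain ⟨p, h1, h2, h3⟩ := iha ha h'
        exact ⟨p, h1, h2.mul_right b, h3⟩
      · obtain ⟨p, h1, h2, h3⟩ := ihb hb h'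
        exact ⟨p, h1, h2.mul_left a, h3⟩
  have h5 := prime_norm hπ ho
  obtain ⟨p, hp1, hp2, hp3⟩ := key _ (by omega) h1
  refine ⟨p, hp1, ?_, hp3⟩
  rintro rfl
  unfold od at ho
  have h6 : (2 : ℤ) ∣ π.norm := by
    have := Int.natCast_dvd_natCast.2 hp2
    rw [Int.natAbs_of_nonneg (norm_nonneg π)] at this
    exact_mod_cast this
  omega

/-- **Fermat.** -/
lemma fermat {π α : G} (hπ : Prime π) (ho : od π) (hα : ¬ π ∣ α) :
    π ∣ α ^ (4 * m4 π) - 1 := by
  obtain ⟨p, hp, hp2, hdvd⟩ := exists_rat_prime hπ ho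
  have : Fact p.Prime := ⟨hp⟩
  let P := Ideal.span {π}
  have : P.IsPrime := (Ideal.span_singleton_prime hπ.ne_zero).2 hπ
  let K := G ⧸ P
  let q : G →+* K := Ideal.Quotient.mk P
  have hq : ∀ x, q x = 0 ↔ π ∣ x := by
    intro x
    rw [Ideal.Quotient.eq_zero_iff_mem, Ideal.mem_span_singleton]
  have hp0 : (p : K) = 0 := by
    have := (hq (p : G)).2 hdvd
    rwa [map_natCast] at this
  have : CharP K p := by
    have := CharP.ringChar_of_prime_eq_zero hp hp0
    rw [← this]
    infer_instance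
  have hfrob : ∀ a : ℤ, (a : K) ^ p = a := by
    intro a
    have := map_intCast (frobenius K p) a
    rwa [frobenius_def] at this
  obtain ⟨t, ht⟩ : ∃ t, q I = t := ⟨_, rfl⟩
  have ht2 : t ^ 2 = -1 := by
    rw [← ht, ← map_pow, I_sq, map_neg, map_one]
  have hx : ∀ β : G, q β = (β.re : K) + (β.im : K) * t := by
    intro β
    have : β = (β.re : G) + (β.im : G) * I := by
      apply Zsqrtd.ext <;> simp [I]
    conv_lhs => rw [this]
    rw [map_add, map_mul, map_intCast, map_intCast, ht]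
  have hodd : p % 2 = 1 := (hp.eq_two_or_odd).resolve_left hp2
  have htp : t ^ p = t * (-1) ^ (p / 2) := by
    conv_lhs => rw [← Nat.div_add_mod p 2, hodd, pow_add, pow_mul, ht2, pow_one, mul_comm]
  have hxp : ∀ β : G, (q β) ^ p = (β.re : K) + (β.im : K) * (t * (-1) ^ (p / 2)) := by
    intro β
    have h3 := (frobenius K p).map_add (β.re : K) ((β.im : K) * t)
    rw [frobenius_def, frobenius_def, frobenius_def, mul_pow, hfrob, hfrob, htp, ← hx] at h3
    exact h3
  have hα0 : q α ≠ 0 := fun h => hα ((hq α).1 h)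
  -- the norm of `π`
  have hnorm : π.norm ∣ (p : ℤ) * p := by
    have := norm_dvd hdvd
    have h2 : ((p : ℕ) : G).norm = (p : ℤ) * p := by
      rw [norm_eq]
      simp
    rwa [h2] at this
  have hm := m4_spec ho
  suffices h : (q α) ^ (4 * m4 π) = 1 by
    rw [← hq, map_sub, map_pow, map_one, h, sub_self]
  have hcases : π.norm = (p : ℤ) ∨ π.norm = (p : ℤ) * p := by
    have h5 := prime_norm hπ ho
    have h6 : π.norm.natAbs ∣ p ^ 2 := by
      have := Int.natAbs_dvd_natAbs.2 hnorm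
      rw [← sq, Int.natAbs_pow, Int.natAbs_natCast] at this
      exact this
    obtain ⟨k, hk, hk2⟩ := (Nat.dvd_prime_pow hp).1 h6
    have h7 : π.norm = (p : ℤ) ^ k := by
      rw [← Int.natAbs_of_nonneg (norm_nonneg π), hk2]
      push_cast
      rfl
    interval_cases k
    · rw [pow_zero] at h7
      omega
    · left
      rw [h7, pow_one]
    · right
      rw [h7, sq]
  rcases hcases with h | h
  · have h4 : p % 4 = 1 := by
      unfold od at ho
      rw [h] at ho
      omega
    have h5 : 4 * m4 π + 1 = p := by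
      have : (4 * (m4 π : ℤ)) + 1 = p := by rw [hm, h]
      omega
    have h6 : (-1 : K) ^ (p / 2) = 1 := by
      apply Even.neg_one_pow
      rw [Nat.even_iff]
      omega
    have h7 := hxp α
    rw [h6, mul_one, ← hx, ← h5, pow_succ] at h7
    exact mul_right_cancel₀ hα0 (by rw [h7, one_mul])
  · have hmp : 4 * m4 π + 1 = p * p := by
      have : (4 * (m4 π : ℤ)) + 1 = p * p := by rw [hm, h]
      exact_mod_cast this
    have hpp : 1 ≤ p := hp.one_lt.le
    rcases Nat.even_or_odd (p / 2) with he | he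
    · have h7 := hxp α
      rw [he.neg_one_pow, mul_one, ← hx] at h7
      have h8 : (q α) ^ (p * p) = q α := by
        rw [pow_mul, h7, h7]
      rw [← hmp, pow_succ] at h8
      exact mul_right_cancel₀ hα0 (by rw [h8, one_mul])
    · have h7 := hxp α
      rw [he.neg_one_pow] at h7
      have h9 : (q α) ^ (p * p) = q α := by
        rw [pow_mul, h7]
        have h10 : ((α.re : K) + (α.im : K) * (t * -1)) = q (star α) := by
          rw [hx, Zsqrtd.re_star, Zsqrtd.im_star]
          push_cast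
          ring
        rw [h10, hxp (star α), he.neg_one_pow, hx α, Zsqrtd.re_star, Zsqrtd.im_star]
        push_cast
        ring
      rw [← hmp, pow_succ] at h9
      exact mul_right_cancel₀ hα0 (by rw [h9, one_mul])

lemma exists_ip {π α : G} (hπ : Prime π) (ho : od π) (hα : ¬ π ∣ α) :
    ∃ k, π ∣ α ^ m4 π - ip k := by
  have h1 := fermat hπ ho hα
  have h2 : α ^ (4 * m4 π) - 1 = (α ^ m4 π - ip 0) * (α ^ m4 π - ip 2) *
      ((α ^ m4 π - ip 1) * (α ^ m4 π - ip 3)) := by
    rw [ip_zero, ip_one, ip_two, ip_three, mul_comm 4, pow_mul]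
    have h3 : ∀ x : G, x ^ 4 - 1 = (x - 1) * (x - -1) * ((x - I) * (x - -I)) := by
      intro x
      have h4 : (x - 1) * (x - -1) * ((x - I) * (x - -I)) = (x ^ 2 - 1) * (x ^ 2 - I * I) := by ring
      rw [h4, I_mul_I]
      ring
    exact h3 _
  rw [h2] at h1
  rcases hπ.dvd_or_dvd h1 with h | h
  · rcases hπ.dvd_or_dvd h with h | h
    · exact ⟨_, h⟩
    · exact ⟨_, h⟩
  · rcases hπ.dvd_or_dvd h with h | h
    · exact ⟨_, h⟩
    · exact ⟨_, h⟩

open Classical in
/-- an element with a given property, if there is one -/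
noncomputable def pick (P : ZMod 4 → Prop) : ZMod 4 := if h : ∃ k, P k then h.choose else 0

lemma pick_spec {P : ZMod 4 → Prop} (h : ∃ k, P k) : P (pick P) := by
  unfold pick
  rw [dif_pos h]
  exact h.choose_spec

/-- the quartic residue symbol: `(α / π)_4 = i ^ ex π α` -/
noncomputable def ex (π α : G) : ZMod 4 := pick (fun k => π ∣ α ^ m4 π - ip k)

lemma ex_spec {π α : G} (hπ : Prime π) (ho : od π) (hα : ¬ π ∣ α) :
    π ∣ α ^ m4 π - ip (ex π α) :=
  pick_spec (exists_ip hπ ho hα)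

lemma ex_eq {π α : G} (hπ : Prime π) (ho : od π) {k : ZMod 4} (h : π ∣ α ^ m4 π - ip k) :
    ex π α = k := by
  have h1 : ∃ k, π ∣ α ^ m4 π - ip k := ⟨k, h⟩
  have h2 : π ∣ α ^ m4 π - ip (ex π α) := pick_spec h1
  apply ip_inj hπ ho
  have := dvd_sub h h2
  ring_nf at this
  have h3 : ip (ex π α) - ip k = -ip k + ip (ex π α) := by ring
  rw [h3]
  exact this

lemma ex_mul {π α β : G} (hπ : Prime π) (ho : od π) (hα : ¬ π ∣ α) (hβ : ¬ π ∣ β) :
    ex π (α * β) = ex π α + ex π β := by
  apply ex_eq hπ ho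
  have h1 := ex_spec hπ ho hα
  have h2 := ex_spec hπ ho hβ
  have h3 : (α * β) ^ m4 π - ip (ex π α + ex π β) = (α ^ m4 π - ip (ex π α)) * β ^ m4 π +
      ip (ex π α) * (β ^ m4 π - ip (ex π β)) := by
    rw [ip_add, mul_pow]
    ring
  rw [h3]
  exact dvd_add (h1.mul_right _) (h2.mul_left _)

lemma pow_congr {π α β : G} (h : π ∣ α - β) (n : ℕ) : π ∣ α ^ n - β ^ n :=
  h.trans (sub_dvd_pow_sub_pow α β n)

lemma ex_congr {π α β : G} (h : π ∣ α - β) : ex π α = ex π β := by
  have h1 : (fun k => π ∣ α ^ m4 π - ip k) = fun k => π ∣ β ^ m4 π - ip k := by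
    funext k
    have h2 := pow_congr h (m4 π)
    apply propext
    constructor
    · intro h3
      have := dvd_sub h3 h2
      have h4 : β ^ m4 π - ip k = α ^ m4 π - ip k - (α ^ m4 π - β ^ m4 π) := by ring
      rwa [h4]
    · intro h3
      have := dvd_add h3 h2
      have h4 : α ^ m4 π - ip k = β ^ m4 π - ip k + (α ^ m4 π - β ^ m4 π) := by ring
      rwa [h4]
  exact congrArg pick h1

lemma ex_assoc {π π' α : G} (h : Associated π π') : ex π α = ex π' α := by
  have hn : m4 π = m4 π' := by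
    obtain ⟨u, rfl⟩ := h
    unfold m4
    rw [Zsqrtd.norm_mul, isUnit_iff.1 u.isUnit, mul_one]
  have h1 : (fun k => π ∣ α ^ m4 π - ip k) = fun k => π' ∣ α ^ m4 π' - ip k := by
    funext k
    rw [hn, h.dvd_iff_dvd_left]
  exact congrArg pick h1

lemma ex_I {π : G} (hπ : Prime π) (ho : od π) : ex π I = ((m4 π : ℕ) : ZMod 4) := by
  apply ex_eq hπ ho
  rw [ip_natCast, sub_self]
  exact dvd_zero _

lemma star_ip (k : ZMod 4) : star (ip k) = ip (-k) := by
  rcases zmod4_cases k with rfl | rfl | rfl | rfl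
  · simp [ip_zero]
  · have : (-1 : ZMod 4) = 3 := by decide
    rw [this, ip_one, ip_three]
    apply Zsqrtd.ext <;> simp [I]
  · have : (-2 : ZMod 4) = 2 := by decide
    rw [this, ip_two]
    simp
  · have : (-3 : ZMod 4) = 1 := by decide
    rw [this, ip_one, ip_three]
    apply Zsqrtd.ext <;> simp [I]

lemma star_dvd {α β : G} (h : α ∣ β) : star α ∣ star β := by
  obtain ⟨γ, rfl⟩ := h
  rw [star_mul]
  exact Dvd.intro_left _ rfl

lemma star_dvd_iff {α β : G} : star α ∣ star β ↔ α ∣ β := by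
  constructor
  · intro h
    have := star_dvd h
    rwa [star_star, star_star] at this
  · exact star_dvd

lemma prime_star {π : G} (hπ : Prime π) : Prime (star π) := by
  have : star π = (starRingAut : G ≃+* G) π := rfl
  rw [this]
  exact (MulEquiv.prime_iff (starRingAut : G ≃+* G).toMulEquiv).2 hπ

lemma norm_star (α : G) : (star α).norm = α.norm := by
  rw [norm_eq, norm_eq]
  simp

lemma od_star {α : G} : od (star α) ↔ od α := by
  unfold od
  rw [norm_star]

lemma ex_star {π α : G} (hπ : Prime π) (ho : od π) (hα : ¬ π ∣ α) :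
    ex (star π) (star α) = - ex π α := by
  apply ex_eq (prime_star hπ) (od_star.2 ho)
  have h1 := star_dvd (ex_spec hπ ho hα)
  have h2 : m4 (star π) = m4 π := by
    unfold m4
    rw [norm_star]
  rw [star_sub, star_pow, star_ip] at h1
  rw [h2]
  exact h1

end Pool.Agent.Q33.QR
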