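import Pool.Agent.Q33.QR.Eval

/-!
# The exponent in each of the cases
-/

set_option autoImplicit false

namespace Pool.Agent.Q33.QR

open Zsqrtd

/-- the exponent -/
noncomputable def E (c1 δ n v Y : ℤ) : ZMod 4 :=
  M (mk (2 * c1) δ) + J ⟨n, v⟩ (mk (2 * c1) δ) - J (Y : G) (mk (2 * c1) δ)

lemma cast_of_eq {a b : ℤ} (h : a = b) : (a : ZMod 4) = (b : ZMod 4) := by rw [h]

/-- `b` even, `x` even -/
lemma case_A {c1 δ : ℤ} (p : ℕ) [hp : Fact p.Prime] (hπ : Prime (mk (2 * c1) δ))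
    (hN : (mk (2 * c1) δ).norm = (p : ℤ)) {ξ β w : ℤ} (hpY : ¬ (p : ℤ) ∣ (4 * w + 1))
    (hxy : (4 * c1 + 1) ^ 2 + 4 * δ ^ 2 = 4 * ξ ^ 2 + (4 * β ^ 2 + 1) * (4 * w + 1) ^ 2) :
    E c1 δ (2 * (2 * c1 + ξ) + 1) (2 * (δ - β * (4 * w + 1))) (4 * w + 1) =
      ((-ξ ^ 2 - ξ - δ ^ 2 - δ - 2 * δ * β - 2 * ξ * δ + β : ℤ) : ZMod 4) := by
  unfold E
  rw [exp0 p hπ hN (τ := 2) (κ := 4 * β) (s := 0) (w := w) (Or.inr rfl) (by ring)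
    (by linear_combination hxy) hpY (by ring) rfl rfl]
  push_cast
  have h1 := two_sq (δ : ZMod 4)
  linear_combination 2 * h1 + (-2 * (w : ZMod 4) * β * δ + c1 * δ - c1 * ξ - c1 ^ 2 + w * β +
    δ * ξ + δ) * four_zero

/-- `b` even, `x` odd, `4 ∣ y` -/
lemma case_B {c1 d1 : ℤ} (p : ℕ) [hp : Fact p.Prime] (hπ : Prime (mk (2 * c1) (2 * d1)))
    (hN : (mk (2 * c1) (2 * d1)).norm = (p : ℤ)) {x1 y1 B w : ℤ} {s : ℕ} (hs : 1 ≤ s)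
    (hY : 2 * y1 = 2 ^ s * (4 * w + 1)) (hpY : ¬ (p : ℤ) ∣ (2 * y1))
    (hxy : (4 * c1 + 1) ^ 2 + 16 * d1 ^ 2 = (4 * x1 + 1) ^ 2 + (B ^ 2 + 1) * (4 * y1) ^ 2) :
    E c1 (2 * d1) (2 * (c1 + x1) + 1) (2 * (d1 - B * y1)) (2 * y1) =
      ((2 * (d1 + y1) : ℤ) : ZMod 4) := by
  unfold E
  rw [exp0 p hπ hN (τ := 1) (κ := 2 * B) (s := s) (w := w) (Or.inl rfl) (by ring)
    (by linarith) hpY hY rfl rfl]
  obtain ⟨μ, hμ⟩ : ∃ μ, μ = ((B ^ 2 + 1) * y1 ^ 2 - d1 ^ 2) - (c1 - x1) * (c1 + x1) := ⟨_, rfl⟩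
  have h1 : (c1 - x1) * (2 * (c1 + x1) + 1) = 2 * ((B ^ 2 + 1) * y1 ^ 2 - d1 ^ 2) := by linarith
  have h2 : x1 = c1 - 2 * μ := by
    rw [hμ]
    linear_combination -h1
  have h3 : μ * (4 * (c1 - μ) + 1) = (B ^ 2 + 1) * y1 ^ 2 - d1 ^ 2 := by
    rw [h2] at h1
    linarith
  have h4 := cast_of_eq h3
  have h5 : 2 * (s : ZMod 4) * y1 = 2 * y1 := by
    obtain ⟨s', rfl⟩ : ∃ s', s = s' + 1 := ⟨s - 1, by omega⟩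
    have h6 : y1 = 2 ^ s' * (4 * w + 1) := by
      rw [pow_succ] at hY
      linarith
    rcases Nat.eq_zero_or_pos s' with rfl | h7
    · push_cast
      ring
    · obtain ⟨s'', rfl⟩ : ∃ s'', s' = s'' + 1 := ⟨s' - 1, by omega⟩
      rw [h6, pow_succ]
      push_cast
      linear_combination ((s'' : ZMod 4) + 1) * (2 ^ s'' * (4 * w + 1)) * four_zero
  rw [h2]
  push_cast at h4 ⊢
  have s1 := two_sq ((B : ZMod 4) * y1)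
  have s2 := two_sq (y1 : ZMod 4)
  have s3 := two_sq (d1 : ZMod 4)
  have h6 : (μ : ZMod 4) = ((B : ZMod 4) ^ 2 + 1) * y1 ^ 2 - d1 ^ 2 := by
    linear_combination h4 - ((μ : ZMod 4) * (c1 - μ)) * four_zero
  linear_combination 2 * h6 + s1 + s2 - s3 - (B : ZMod 4) * h5 + (-B * c1 * y1 - B * d1 * y1 + 
    B * y1 * μ + 3 * c1 * d1 + 2 * c1 * μ - c1 ^ 2 - 3 * d1 * μ + 2 * d1 ^ 2 - μ ^ 2 - d1 : ZMod 4) *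
    four_zero

lemma case_C1_rel {c1 δ1 x1 β w : ℤ}
    (hxy : (4 * c1 + 1) ^ 2 + 4 * (4 * δ1 + 1) ^ 2 =
      (4 * x1 + 1) ^ 2 + (4 * β ^ 2 + 1) * (2 * (4 * w + 1)) ^ 2) :
    ∃ μ : ℤ, x1 = c1 - 2 * μ ∧ (μ : ZMod 4) = β ^ 2 + 2 * w - 2 * δ1 := by
  have h1 : (c1 - x1) * (2 * (c1 + x1) + 1) = 2 * (β ^ 2 * (4 * w + 1) ^ 2 +
      2 * (w - δ1) * (1 + 2 * (w + δ1))) := by linarith
  refine ⟨(β ^ 2 * (4 * w + 1) ^ 2 + 2 * (w - δ1) * (1 + 2 * (w + δ1))) - (c1 - x1) * (c1 + x1),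
    by linear_combination -h1, ?_⟩
  obtain ⟨μ, hμ⟩ : ∃ μ, μ = (β ^ 2 * (4 * w + 1) ^ 2 + 2 * (w - δ1) * (1 + 2 * (w + δ1))) -
    (c1 - x1) * (c1 + x1) := ⟨_, rfl⟩
  rw [← hμ]
  have h2 : x1 = c1 - 2 * μ := by
    rw [hμ]
    linear_combination -h1
  have h3 : μ * (4 * (c1 - μ) + 1) = β ^ 2 * (4 * w + 1) ^ 2 +
      2 * (w - δ1) * (1 + 2 * (w + δ1)) := by
    rw [h2] at h1
    linarith
  have h4 := cast_of_eq h3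
  push_cast at h4
  linear_combination h4 + (-(μ : ZMod 4) * (c1 - μ) + β ^ 2 * (4 * w ^ 2 + 2 * w) +
    (w - δ1) * (w + δ1)) * four_zero

/-- `b ≡ 0 mod 4`, `x` odd, `2 ∥ y` -/
lemma case_C1 {c1 δ1 : ℤ} (p : ℕ) [hp : Fact p.Prime] (hπ : Prime (mk (2 * c1) (4 * δ1 + 1)))
    (hN : (mk (2 * c1) (4 * δ1 + 1)).norm = (p : ℤ)) {x1 β w : ℤ}
    (hpY : ¬ (p : ℤ) ∣ (4 * w + 1))
    (hxy : (4 * c1 + 1) ^ 2 + 4 * (4 * δ1 + 1) ^ 2 =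
      (4 * x1 + 1) ^ 2 + (4 * β ^ 2 + 1) * (2 * (4 * w + 1)) ^ 2) :
    E c1 (4 * δ1 + 1) (2 * (c1 + x1) + 1) (4 * δ1 + 1 - 2 * β * (4 * w + 1)) (4 * w + 1) =
      ((2 * β : ℤ) : ZMod 4) := by
  obtain ⟨μ, h2, hrel⟩ := case_C1_rel hxy
  have e2 : 4 * δ1 + 1 = 2 * (2 * δ1) + 1 := by ring
  have hJp : J A (mk (2 * c1) (4 * δ1 + 1)) = -(c1 : ZMod 4) + 2 * δ1 - 1 := by
    rw [e2] at hπ hN ⊢
    rw [J_A_pi_odd p hπ hN]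
    push_cast
    ring
  have hJn : J A ((2 * (c1 + x1) + 1 : ℤ) : G) = (c1 : ZMod 4) - μ := by
    have : 2 * (c1 + x1) + 1 = 2 * (2 * (c1 - μ)) + 1 := by
      rw [h2]
      ring
    rw [this, J_A_one_mod]
    push_cast
    ring
  have hν : c1 + x1 = 2 * (c1 - μ) := by
    rw [h2]
    ring
  unfold E
  rcases Int.even_or_odd' β with ⟨β1, hβ | hβ⟩
  · rw [exp1 p hπ hN (τ := 1) (κ := 4 * β) (s := 0) (w := w) (ν := c1 + x1)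
      (e := -4 * w * β1 - c1 - β1 + δ1 + μ) (Or.inl rfl) (by ring) (by linarith) hpY (by ring) rfl
      (by rw [hβ, hν]; ring), hJp, hJn, hν, hβ]
    rw [hβ] at hrel
    push_cast at hrel ⊢
    linear_combination hrel + (-4 * c1 * w * β1 + 4 * w * β1 * μ - c1 * β1 + 5 * c1 * δ1 +
      4 * c1 * μ - 2 * c1 ^ 2 + β1 * μ + β1 ^ 2 - 5 * δ1 * μ + 4 * δ1 ^ 2 - 2 * μ ^ 2 + c1 - β1 +
      2 * δ1 - μ : ZMod 4) * four_zero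
  · rw [exp2 p hπ hN (τ := 1) (κ := 4 * β) (s := 0) (w := w) (ν := c1 + x1)
      (e := -4 * w * β1 - c1 - 2 * w - β1 + δ1 + μ - 1) (Or.inl rfl) (by ring) (by linarith) hpY
      (by ring) rfl (by rw [hβ, hν]; ring), hJp, hJn, hν, hβ]
    rw [hβ] at hrel
    push_cast at hrel ⊢
    linear_combination -hrel + (-4 * c1 * w * β1 + 4 * w * β1 * μ - 2 * c1 * w - c1 * β1 +
      5 * c1 * δ1 + 2 * c1 * μ - c1 ^ 2 + 2 * w * μ + β1 * μ - β1 ^ 2 - 5 * δ1 * μ + 8 * δ1 ^ 2 -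
      μ ^ 2 + c1 - w - 2 * β1 + 7 * δ1 : ZMod 4) * four_zero

lemma case_C2_rel {c1 d1 x1 h w : ℤ}
    (hxy : (4 * c1 + 1) ^ 2 + 4 * (2 * d1) ^ 2 =
      (4 * x1 + 1) ^ 2 + ((2 * h + 1) ^ 2 + 1) * (2 * (4 * w + 1)) ^ 2) :
    ∃ ν1 : ℤ, x1 = 2 * ν1 + 1 - c1 ∧ (ν1 : ZMod 4) = 3 * c1 - 2 - h ^ 2 - h + d1 ^ 2 := by
  have h1 : (c1 - x1) * (2 * (c1 + x1) + 1) =
      (2 * h ^ 2 + 2 * h + 1) * (4 * w + 1) ^ 2 - 2 * d1 ^ 2 := by linarith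
  obtain ⟨ν1, hν1⟩ : ∃ ν1 : ℤ, x1 = 2 * ν1 + 1 - c1 := by
    refine ⟨c1 + (c1 - x1) * (c1 + x1) - (h ^ 2 + h) * (4 * w + 1) ^ 2 - (8 * w ^ 2 + 4 * w) +
      d1 ^ 2 - 1, ?_⟩
    linear_combination -h1
  refine ⟨ν1, hν1, ?_⟩
  have h3 : 4 * c1 * ν1 + 3 * c1 - 4 * ν1 ^ 2 - 5 * ν1 - 2 =
      (h ^ 2 + h) * (4 * w + 1) ^ 2 + 8 * w ^ 2 + 4 * w - d1 ^ 2 := by
    rw [hν1] at h1
    linarith
  have h4 := cast_of_eq h3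
  push_cast at h4
  linear_combination -h4 + (c1 * ν1 - ν1 ^ 2 - ν1 - (h ^ 2 + h) * (4 * w ^ 2 + 2 * w) -
    2 * w ^ 2 - w : ZMod 4) * four_zero

/-- `b ≡ 2 mod 4`, `x` odd, `2 ∥ y` -/
lemma case_C2 {c1 d1 : ℤ} (p : ℕ) [hp : Fact p.Prime] (hπ : Prime (mk (2 * c1) (2 * d1)))
    (hN : (mk (2 * c1) (2 * d1)).norm = (p : ℤ)) {x1 h w : ℤ}
    (hpY : ¬ (p : ℤ) ∣ (4 * w + 1))
    (hxy : (4 * c1 + 1) ^ 2 + 4 * (2 * d1) ^ 2 =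
      (4 * x1 + 1) ^ 2 + ((2 * h + 1) ^ 2 + 1) * (2 * (4 * w + 1)) ^ 2) :
    E c1 (2 * d1) (2 * (c1 + x1) + 1) (2 * d1 - (2 * h + 1) * (4 * w + 1)) (4 * w + 1) =
      ((1 + 2 * (h + d1) : ℤ) : ZMod 4) := by
  obtain ⟨ν1, h2, hrel⟩ := case_C2_rel hxy
  have hJp := J_A_pi_even p hπ hN
  have hν : c1 + x1 = 2 * ν1 + 1 := by
    rw [h2]
    ring
  have hJn : J A ((2 * (c1 + x1) + 1 : ℤ) : G) = -(ν1 : ZMod 4) - 1 := by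
    rw [hν, J_A_three_mod]
  unfold E
  rcases Int.even_or_odd' (d1 - h) with ⟨g, hg | hg⟩
  · have hd : d1 = h + 2 * g := by omega
    rw [exp1 p hπ hN (τ := 1) (κ := 2 * (2 * h + 1)) (s := 0) (w := w) (ν := c1 + x1)
      (e := -2 * h * w + g - w - ν1 - 1) (Or.inl rfl) (by ring) (by linarith) hpY (by ring) rfl
      (by rw [hd, hν]; ring), hJp, hJn, hν, hd]
    rw [hd] at hrel
    push_cast at hrel ⊢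
    linear_combination -hrel + (-2 * h * w * ν1 + 3 * g * h + 5 * g * ν1 + 3 * g ^ 2 - h * w +
      2 * h * ν1 + h ^ 2 - w * ν1 - 2 * ν1 ^ 2 + g - w - 3 * ν1 - 1 : ZMod 4) * four_zero
  · have hd : d1 = h + 2 * g + 1 := by omega
    rw [exp2 p hπ hN (τ := 1) (κ := 2 * (2 * h + 1)) (s := 0) (w := w) (ν := c1 + x1)
      (e := -2 * h * w + g - w - ν1 - 1) (Or.inl rfl) (by ring) (by linarith) hpY (by ring) rfl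
      (by rw [hd, hν]; ring), hJp, hJn, hν, hd]
    rw [hd] at hrel
    push_cast at hrel ⊢
    linear_combination hrel + (-2 * h * w * ν1 + 9 * g * h + 5 * g * ν1 + 9 * g ^ 2 - h * w +
      2 * h * ν1 + 2 * h ^ 2 - w * ν1 - ν1 ^ 2 + 2 * c1 + 12 * g + 5 * h - w + 2 : ZMod 4) *
      four_zero

/-- `b` odd, `4 ∣ x` -/
lemma case_D1 {c1 δ1 : ℤ} (p : ℕ) [hp : Fact p.Prime] (hπ : Prime (mk (2 * c1) (4 * δ1 + 1)))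
    (hN : (mk (2 * c1) (4 * δ1 + 1)).norm = (p : ℤ)) {ξ1 h w : ℤ}
    (hpY : ¬ (p : ℤ) ∣ (2 * (4 * w + 1)))
    (hxy : (4 * c1 + 1) ^ 2 + 4 * (4 * δ1 + 1) ^ 2 =
      4 * (2 * ξ1) ^ 2 + ((2 * h + 1) ^ 2 + 4) * (4 * w + 1) ^ 2) :
    E c1 (4 * δ1 + 1) (2 * (2 * c1 + 2 * ξ1) + 1)
      (2 * (4 * δ1 + 1) - (2 * h + 1) * (4 * w + 1)) (2 * (4 * w + 1)) =
      ((3 + 2 * ξ1 + 2 * (h / 2) : ℤ) : ZMod 4) := by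
  have e2 : 4 * δ1 + 1 = 2 * (2 * δ1) + 1 := by ring
  have hJp : J A (mk (2 * c1) (4 * δ1 + 1)) = -(c1 : ZMod 4) + 2 * δ1 - 1 := by
    rw [e2] at hπ hN ⊢
    rw [J_A_pi_odd p hπ hN]
    push_cast
    ring
  have hJn : J A ((2 * (2 * c1 + 2 * ξ1) + 1 : ℤ) : G) = (c1 : ZMod 4) + ξ1 := by
    have : 2 * (2 * c1 + 2 * ξ1) + 1 = 2 * (2 * (c1 + ξ1)) + 1 := by ring
    rw [this, J_A_one_mod]
    push_cast
    ring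
  unfold E
  have q1 := two_sq (c1 : ZMod 4)
  have q2 := two_sq (w : ZMod 4)
  have q4 := two_sq (ξ1 : ZMod 4)
  rcases Int.even_or_odd' h with ⟨h1, hh | hh⟩
  · have q3 := two_sq (h1 : ZMod 4)
    have hh2 : h / 2 = h1 := by omega
    have q6 := two_sq (-4 * (h1 : ZMod 4) * w - c1 - h1 - w + 2 * δ1 - ξ1)
    have hr : 8 * δ1 ^ 2 + 4 * δ1 - 2 * ξ1 ^ 2 = (2 * h1 ^ 2 + h1) * (4 * w + 1) ^ 2 +
        10 * w ^ 2 + 5 * w - 2 * c1 ^ 2 - c1 := by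
      rw [hh] at hxy
      linarith
    have hr2 := cast_of_eq hr
    rw [exp1 p hπ hN (τ := 2) (κ := 2 * h + 1) (s := 1) (w := w) (ν := 2 * c1 + 2 * ξ1)
      (e := -4 * h1 * w - c1 - h1 - w + 2 * δ1 - ξ1) (Or.inr rfl) (by ring)
      (by linear_combination hxy) hpY
      (by ring) rfl (by rw [hh]; ring), hJp, hJn, hh2]
    push_cast at hr2 ⊢
    have hrel : (-2 : ZMod 4) * ξ1 ^ 2 = 2 * h1 ^ 2 + h1 + 2 * w ^ 2 + w - 2 * c1 ^ 2 - c1 := by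
      linear_combination hr2 + (-2 * δ1 ^ 2 - δ1 + (2 * h1 ^ 2 + h1) * (4 * w ^ 2 + 2 * w) +
        2 * w ^ 2 + w : ZMod 4) * four_zero
    linear_combination -hrel - q1 - q2 - q3 - q4 - q6 + (16 * h1 ^ 2 * w ^ 2 -
      16 * h1 * w * δ1 + 8 * h1 * w ^ 2 + 8 * h1 ^ 2 * w + 4 * c1 * δ1 - 4 * c1 * ξ1 - c1 ^ 2 +
      3 * h1 * w - 4 * h1 * δ1 + h1 ^ 2 - 4 * w * δ1 + w ^ 2 + 4 * δ1 * ξ1 + 8 * δ1 ^ 2 -
      2 * ξ1 ^ 2 + c1 - h1 - w + δ1 - 1 : ZMod 4) * four_zero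
  · have q3 := two_sq (h1 : ZMod 4)
    have hh2 : h / 2 = h1 := by omega
    have q6 := two_sq (-4 * (h1 : ZMod 4) * w - c1 - h1 - 3 * w + 2 * δ1 - ξ1 - 1)
    have hr : 8 * δ1 ^ 2 + 4 * δ1 - 2 * ξ1 ^ 2 = (2 * h1 ^ 2 + 3 * h1 + 1) * (4 * w + 1) ^ 2 +
        10 * w ^ 2 + 5 * w - 2 * c1 ^ 2 - c1 := by
      rw [hh] at hxy
      linarith
    have hr2 := cast_of_eq hr
    rw [exp2 p hπ hN (τ := 2) (κ := 2 * h + 1) (s := 1) (w := w) (ν := 2 * c1 + 2 * ξ1)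
      (e := -4 * h1 * w - c1 - h1 - 3 * w + 2 * δ1 - ξ1 - 1) (Or.inr rfl) (by ring)
      (by linear_combination hxy) hpY
      (by ring) rfl (by rw [hh]; ring), hJp, hJn, hh2]
    push_cast at hr2 ⊢
    have hrel : (-2 : ZMod 4) * ξ1 ^ 2 =
        2 * h1 ^ 2 + 3 * h1 + 1 + 2 * w ^ 2 + w - 2 * c1 ^ 2 - c1 := by
      linear_combination hr2 + (-2 * δ1 ^ 2 - δ1 +
        (2 * h1 ^ 2 + 3 * h1 + 1) * (4 * w ^ 2 + 2 * w) + 2 * w ^ 2 + w : ZMod 4) * four_zero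
    linear_combination -3 * hrel - q1 - q2 - q3 - q4 - q6 + (4 * c1 * δ1 + 2 * c1 ^ 2 +
      5 * h1 * w - h1 ^ 2 - w ^ 2 + 4 * δ1 * ξ1 + 8 * δ1 ^ 2 - ξ1 ^ 2 + 3 * c1 - 2 * h1 + 2 * w +
      3 * δ1 + ξ1 : ZMod 4) * four_zero

/-- `b` odd, `2 ∥ x` -/
lemma case_D2 {c1 δ1 : ℤ} (p : ℕ) [hp : Fact p.Prime] (hπ : Prime (mk (2 * c1) (2 * δ1)))
    (hN : (mk (2 * c1) (2 * δ1)).norm = (p : ℤ)) {ξ1 h w : ℤ}
    (hpY : ¬ (p : ℤ) ∣ (2 * (4 * w + 1)))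
    (hxy : (4 * c1 + 1) ^ 2 + 4 * (2 * δ1) ^ 2 =
      4 * (4 * ξ1 + 1) ^ 2 + ((2 * h + 1) ^ 2 + 4) * (4 * w + 1) ^ 2) :
    E c1 (2 * δ1) (2 * (2 * c1 + (4 * ξ1 + 1)) + 1)
      (2 * (2 * δ1) - (2 * h + 1) * (4 * w + 1)) (2 * (4 * w + 1)) =
      ((1 + 2 * δ1 + 2 * (h / 2) : ℤ) : ZMod 4) := by
  have hJp := J_A_pi_even p hπ hN
  have hJn : J A ((2 * (2 * c1 + (4 * ξ1 + 1)) + 1 : ℤ) : G) = -((c1 : ZMod 4) + 2 * ξ1) - 1 := by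
    have : 2 * (2 * c1 + (4 * ξ1 + 1)) + 1 = 2 * (2 * (c1 + 2 * ξ1) + 1) + 1 := by ring
    rw [this, J_A_three_mod]
    push_cast
    ring
  unfold E
  have q1 := two_sq (c1 : ZMod 4)
  have q2 := two_sq (w : ZMod 4)
  have q5 := two_sq (δ1 : ZMod 4)
  rcases Int.even_or_odd' h with ⟨h1, hh | hh⟩
  · have q3 := two_sq (h1 : ZMod 4)
    have hh2 : h / 2 = h1 := by omega
    have q6 := two_sq (-4 * (h1 : ZMod 4) * w - c1 - h1 - w + δ1 - 2 * ξ1 - 1)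
    have hr : 2 * δ1 ^ 2 - 8 * ξ1 ^ 2 - 4 * ξ1 - 1 = (2 * h1 ^ 2 + h1) * (4 * w + 1) ^ 2 +
        10 * w ^ 2 + 5 * w - 2 * c1 ^ 2 - c1 := by
      rw [hh] at hxy
      linarith
    have hr2 := cast_of_eq hr
    rw [exp1 p hπ hN (τ := 2) (κ := 2 * h + 1) (s := 1) (w := w) (ν := 2 * c1 + (4 * ξ1 + 1))
      (e := -4 * h1 * w - c1 - h1 - w + δ1 - 2 * ξ1 - 1) (Or.inr rfl) (by ring)
      (by linear_combination hxy) hpY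
      (by ring) rfl (by rw [hh]; ring), hJp, hJn, hh2]
    push_cast at hr2 ⊢
    have hrel : (2 : ZMod 4) * δ1 ^ 2 - 1 =
        2 * h1 ^ 2 + h1 + 2 * w ^ 2 + w - 2 * c1 ^ 2 - c1 := by
      linear_combination hr2 + (2 * ξ1 ^ 2 + ξ1 + (2 * h1 ^ 2 + h1) * (4 * w ^ 2 + 2 * w) +
        2 * w ^ 2 + w : ZMod 4) * four_zero
    linear_combination -hrel - q1 - q2 - q3 - q5 - q6 + (16 * h1 ^ 2 * w ^ 2 -
      8 * h1 * w * δ1 + 8 * h1 * w ^ 2 + 8 * h1 ^ 2 * w + 2 * c1 * δ1 - 8 * c1 * ξ1 - c1 ^ 2 +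
      7 * h1 * w - 2 * h1 * δ1 + h1 ^ 2 - 2 * w * δ1 + w ^ 2 + 4 * δ1 * ξ1 + 3 * δ1 ^ 2 -
      8 * ξ1 ^ 2 - 2 * c1 - 2 * δ1 - 5 * ξ1 - 1 : ZMod 4) * four_zero
  · have q3 := two_sq (h1 : ZMod 4)
    have hh2 : h / 2 = h1 := by omega
    have q6 := two_sq (-4 * (h1 : ZMod 4) * w - c1 - h1 - 3 * w + δ1 - 2 * ξ1 - 2)
    have hr : 2 * δ1 ^ 2 - 8 * ξ1 ^ 2 - 4 * ξ1 - 1 =
        (2 * h1 ^ 2 + 3 * h1 + 1) * (4 * w + 1) ^ 2 +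
        10 * w ^ 2 + 5 * w - 2 * c1 ^ 2 - c1 := by
      rw [hh] at hxy
      linarith
    have hr2 := cast_of_eq hr
    rw [exp2 p hπ hN (τ := 2) (κ := 2 * h + 1) (s := 1) (w := w) (ν := 2 * c1 + (4 * ξ1 + 1))
      (e := -4 * h1 * w - c1 - h1 - 3 * w + δ1 - 2 * ξ1 - 2) (Or.inr rfl) (by ring)
      (by linear_combination hxy) hpY
      (by ring) rfl (by rw [hh]; ring), hJp, hJn, hh2]
    push_cast at hr2 ⊢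
    have hrel : (2 : ZMod 4) * δ1 ^ 2 - 1 =
        2 * h1 ^ 2 + 3 * h1 + 1 + 2 * w ^ 2 + w - 2 * c1 ^ 2 - c1 := by
      linear_combination hr2 + (2 * ξ1 ^ 2 + ξ1 +
        (2 * h1 ^ 2 + 3 * h1 + 1) * (4 * w ^ 2 + 2 * w) + 2 * w ^ 2 + w : ZMod 4) * four_zero
    linear_combination -3 * hrel - q1 - q2 - q3 - q5 - q6 + (2 * c1 * δ1 + 2 * c1 ^ 2 +
      5 * h1 * w - h1 ^ 2 - w ^ 2 + 4 * δ1 * ξ1 + 4 * δ1 ^ 2 + 2 * c1 - 2 * h1 + 2 * w - δ1 +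
      ξ1 : ZMod 4) * four_zero

/-- `b` odd, `2 ∥ y` -/
lemma case_E1 {c1 δ1 : ℤ} (p : ℕ) [hp : Fact p.Prime] (hπ : Prime (mk (2 * c1) (4 * δ1 + 1)))
    (hN : (mk (2 * c1) (4 * δ1 + 1)).norm = (p : ℤ)) {x1 h w : ℤ}
    (hpY : ¬ (p : ℤ) ∣ (2 * (4 * w + 1)))
    (hxy : (4 * c1 + 1) ^ 2 + 4 * (4 * δ1 + 1) ^ 2 =
      (4 * x1 + 1) ^ 2 + ((2 * h + 1) ^ 2 + 4) * (2 * (4 * w + 1)) ^ 2) :
    E c1 (4 * δ1 + 1) (2 * (c1 + x1) + 1) (2 * (2 * δ1 - 4 * h * w - h - 2 * w))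
      (2 * (4 * w + 1)) = ((2 : ℤ) : ZMod 4) := by
  unfold E
  have h1 : (c1 - x1) * (2 * (c1 + x1) + 1) = 2 * ((h ^ 2 + h) * (4 * w + 1) ^ 2 +
      20 * w ^ 2 + 10 * w + 1 - 4 * δ1 ^ 2 - 2 * δ1) := by linarith
  obtain ⟨ν1, hν1⟩ : ∃ ν1 : ℤ, c1 + x1 = 2 * ν1 := by
    refine ⟨c1 + (c1 - x1) * (c1 + x1) - ((h ^ 2 + h) * (4 * w + 1) ^ 2 +
      20 * w ^ 2 + 10 * w + 1 - 4 * δ1 ^ 2 - 2 * δ1), ?_⟩
    linear_combination -h1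
  have h3 : (c1 - ν1) * (4 * ν1 + 1) = (h ^ 2 + h) * (4 * w + 1) ^ 2 +
      20 * w ^ 2 + 10 * w + 1 - 4 * δ1 ^ 2 - 2 * δ1 := by
    have : x1 = 2 * ν1 - c1 := by linarith
    rw [this] at h1
    linarith
  have h4 := cast_of_eq h3
  rw [exp0 p hπ hN (τ := 1) (κ := 2 * h + 1) (s := 1) (w := w) (ν := c1 + x1)
    (η := 2 * δ1 - 4 * h * w - h - 2 * w) (Or.inl rfl) (by ring)
    (by linarith) hpY (by ring) rfl rfl, hν1]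
  push_cast at h4 ⊢
  have hrel : (c1 : ZMod 4) - ν1 = h ^ 2 + h + 2 * w + 1 - 2 * δ1 := by
    linear_combination h4 + (-(c1 - ν1) * ν1 + (h ^ 2 + h) * (4 * w ^ 2 + 2 * w) +
      5 * w ^ 2 + 2 * w - δ1 ^ 2 : ZMod 4) * four_zero
  have q3 := two_sq (h : ZMod 4)
  linear_combination -2 * hrel - q3 + (-8 * h * w * δ1 - 4 * h * w * ν1 - 4 * h * w -
    2 * h * δ1 - h * ν1 - 4 * w * δ1 - 2 * w * ν1 + 6 * δ1 * ν1 + 8 * δ1 ^ 2 - ν1 ^ 2 + c1 -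
    2 * h - 3 * w + 4 * δ1 - 1 : ZMod 4) * four_zero

/-- `b` odd, `4 ∣ y` -/
lemma case_E2 {c1 d1 : ℤ} (p : ℕ) [hp : Fact p.Prime] (hπ : Prime (mk (2 * c1) (2 * d1)))
    (hN : (mk (2 * c1) (2 * d1)).norm = (p : ℤ)) {x1 y2 h w : ℤ} {s : ℕ} (hs : 2 ≤ s)
    (hY : 4 * y2 = 2 ^ s * (4 * w + 1)) (hpY : ¬ (p : ℤ) ∣ (4 * y2))
    (hxy : (4 * c1 + 1) ^ 2 + 16 * d1 ^ 2 =
      (4 * x1 + 1) ^ 2 + ((2 * h + 1) ^ 2 + 4) * (4 * y2) ^ 2) :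
    E c1 (2 * d1) (2 * (c1 + x1) + 1) (2 * (d1 - (2 * h + 1) * y2)) (4 * y2) =
      ((2 * (y2 + d1) : ℤ) : ZMod 4) := by
  unfold E
  rw [exp0 p hπ hN (τ := 1) (κ := 2 * h + 1) (s := s) (w := w) (Or.inl rfl) (by ring)
    (by linarith) hpY hY rfl rfl]
  obtain ⟨μ, hμ⟩ : ∃ μ, μ = (((2 * h + 1) ^ 2 + 4) * y2 ^ 2 - d1 ^ 2) -
    (c1 - x1) * (c1 + x1) := ⟨_, rfl⟩
  have h1 : (c1 - x1) * (2 * (c1 + x1) + 1) =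
    2 * (((2 * h + 1) ^ 2 + 4) * y2 ^ 2 - d1 ^ 2) := by linarith
  have h2 : x1 = c1 - 2 * μ := by
    rw [hμ]
    linear_combination -h1
  have h3 : μ * (4 * (c1 - μ) + 1) = ((2 * h + 1) ^ 2 + 4) * y2 ^ 2 - d1 ^ 2 := by
    rw [h2] at h1
    linarith
  have h4 := cast_of_eq h3
  have h5 : 2 * (s : ZMod 4) * y2 = 0 := by
    obtain ⟨s', rfl⟩ : ∃ s', s = s' + 2 := ⟨s - 2, by omega⟩
    have h6 : y2 = 2 ^ s' * (4 * w + 1) := by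
      rw [pow_add] at hY
      linarith
    rcases Nat.eq_zero_or_pos s' with rfl | h7
    · push_cast
      linear_combination (y2 : ZMod 4) * four_zero
    · obtain ⟨s'', rfl⟩ : ∃ s'', s' = s'' + 1 := ⟨s' - 1, by omega⟩
      rw [h6, pow_succ]
      push_cast
      linear_combination ((s'' : ZMod 4) + 1 + 2) * (2 ^ s'' * (4 * w + 1)) * four_zero
  rw [h2]
  push_cast at h4 ⊢
  have s2 := two_sq (y2 : ZMod 4)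
  have s3 := two_sq (d1 : ZMod 4)
  have h6 : (μ : ZMod 4) = ((2 * (h : ZMod 4) + 1) ^ 2 + 4) * y2 ^ 2 - d1 ^ 2 := by
    linear_combination h4 - ((μ : ZMod 4) * (c1 - μ)) * four_zero
  linear_combination -2 * h6 - s2 - s3 - (2 * (h : ZMod 4) + 1) * h5 +
    (-2 * h ^ 2 * y2 ^ 2 - 2 * c1 * h * y2 - 2 * d1 * h * y2 + 2 * h * y2 * μ - 2 * h * y2 ^ 2 +
      3 * c1 * d1 - c1 * y2 + 2 * c1 * μ - c1 ^ 2 - d1 * y2 - 3 * d1 * μ + 3 * d1 ^ 2 + y2 * μ -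
      2 * y2 ^ 2 - μ ^ 2 - d1 - y2 + μ : ZMod 4) * four_zero

end Pool.Agent.Q33.QR
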