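import Pool.Agent.Q33.QR.Cases

/-!
# From the exponent to the Lucas sequences
-/

set_option autoImplicit false

namespace Pool.Agent.Q33.QR

open Zsqrtd

lemma prime_of_norm {π : G} {p : ℕ} (hp : p.Prime) (hN : π.norm = (p : ℤ)) : Prime π := by
  have h : Irreducible π := by
    constructor
    · intro h
      rw [isUnit_iff, hN] at h
      have := hp.one_lt
      omega
    · intro a b hab
      have h1 : a.norm * b.norm = (p : ℤ) := by
        rw [← Zsqrtd.norm_mul, ← hab, hN]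
      have h2 : a.norm.natAbs * b.norm.natAbs = p := by
        rw [← Int.natAbs_mul, h1, Int.natAbs_natCast]
      have h3 : a.norm.natAbs ∣ p := Dvd.intro _ h2
      have ha := norm_nonneg a
      have hb := norm_nonneg b
      rcases (Nat.dvd_prime hp).1 h3 with h4 | h4
      · left
        rw [isUnit_iff]
        omega
      · right
        rw [isUnit_iff]
        rw [h4] at h2
        have h5 : b.norm.natAbs = 1 := Nat.eq_of_mul_eq_mul_left hp.pos (by rw [h2, mul_one])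
        omega
  exact h.prime

section

variable {c1 δ : ℤ} (p : ℕ) [hp : Fact p.Prime] (hN : (mk (2 * c1) δ).norm = (p : ℤ))

include hN in
lemma m4_pi : m4 (mk (2 * c1) δ) = (p - 1) / 4 := by
  have h := m4_spec (od_mk (2 * c1) δ)
  rw [hN] at h
  omega

lemma fip_even {K : Type*} [Field K] (f : G →+* K) (z : ℤ) :
    f (ip ((2 * z : ℤ) : ZMod 4)) = (-1) ^ z := by
  rcases Int.even_or_odd' z with ⟨k, hk | hk⟩
  · have h1 : ((2 * z : ℤ) : ZMod 4) = 0 := by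
      rw [hk]
      push_cast
      linear_combination (k : ZMod 4) * four_zero
    have h2 : Even z := ⟨k, by omega⟩
    rw [h1, ip_zero, map_one, h2.neg_one_zpow]
  · have h1 : ((2 * z : ℤ) : ZMod 4) = 2 := by
      rw [hk]
      push_cast
      linear_combination (k : ZMod 4) * four_zero
    have h2 : Odd z := ⟨k, hk⟩
    rw [h1, ip_two, map_neg, map_one, h2.neg_one_zpow]

lemma fip_odd {K : Type*} [Field K] (f : G →+* K) (z : ℤ) :
    f (ip ((1 + 2 * z : ℤ) : ZMod 4)) = f I * (-1) ^ z := by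
  have h1 : ((1 + 2 * z : ℤ) : ZMod 4) = 1 + ((2 * z : ℤ) : ZMod 4) := by
    push_cast
    ring
  rw [h1, ip_add, ip_one, map_mul, fip_even]

include hN in
lemma eps_pow (f : G →+* ZMod p) (hf : ∀ α, f α = 0 ↔ mk (2 * c1) δ ∣ α)
    {n v Y : ℤ} (hY : ¬ (p : ℤ) ∣ Y) (hω : ¬ mk (2 * c1) δ ∣ (⟨n, v⟩ : G))
    {ε : ZMod p} (hε : (Y : ZMod p) * ε = f I * f ⟨n, v⟩) :
    ε ^ ((p - 1) / 4) = f (ip (E c1 δ n v Y)) := by
  have hπ := prime_of_norm hp.out hN
  have ho := od_mk (2 * c1) δ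
  have key : ∀ α : G, ¬ mk (2 * c1) δ ∣ α →
      f α ^ ((p - 1) / 4) = f (ip (ex (mk (2 * c1) δ) α)) := by
    intro α hα
    have h1 := ex_spec hπ ho hα
    rw [← hf, map_sub, map_pow, m4_pi p hN] at h1
    exact sub_eq_zero.1 h1
  have hYπ : ¬ mk (2 * c1) δ ∣ (Y : G) := fun h => hY (dvd_int_of p hN h)
  have hIπ : ¬ mk (2 * c1) δ ∣ I := not_dvd_of_coprime hπ (coprime_I _)
  have h1 := congrArg (fun x => x ^ ((p - 1) / 4)) hε
  simp only [mul_pow] at h1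
  have h2 : (Y : ZMod p) = f (Y : G) := (map_intCast f Y).symm
  rw [h2, key _ hYπ, key _ hIπ, key _ hω] at h1
  have h3 : f (ip (ex (mk (2 * c1) δ) (Y : G))) * f (ip (-ex (mk (2 * c1) δ) (Y : G))) = 1 := by
    rw [← map_mul, ← ip_add, add_neg_cancel, ip_zero, map_one]
  have h4 : E c1 δ n v Y = ex (mk (2 * c1) δ) I + ex (mk (2 * c1) δ) ⟨n, v⟩ +
      -ex (mk (2 * c1) δ) (Y : G) := by
    unfold E
    rw [← J_I ho, J_prime _ hπ, J_prime _ hπ, J_prime _ hπ]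
    ring
  rw [h4, ip_add, ip_add, map_mul, map_mul, ← h1]
  linear_combination (-ε ^ ((p - 1) / 4)) * h3

end

lemma binet {K : Type*} [Field K] {b : ℤ} {U V : ℕ → ℤ} (hU0 : U 0 = 0) (hU1 : U 1 = 1)
    (hU : ∀ n, U (n + 2) = b * U (n + 1) + U n) (hV0 : V 0 = 2) (hV1 : V 1 = b)
    (hV : ∀ n, V (n + 2) = b * V (n + 1) + V n) {r1 r2 : K} (h1 : r1 + r2 = b)
    (h2 : r1 * r2 = -1) (n : ℕ) :
    (V n : K) = r1 ^ n + r2 ^ n ∧ (r1 - r2) * (U n : K) = r1 ^ n - r2 ^ n := by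
  have key : ∀ n, ((V n : K) = r1 ^ n + r2 ^ n ∧ (r1 - r2) * (U n : K) = r1 ^ n - r2 ^ n) ∧
      ((V (n + 1) : K) = r1 ^ (n + 1) + r2 ^ (n + 1) ∧
        (r1 - r2) * (U (n + 1) : K) = r1 ^ (n + 1) - r2 ^ (n + 1)) := by
    intro n
    induction n with
    | zero =>
      refine ⟨⟨?_, ?_⟩, ⟨?_, ?_⟩⟩
      · rw [hV0]
        push_cast
        ring
      · rw [hU0]
        push_cast
        ring
      · rw [hV1, ← h1]
        ring
      · rw [hU1]
        push_cast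
        ring
    | succ n ih =>
      obtain ⟨⟨a1, a2⟩, ⟨a3, a4⟩⟩ := ih
      refine ⟨⟨a3, a4⟩, ⟨?_, ?_⟩⟩
      · rw [hV n]
        push_cast
        rw [a3, a1, ← h1]
        have e1 : r1 ^ (n + 1 + 1) = (r1 + r2) * r1 ^ (n + 1) - (r1 * r2) * r1 ^ n := by ring
        have e2 : r2 ^ (n + 1 + 1) = (r1 + r2) * r2 ^ (n + 1) - (r1 * r2) * r2 ^ n := by ring
        rw [e1, e2, h2]
        ring
      · rw [hU n]
        push_cast
        have e1 : r1 ^ (n + 1 + 1) = (r1 + r2) * r1 ^ (n + 1) - (r1 * r2) * r1 ^ n := by ring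
        have e2 : r2 ^ (n + 1 + 1) = (r1 + r2) * r2 ^ (n + 1) - (r1 * r2) * r2 ^ n := by ring
        rw [e1, e2, h2, ← h1]
        linear_combination (r1 + r2) * a4 + a2
  exact (key n).1

section core

variable (p : ℕ) [hp : Fact p.Prime] {c1 δ x y B a b n v Y l : ℤ} {U V : ℕ → ℤ}

/-- the common setting -/
structure Data (p : ℕ) (c1 δ x y B a b n v Y l : ℤ) (U V : ℕ → ℤ) : Prop where
  hcd : (4 * c1 + 1) ^ 2 + (2 * δ) ^ 2 = (p : ℤ)
  hxy : x ^ 2 + (B ^ 2 + a ^ 2) * y ^ 2 = (p : ℤ)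
  hx : x ≠ 0
  hy : y ≠ 0
  ha : a = 1 ∨ a = 2
  hl : l = 1 ∨ l = 2
  hab : a * b = 2 * B
  hn : l * n = 4 * c1 + 1 + x
  hv : l * v = 2 * δ - B * y
  hY : l * Y = a * y
  hU0 : U 0 = 0
  hU1 : U 1 = 1
  hU : ∀ n, U (n + 2) = b * U (n + 1) + U n
  hV0 : V 0 = 2
  hV1 : V 1 = b
  hV : ∀ n, V (n + 2) = b * V (n + 1) + V n

variable (D : Data p c1 δ x y B a b n v Y l U V)

include D in
lemma data_norm : (mk (2 * c1) δ).norm = (p : ℤ) := by
  rw [norm_mk, ← D.hcd]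
  ring

lemma not_dvd_small {p : ℕ} {z m : ℤ} (hz : z ≠ 0) (h : z ^ 2 + m = (p : ℤ)) (hm : 0 ≤ m)
    (hp1 : 1 < p) : ¬ (p : ℤ) ∣ z := by
  intro hd
  obtain ⟨k, rfl⟩ := hd
  have hk : k ≠ 0 := right_ne_zero_of_mul hz
  have h1 : 1 ≤ k ^ 2 := by
    have := sq_nonneg k
    have h2 : k ^ 2 ≠ 0 := pow_ne_zero 2 hk
    omega
  have h2 : (1 : ℤ) < p := by exact_mod_cast hp1
  have h3 : (p : ℤ) ^ 2 * 1 ≤ (p : ℤ) ^ 2 * k ^ 2 := mul_le_mul_of_nonneg_left h1 (sq_nonneg _)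
  have h4 : ((p : ℤ) * k) ^ 2 = (p : ℤ) ^ 2 * k ^ 2 := by ring
  rw [h4] at h
  nlinarith

include D in
lemma data_px : ¬ (p : ℤ) ∣ x :=
  not_dvd_small D.hx D.hxy (by positivity) hp.out.one_lt

include D in
lemma data_py : ¬ (p : ℤ) ∣ y := by
  have h := D.hxy
  have hy := D.hy
  have ha : 1 ≤ a ^ 2 := by
    rcases D.ha with h | h <;> rw [h] <;> norm_num
  have h1 : y ^ 2 + (x ^ 2 + (B ^ 2 + a ^ 2 - 1) * y ^ 2) = (p : ℤ) := by linarith
  refine not_dvd_small hy h1 ?_ hp.out.one_lt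
  have := sq_nonneg B
  have h2 : 0 ≤ B ^ 2 + a ^ 2 - 1 := by linarith
  positivity

include D in
lemma data_p2 : p % 4 = 1 := by
  have h := D.hcd
  have : (p : ℤ) = 4 * (4 * c1 ^ 2 + 2 * c1 + δ ^ 2) + 1 := by
    rw [← h]
    ring
  omega

include D in
lemma data_pa : ¬ (p : ℤ) ∣ a := by
  have h := data_p2 p D
  intro h1
  have h2 := Int.le_of_dvd (by rcases D.ha with h | h <;> rw [h] <;> norm_num) h1
  have h3 := hp.out.one_lt
  rcases D.ha with h4 | h4 <;> rw [h4] at h2 <;> omega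

include D in
lemma data_pY : ¬ (p : ℤ) ∣ Y := by
  intro h
  have h1 : (p : ℤ) ∣ a * y := by
    rw [← D.hY]
    exact h.mul_left _
  rcases Int.Prime.dvd_mul' hp.out h1 with h2 | h2
  · exact data_pa p D h2
  · exact data_py p D h2

include D in
/-- the main evaluation in terms of the ring homomorphism -/
lemma core_hom : ∃ f : G →+* ZMod p, f I = (2 * δ : ℤ) / (4 * c1 + 1 : ℤ) ∧ f I ^ 2 = -1 ∧
    (V ((p - 1) / 4) : ZMod p) = f (ip (E c1 δ n v Y)) +
      (-1) ^ ((p - 1) / 4) * f (ip (-E c1 δ n v Y)) ∧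
    (2 * f I * x / (a * y)) * (U ((p - 1) / 4) : ZMod p) = f (ip (E c1 δ n v Y)) -
      (-1) ^ ((p - 1) / 4) * f (ip (-E c1 δ n v Y)) := by
  have hN := data_norm p D
  have hπ := prime_of_norm hp.out hN
  obtain ⟨f, hf⟩ := exists_hom hπ p hN
  have hI : f I ^ 2 = -1 := by
    rw [← map_pow, I_sq, map_neg, map_one]
  have h0 : f (mk (2 * c1) δ) = 0 := (hf _).2 dvd_rfl
  have h1 : mk (2 * c1) δ = ((4 * c1 + 1 : ℤ) : G) + ((2 * δ : ℤ) : G) * I := by
    apply Zsqrtd.ext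
    · simp [mk, I]
      ring
    · simp [mk, I]
  have hpi : ∀ z : ℤ, ¬ (p : ℤ) ∣ z → (z : ZMod p) ≠ 0 := by
    intro z hz h
    exact hz ((ZMod.intCast_zmod_eq_zero_iff_dvd z p).1 h)
  have hc : ((4 * c1 + 1 : ℤ) : ZMod p) ≠ 0 :=
    hpi _ (not_dvd_small (m := (2 * δ) ^ 2) (by omega) D.hcd (by positivity) hp.out.one_lt)
  have hx : (x : ZMod p) ≠ 0 := hpi _ (data_px p D)
  have hy : (y : ZMod p) ≠ 0 := hpi _ (data_py p D)
  have ha : (a : ZMod p) ≠ 0 := hpi _ (data_pa p D)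
  rw [h1, map_add, map_mul, map_intCast, map_intCast] at h0
  have hfI : f I = (2 * δ : ℤ) / (4 * c1 + 1 : ℤ) := by
    rw [eq_div_iff hc]
    linear_combination f I * h0 - ((2 * δ : ℤ) : ZMod p) * hI
  have hl : (l : ZMod p) ≠ 0 := by
    apply hpi
    have h := data_p2 p D
    intro h1
    have h2 := Int.le_of_dvd (by rcases D.hl with h | h <;> rw [h] <;> norm_num) h1
    have h3 := hp.out.one_lt
    rcases D.hl with h4 | h4 <;> rw [h4] at h2 <;> omega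
  have hfω : f ⟨n, v⟩ = (n : ZMod p) + v * f I := by
    have : (⟨n, v⟩ : G) = ((n : ℤ) : G) + ((v : ℤ) : G) * I := by
      apply Zsqrtd.ext <;> simp [I]
    rw [this, map_add, map_mul, map_intCast, map_intCast]
  have dn : (l : ZMod p) * n = (4 * c1 + 1 : ℤ) + x := by
    have := congrArg (Int.cast : ℤ → ZMod p) D.hn
    push_cast at this ⊢
    exact this
  have dv : (l : ZMod p) * v = (2 * δ : ℤ) - B * y := by
    have := congrArg (Int.cast : ℤ → ZMod p) D.hv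
    push_cast at this ⊢
    exact this
  have dY : (l : ZMod p) * Y = a * y := by
    have := congrArg (Int.cast : ℤ → ZMod p) D.hY
    push_cast at this ⊢
    exact this
  have dab : (a : ZMod p) * b = 2 * B := by
    have := congrArg (Int.cast : ℤ → ZMod p) D.hab
    push_cast at this ⊢
    exact this
  have dxy : (x : ZMod p) ^ 2 + (B ^ 2 + a ^ 2) * y ^ 2 = 0 := by
    have := congrArg (Int.cast : ℤ → ZMod p) D.hxy
    push_cast at this
    rw [this]
    exact ZMod.natCast_self p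
  set t := f I with ht
  obtain ⟨r1, hr1⟩ : ∃ r1 : ZMod p, r1 = (B + t * x / y) / a := ⟨_, rfl⟩
  obtain ⟨r2, hr2⟩ : ∃ r2 : ZMod p, r2 = (B - t * x / y) / a := ⟨_, rfl⟩
  have hr1' : a * y * r1 = B * y + t * x := by
    rw [hr1]
    field_simp
  have hsum : r1 + r2 = b := by
    rw [hr1, hr2]
    field_simp
    linear_combination (-(y : ZMod p)) * dab
  have hprod : r1 * r2 = -1 := by
    rw [hr1, hr2]
    field_simp
    linear_combination dxy - (x : ZMod p) ^ 2 * hI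
  have hε : (Y : ZMod p) * r1 = t * f ⟨n, v⟩ := by
    apply mul_left_cancel₀ hl
    rw [hfω]
    have e1 : (l : ZMod p) * (Y * r1) = a * y * r1 := by rw [← mul_assoc, dY]
    have e2 : (l : ZMod p) * (t * (n + v * t)) = t * (l * n) + (l * v) * t ^ 2 := by ring
    rw [e1, e2, dn, dv, hr1', hI]
    linear_combination (-t) * h0 + ((2 * δ : ℤ) : ZMod p) * hI
  have hω : ¬ mk (2 * c1) δ ∣ (⟨n, v⟩ : G) := by
    intro h
    rw [← hf] at h
    have hprod0 : r1 ≠ 0 := by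
      intro h
      rw [h, zero_mul] at hprod
      exact absurd hprod.symm (neg_ne_zero.2 one_ne_zero)
    rw [h, mul_zero] at hε
    rcases mul_eq_zero.1 hε with h2 | h2
    · exact hpi _ (data_pY p D) h2
    · exact hprod0 h2
  have hpow := eps_pow p hN f hf (data_pY p D) hω hε
  have hinv : f (ip (E c1 δ n v Y)) * f (ip (-E c1 δ n v Y)) = 1 := by
    rw [← map_mul, ← ip_add, add_neg_cancel, ip_zero, map_one]
  have hpow2 : r2 ^ ((p - 1) / 4) = (-1) ^ ((p - 1) / 4) * f (ip (-E c1 δ n v Y)) := by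
    have h3 : r1 ^ ((p - 1) / 4) * r2 ^ ((p - 1) / 4) = (-1) ^ ((p - 1) / 4) := by
      rw [← mul_pow, hprod]
    rw [hpow] at h3
    have h4 : f (ip (E c1 δ n v Y)) ≠ 0 := left_ne_zero_of_mul (hinv.trans_ne one_ne_zero)
    apply mul_left_cancel₀ h4
    rw [h3]
    linear_combination (-(-1) ^ ((p - 1) / 4)) * hinv
  obtain ⟨hV, hU⟩ := binet D.hU0 D.hU1 D.hU D.hV0 D.hV1 D.hV hsum hprod ((p - 1) / 4)
  rw [hpow, hpow2] at hV hU
  refine ⟨f, hfI, hI, hV, ?_⟩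
  have hdiff : r1 - r2 = 2 * t * x / (a * y) := by
    rw [hr1, hr2]
    field_simp
    ring
  rw [hdiff] at hU
  exact hU

include D in
lemma data_ne : (x : ZMod p) ≠ 0 ∧ (y : ZMod p) ≠ 0 ∧ (a : ZMod p) ≠ 0 ∧ (2 : ZMod p) ≠ 0 := by
  have hpi : ∀ z : ℤ, ¬ (p : ℤ) ∣ z → (z : ZMod p) ≠ 0 := by
    intro z hz h
    exact hz ((ZMod.intCast_zmod_eq_zero_iff_dvd z p).1 h)
  refine ⟨hpi _ (data_px p D), hpi _ (data_py p D), hpi _ (data_pa p D), ?_⟩
  have h1 : ((2 : ℤ) : ZMod p) ≠ 0 := by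
    apply hpi
    intro h1
    have h := data_p2 p D
    have h2 := Int.le_of_dvd (by norm_num) h1
    have h3 := hp.out.one_lt
    omega
  exact_mod_cast h1

lemma fip_neg_even {K : Type*} [Field K] (f : G →+* K) (z : ℤ) :
    f (ip (-((2 * z : ℤ) : ZMod 4))) = (-1) ^ z := by
  have : -((2 * z : ℤ) : ZMod 4) = ((2 * z : ℤ) : ZMod 4) := by
    push_cast
    linear_combination (-(z : ZMod 4)) * four_zero
  rw [this, fip_even]

lemma fip_neg_odd {K : Type*} [Field K] (f : G →+* K) (z : ℤ) :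
    f (ip (-((1 + 2 * z : ℤ) : ZMod 4))) = -(f I * (-1) ^ z) := by
  have : -((1 + 2 * z : ℤ) : ZMod 4) = ((1 + 2 * (z + 1) : ℤ) : ZMod 4) := by
    push_cast
    linear_combination (-(z : ZMod 4) - 1) * four_zero
  rw [this, fip_odd, zpow_add₀ (neg_ne_zero.2 one_ne_zero), zpow_one]
  ring

include D in
lemma final_ee (hNe : Even ((p - 1) / 4)) {z : ℤ} (hE : E c1 δ n v Y = ((2 * z : ℤ) : ZMod 4)) :
    (V ((p - 1) / 4) : ZMod p) = 2 * (-1) ^ z ∧ (U ((p - 1) / 4) : ZMod p) = 0 := by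
  obtain ⟨f, h1, h2, h3, h4⟩ := core_hom p D
  obtain ⟨hx, hy, ha, h20⟩ := data_ne p D
  rw [hE, fip_even, fip_neg_even, hNe.neg_one_pow] at h3 h4
  have ht : f I ≠ 0 := by
    intro h
    rw [h] at h2
    exact neg_ne_zero.2 one_ne_zero (h2.symm.trans (by ring))
  constructor
  · rw [h3]
    ring
  · have h5 : (2 * f I * x / (a * y) : ZMod p) ≠ 0 :=
      div_ne_zero (mul_ne_zero (mul_ne_zero h20 ht) hx) (mul_ne_zero ha hy)
    apply mul_left_cancel₀ h5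
    rw [h4]
    ring

include D in
lemma final_oo (hNo : Odd ((p - 1) / 4)) {z : ℤ}
    (hE : E c1 δ n v Y = ((1 + 2 * z : ℤ) : ZMod 4)) :
    (V ((p - 1) / 4) : ZMod p) = 2 * (-1) ^ z * (((2 * δ : ℤ) : ZMod p) / ((4 * c1 + 1 : ℤ) : ZMod p))
      ∧ (U ((p - 1) / 4) : ZMod p) = 0 := by
  obtain ⟨f, h1, h2, h3, h4⟩ := core_hom p D
  obtain ⟨hx, hy, ha, h20⟩ := data_ne p D
  rw [hE, fip_odd, fip_neg_odd, hNo.neg_one_pow] at h3 h4
  have ht : f I ≠ 0 := by
    intro h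
    rw [h] at h2
    exact neg_ne_zero.2 one_ne_zero (h2.symm.trans (by ring))
  constructor
  · rw [h3, ← h1]
    ring
  · have h5 : (2 * f I * x / (a * y) : ZMod p) ≠ 0 :=
      div_ne_zero (mul_ne_zero (mul_ne_zero h20 ht) hx) (mul_ne_zero ha hy)
    apply mul_left_cancel₀ h5
    rw [h4]
    ring

include D in
lemma final_eo (hNe : Even ((p - 1) / 4)) {z : ℤ}
    (hE : E c1 δ n v Y = ((1 + 2 * z : ℤ) : ZMod 4)) :
    (V ((p - 1) / 4) : ZMod p) = 0 ∧
      (U ((p - 1) / 4) : ZMod p) = a * (-1) ^ z * ((y : ZMod p) / x) := by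
  obtain ⟨f, h1, h2, h3, h4⟩ := core_hom p D
  obtain ⟨hx, hy, ha, h20⟩ := data_ne p D
  rw [hE, fip_odd, fip_neg_odd, hNe.neg_one_pow] at h3 h4
  have ht : f I ≠ 0 := by
    intro h
    rw [h] at h2
    exact neg_ne_zero.2 one_ne_zero (h2.symm.trans (by ring))
  constructor
  · rw [h3]
    ring
  · have h5 : (2 * f I * x / (a * y) : ZMod p) ≠ 0 :=
      div_ne_zero (mul_ne_zero (mul_ne_zero h20 ht) hx) (mul_ne_zero ha hy)
    apply mul_left_cancel₀ h5
    rw [h4]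
    field_simp
    ring

include D in
lemma final_oe (hNo : Odd ((p - 1) / 4)) {z : ℤ} (hE : E c1 δ n v Y = ((2 * z : ℤ) : ZMod 4)) :
    (V ((p - 1) / 4) : ZMod p) = 0 ∧
      (U ((p - 1) / 4) : ZMod p) = -(a * (-1) ^ z *
        ((((2 * δ : ℤ) : ZMod p) * y) / (((4 * c1 + 1 : ℤ) : ZMod p) * x))) := by
  obtain ⟨f, h1, h2, h3, h4⟩ := core_hom p D
  obtain ⟨hx, hy, ha, h20⟩ := data_ne p D
  rw [hE, fip_even, fip_neg_even, hNo.neg_one_pow] at h3 h4
  have ht : f I ≠ 0 := by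
    intro h
    rw [h] at h2
    exact neg_ne_zero.2 one_ne_zero (h2.symm.trans (by ring))
  constructor
  · rw [h3]
    ring
  · have h5 : (2 * f I * x / (a * y) : ZMod p) ≠ 0 :=
      div_ne_zero (mul_ne_zero (mul_ne_zero h20 ht) hx) (mul_ne_zero ha hy)
    apply mul_left_cancel₀ h5
    have h7 : (((2 * δ : ℤ) : ZMod p) * y) / (((4 * c1 + 1 : ℤ) : ZMod p) * x) =
        f I * (y / x) := by rw [mul_div_mul_comm, ← h1]
    rw [h4, h7]
    have h6 : (2 * f I * x / (a * y) : ZMod p) * -(a * (-1) ^ z * (f I * (y / x))) =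
        -(f I ^ 2) * (2 * (-1) ^ z) := by
      field_simp
    rw [h6, h2]
    ring

end core

end Pool.Agent.Q33.QR
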