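import Pool.Agent.Q33.QR.Gl

/-!
# Evaluation of the transformation formula
-/

set_option autoImplicit false

namespace Pool.Agent.Q33.QR

open Zsqrtd

lemma J_tau {τ : ℤ} (hτ : τ = 1 ∨ τ = 2) (x y : ℤ) :
    J (τ : G) (mk x y) = ((τ : ZMod 4) - 1) * ((2 * (x : ZMod 4) + 1) * y) := by
  rcases hτ with rfl | rfl
  · rw [Int.cast_one, Int.cast_one, J_one (od_mk x y)]
    ring
  · have h := J_two (x := x) (y := y)
    have e : ((2 : ℤ) : G) = 2 := by norm_num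
    rw [e, h]
    push_cast
    ring

lemma J_A_one_mod {ν : ℤ} : J A ((2 * (2 * ν) + 1 : ℤ) : G) = (ν : ZMod 4) := by
  rw [J_A_rat _ (by omega)]
  have : (2 * (2 * ν) + 1 - 1) / 4 = ν := by omega
  rw [this]

lemma J_A_three_mod {ν : ℤ} : J A ((2 * (2 * ν + 1) + 1 : ℤ) : G) = -(ν : ZMod 4) - 1 := by
  have h : ((2 * (2 * ν + 1) + 1 : ℤ) : G) = -((-(2 * (2 * ν + 1) + 1) : ℤ) : G) := by
    push_cast
    ring
  rw [h, J_neg_right, J_A_rat _ (by omega)]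
  have : (-(2 * (2 * ν + 1) + 1) - 1) / 4 = -ν - 1 := by omega
  rw [this]
  push_cast
  ring

lemma J_A_pi_even {c1 δ1 : ℤ} (p : ℕ) [hp : Fact p.Prime] (hπ : Prime (mk (2 * c1) (2 * δ1)))
    (hN : (mk (2 * c1) (2 * δ1)).norm = (p : ℤ)) :
    J A (mk (2 * c1) (2 * δ1)) = (c1 : ZMod 4) - δ1 := by
  rw [J_A_split hπ p hN (u := c1 + δ1) (by ring)]
  push_cast
  linear_combination (-(δ1 : ZMod 4) ^ 2) * four_zero

lemma J_A_pi_odd {c1 δ1 : ℤ} (p : ℕ) [hp : Fact p.Prime] (hπ : Prime (mk (2 * c1) (2 * δ1 + 1)))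
    (hN : (mk (2 * c1) (2 * δ1 + 1)).norm = (p : ℤ)) :
    J A (mk (2 * c1) (2 * δ1 + 1)) = -(c1 : ZMod 4) + δ1 - 1 := by
  have h2 : mk (-2 * c1 - 1) (-(2 * δ1 + 1)) = - mk (2 * c1) (2 * δ1 + 1) := by
    apply Zsqrtd.ext
    · simp [mk]
      ring
    · simp [mk]
      ring
  have h3 : Prime (mk (-2 * c1 - 1) (-(2 * δ1 + 1))) := by
    rw [h2]
    exact hπ.neg
  have h4 : (mk (-2 * c1 - 1) (-(2 * δ1 + 1))).norm = (p : ℤ) := by
    rw [h2, Zsqrtd.norm_neg]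
    exact hN
  have h5 := J_A_split h3 p h4 (u := -c1 - δ1 - 1) (by ring)
  rw [h2, J_neg_right] at h5
  rw [h5]
  push_cast
  linear_combination (-(δ1 : ZMod 4) ^ 2 - δ1) * four_zero

section main

variable {c1 δ n v κ τ Y : ℤ} (p : ℕ) [hp : Fact p.Prime] (hπ : Prime (mk (2 * c1) δ))
  (hN : (mk (2 * c1) δ).norm = (p : ℤ)) (hτ : τ = 1 ∨ τ = 2)
  (h1 : τ * (2 * δ) = 2 * v + κ * Y)
  (h2 : τ * (4 * c1 + 1) * n = n ^ 2 - v * (v + κ * Y) + Y ^ 2) (hpY : ¬ (p : ℤ) ∣ Y)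
  {s : ℕ} {w : ℤ} (hYs : Y = 2 ^ s * (4 * w + 1))

include h1 h2 in
lemma hid_of : (τ : G) * (mk (2 * c1) δ * (n : G)) =
    ⟨n, v⟩ * ⟨n, v + κ * Y⟩ + (Y : G) ^ 2 := by
  rw [pow_two]
  apply Zsqrtd.ext
  · simp [mk]
    linear_combination h2
  · simp [mk]
    linear_combination n * h1

include hπ hN hτ h1 h2 hpY hYs in
/-- the even case -/
lemma exp0 {ν η : ℤ} (hn : n = 2 * ν + 1) (hv : v = 2 * η) :
    M (mk (2 * c1) δ) + J ⟨n, v⟩ (mk (2 * c1) δ) - J (Y : G) (mk (2 * c1) δ) =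
      2 * (c1 : ZMod 4) + δ ^ 2 - ν ^ 2 - ν + 2 * (ν * δ + ν * η + η * δ) + 2 * s * η -
        (τ - 1) * ((2 * ν + 1) * η) - s * δ := by
  have hs := sp_mk (2 * c1) δ
  have hω : (⟨n, v⟩ : G) = 1 * mk ν η := by
    rw [one_mul, hn, hv]
    rfl
  have key := gl hπ hs p hN hτ (by omega) (hid_of h1 h2) rfl hpY hYs (by omega)
    (μ := 1) (ω := mk ν η) (fun _ _ => isCoprime_one_left) hω (sp_mk _ _)
  have hon : od (n : G) := od_int (by omega)
  have hnmk : (n : G) = mk ν 0 := by rw [mk_int, hn]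
  rw [J_one (sp_od hs), J_one hon, J_one (od_int (by omega)), J_tau hτ, J_two, J_two, hnmk,
    mk_mul, F_mk, M_mk] at key
  rw [M_mk]
  push_cast at key ⊢
  linear_combination key + ((c1 : ZMod 4) ^ 2 + 
    ((ν : ZMod 4) * δ * ν + c1 * ν * η * 2 + c1 * η + η * δ * ν) +
    s * ν * η - s * c1 * δ) * four_zero

lemma two_sq (x : ZMod 4) : 2 * x ^ 2 = 2 * x := by
  revert x
  decide

include hπ hN hτ h1 h2 hpY hYs in
/-- the odd case, first subcase -/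
lemma exp1 {ν e : ℤ} (hn : n = 2 * ν + 1) (hv : v = 2 * (ν + 2 * e) + 1) :
    M (mk (2 * c1) δ) + J ⟨n, v⟩ (mk (2 * c1) δ) - J (Y : G) (mk (2 * c1) δ) =
      J A (mk (2 * c1) δ) + J A (n : G) +
      2 * (c1 : ZMod 4) + δ ^ 2 - ν ^ 2 - ν + 2 * (ν * δ + ν * e) + 
        (2 * s - (τ - 1)) * ((2 * (ν + e) + 1) * e) - 2 * w - s * δ := by
  have hs := sp_mk (2 * c1) δ
  have hω : (⟨n, v⟩ : G) = A * mk (ν + e) e := by
    apply Zsqrtd.ext
    · simp [mk, A, hn]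
      ring
    · simp [mk, A, hv]
      ring
  have key := gl hπ hs p hN hτ (by omega) (hid_of h1 h2) rfl hpY hYs (by omega)
    (μ := A) (ω := mk (ν + e) e) (fun _ h => coprime_A h) hω (sp_mk _ _)
  have hnmk : (n : G) = mk ν 0 := by rw [mk_int, hn]
  have hY0 : J A ((4 * w + 1 : ℤ) : G) = (w : ZMod 4) := by
    have : (4 * w + 1 : ℤ) = 2 * (2 * w) + 1 := by ring
    rw [this]
    exact J_A_one_mod
  rw [J_tau hτ, J_two, J_two, hY0, hnmk, mk_mul, F_mk, M_mk] at key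
  rw [M_mk, hnmk]
  push_cast at key ⊢
  linear_combination key + ((c1 : ZMod 4) ^ 2 + 
    ((ν : ZMod 4) + e) * δ * ν + c1 * ν * e * 2 + c1 * e + e * δ * ν + e * δ - s * c1 * δ) * four_zero

include hπ hN hτ h1 h2 hpY hYs in
/-- the odd case, second subcase -/
lemma exp2 {ν e : ℤ} (hn : n = 2 * ν + 1) (hv : v = 2 * (ν + 2 * e + 1) + 1) :
    M (mk (2 * c1) δ) + J ⟨n, v⟩ (mk (2 * c1) δ) - J (Y : G) (mk (2 * c1) δ) =
      J A (mk (2 * c1) δ) + J A (n : G) +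
      2 * (2 * (c1 : ZMod 4) + δ ^ 2) + 2 * (ν * δ + δ + ν * e) -
        (2 * s - (τ - 1)) * ((2 * e + 1) * (ν + e + 1)) - 2 * w - s * δ := by
  have hs := sp_mk (2 * c1) δ
  have hω : (⟨n, v⟩ : G) = (A * I) * mk e (-(ν + e + 1)) := by
    apply Zsqrtd.ext
    · simp [mk, A, I, hn]
      ring
    · simp [mk, A, I, hv]
      ring
  have key := gl hπ hs p hN hτ (by omega) (hid_of h1 h2) rfl hpY hYs (by omega)
    (μ := A * I) (ω := mk e (-(ν + e + 1))) (fun _ h => (coprime_A h).mul_left (coprime_I _))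
    hω (sp_mk _ _)
  have hnmk : (n : G) = mk ν 0 := by rw [mk_int, hn]
  have hon : od (n : G) := od_int (by omega)
  have hoY : od ((4 * w + 1 : ℤ) : G) := od_int (by omega)
  have hY0 : J A ((4 * w + 1 : ℤ) : G) = (w : ZMod 4) := by
    have : (4 * w + 1 : ℤ) = 2 * (2 * w) + 1 := by ring
    rw [this]
    exact J_A_one_mod
  have hMY : 2 * M ((4 * w + 1 : ℤ) : G) = 0 := M_one_mod (by omega)
  rw [J_mul_left (sp_od hs) (coprime_A (sp_od hs)) (coprime_I _),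
    J_mul_left hon (coprime_A hon) (coprime_I _), J_mul_left hoY (coprime_A hoY) (coprime_I _),
    J_I (sp_od hs), J_I hon, J_I hoY,
    J_tau hτ, J_two, J_two, hY0, hnmk, mk_mul, F_mk, M_mk, M_mk] at key
  rw [M_mk, hnmk]
  have hν := two_sq (ν : ZMod 4)
  push_cast at key hMY ⊢
  linear_combination key - hν - hMY + (2 * (c1 : ZMod 4) ^ 2 + e * δ * ν -
    2 * c1 * ν * (ν + e + 1) - c1 * (ν + e + 1) - ν * e - δ * ν * (ν + e + 1) - δ * ν - δ - ν -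
    s * c1 * δ) * four_zero

end main

end Pool.Agent.Q33.QR
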