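import Pool.Agent.Q33.QR.Basic

/-!
# Gauss and Jacobi sums of the quartic character of a split Gaussian prime
-/

set_option autoImplicit false

namespace Pool.Agent.Q33.QR

open Zsqrtd

section split

variable {π : G} (hπ : Prime π) (ho : od π) (p : ℕ) [hp : Fact p.Prime] (hN : π.norm = (p : ℤ))

include hπ ho hN

omit ho in
lemma exists_hom : ∃ f : G →+* ZMod p, ∀ α, f α = 0 ↔ π ∣ α := by
  obtain ⟨c, d⟩ := π
  have hN' : c * c + d * d = p := by rw [← hN, norm_eq]
  have hd : (d : ZMod p) ≠ 0 := by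
    intro h
    rw [ZMod.intCast_zmod_eq_zero_iff_dvd] at h
    have h1 : (p : ℤ) ∣ c * c := by
      have : c * c = p - d * d := by linarith
      rw [this]
      exact dvd_sub dvd_rfl (h.mul_right d)
    have h2 : (p : ℤ) ∣ c := by
      rcases (Nat.prime_iff_prime_int.1 hp.out).dvd_or_dvd h1 with h | h <;> exact h
    have h3 : (p : ℤ) * p ∣ p := by
      nth_rewrite 3 [← hN']
      exact dvd_add (mul_dvd_mul h2 h2) (mul_dvd_mul h h)
    have h4 := Int.le_of_dvd (by exact_mod_cast hp.out.pos) h3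
    have h5 : (2 : ℤ) ≤ p := by exact_mod_cast hp.out.two_le
    nlinarith
  have hsum : (c : ZMod p) * c + d * d = 0 := by
    have h1 : ((c * c + d * d : ℤ) : ZMod p) = ((p : ℤ) : ZMod p) := by rw [hN']
    push_cast at h1
    rw [h1]
    exact ZMod.natCast_self p
  have ht : (-(c : ZMod p) / d) * (-(c : ZMod p) / d) = ((-1 : ℤ) : ZMod p) := by
    have h1 : (c : ZMod p) * c = -(d * d) := by linear_combination hsum
    push_cast
    field_simp
    linear_combination h1
  let f : G →+* ZMod p := Zsqrtd.lift ⟨-(c : ZMod p) / d, ht⟩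
  have hf : ∀ α : G, f α = (α.re : ZMod p) + α.im * (-(c : ZMod p) / d) := fun α => rfl
  refine ⟨f, fun α => ?_⟩
  constructor
  · intro h
    rw [hf] at h
    obtain ⟨a, b⟩ := α
    simp only at h
    have h1 : (a : ZMod p) * d = b * c := by
      field_simp at h
      linear_combination h
    have h2 : (a : ZMod p) * c + b * d = 0 := by
      have h3 : (d : ZMod p) * ((a : ZMod p) * c + b * d) = 0 := by
        linear_combination (c : ZMod p) * h1 + (b : ZMod p) * hsum
      rcases mul_eq_zero.1 h3 with h4 | h4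
      · exact absurd h4 hd
      · exact h4
    have h3 : (p : ℤ) ∣ b * c - a * d := by
      rw [← ZMod.intCast_zmod_eq_zero_iff_dvd]
      push_cast
      linear_combination -h1
    have h4 : (p : ℤ) ∣ a * c + b * d := by
      rw [← ZMod.intCast_zmod_eq_zero_iff_dvd]
      push_cast
      exact h2
    obtain ⟨u, hu⟩ := h3
    obtain ⟨v, hv⟩ := h4
    have h5 : (⟨a, b⟩ : G) * star (⟨c, d⟩ : G) = (⟨c, d⟩ : G) * ⟨v, u⟩ * star (⟨c, d⟩ : G) := by
      have h6 : (⟨c, d⟩ : G) * ⟨v, u⟩ * star (⟨c, d⟩ : G) =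
          ((⟨c, d⟩ : G) * star (⟨c, d⟩ : G)) * ⟨v, u⟩ := by ring
      rw [h6, ← Zsqrtd.norm_eq_mul_conj, hN]
      apply Zsqrtd.ext
      · simp
        linarith
      · simp
        linarith
    have h7 : star (⟨c, d⟩ : G) ≠ 0 := (prime_star hπ).ne_zero
    exact ⟨⟨v, u⟩, mul_right_cancel₀ h7 h5⟩
  · rintro ⟨γ, rfl⟩
    rw [map_mul, hf]
    have : (c : ZMod p) + d * (-(c : ZMod p) / d) = 0 := by
      field_simp
      ring
    simp only
    rw [this, zero_mul]

end split

section character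

variable {π : G} (hπ : Prime π) (ho : od π) (p : ℕ) [hp : Fact p.Prime] (f : G →+* ZMod p)
  (hf : ∀ α, f α = 0 ↔ π ∣ α)

lemma f_val (x : ZMod p) : f ((x.val : ℕ) : G) = x := by
  rw [map_natCast, ZMod.natCast_zmod_val]

open Classical in
/-- the quartic character attached to `π` -/
noncomputable def chi : MulChar (ZMod p) G where
  toFun x := if x = 0 then 0 else ip (ex π ((x.val : ℕ) : G))
  map_one' := by
    rw [if_neg one_ne_zero]
    have h1 : ex π (((1 : ZMod p).val : ℕ) : G) = 0 := by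
      apply ex_eq hπ ho
      have : ((1 : ZMod p).val : ℕ) = 1 := by
        have : Fact (1 < p) := ⟨hp.out.one_lt⟩
        exact ZMod.val_one p
      rw [this, Nat.cast_one, one_pow, ip_zero, sub_self]
      exact dvd_zero _
    rw [h1, ip_zero]
  map_mul' x y := by
    by_cases hx : x = 0
    · subst hx
      simp
    · by_cases hy : y = 0
      · subst hy
        simp
      · rw [if_neg hx, if_neg hy, if_neg (mul_ne_zero hx hy), ← ip_add]
        have hx' : ¬ π ∣ ((x.val : ℕ) : G) := by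
          rw [← hf, f_val p f x]
          exact hx
        have hy' : ¬ π ∣ ((y.val : ℕ) : G) := by
          rw [← hf, f_val p f y]
          exact hy
        rw [← ex_mul hπ ho hx' hy']
        congr 1
        apply ex_congr
        rw [← hf, map_sub, map_mul, f_val, f_val, f_val, sub_self]
  map_nonunit' x hx := by
    have : x = 0 := by
      by_contra h
      exact hx (isUnit_iff_ne_zero.2 h)
    rw [if_pos this]

lemma chi_apply {α : G} (hα : ¬ π ∣ α) : chi hπ ho p f hf (f α) = ip (ex π α) := by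
  have h1 : f α ≠ 0 := fun h => hα ((hf α).1 h)
  change (if f α = 0 then 0 else ip (ex π (((f α).val : ℕ) : G))) = _
  rw [if_neg h1]
  congr 1
  apply ex_congr
  rw [← hf, map_sub, f_val, sub_self]

lemma chi_pow_four : chi hπ ho p f hf ^ 4 = 1 := by
  apply MulChar.ext
  intro x
  have h1 : ¬ π ∣ (((x : ZMod p).val : ℕ) : G) := by
    rw [← hf, f_val p f]
    exact x.ne_zero
  have h2 := chi_apply hπ ho p f hf h1
  rw [f_val] at h2
  rw [MulChar.pow_apply_coe, h2, MulChar.one_apply_coe]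
  have h3 : ∀ k : ZMod 4, ip k ^ 4 = 1 := by
    intro k
    unfold ip
    rw [← pow_mul, mul_comm, pow_mul, I_pow_four, one_pow]
  exact h3 _

variable (hN : π.norm = (p : ℤ))

include hN in
omit hp in
lemma p_eq (ho : od π) : 4 * m4 π + 1 = p := by
  have := m4_spec ho
  rw [hN] at this
  omega

include hN in
lemma f_chi (x : ZMod p) : f (chi hπ ho p f hf x) = x ^ m4 π := by
  have hm : m4 π ≠ 0 := by
    have h1 := prime_norm hπ ho
    have h2 := m4_spec ho
    omega
  by_cases hx : x = 0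
  · subst hx
    rw [MulChar.map_zero, map_zero, zero_pow hm]
  · have h1 : ¬ π ∣ ((x.val : ℕ) : G) := by
      rw [← hf, f_val p f]
      exact hx
    have h2 := chi_apply hπ ho p f hf h1
    rw [f_val] at h2
    rw [h2]
    have h3 := ex_spec hπ ho h1
    rw [← hf, map_sub, map_pow, f_val, sub_eq_zero] at h3
    exact h3.symm

include hN in
lemma exists_chi_sq : ∃ x : ZMod p, chi hπ ho p f hf x ^ 2 = -1 := by
  have hp4 := p_eq p hN ho
  have hp2 : ringChar (ZMod p) ≠ 2 := by
    rw [ZMod.ringChar_zmod_n]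
    omega
  obtain ⟨x, hx⟩ := FiniteField.exists_nonsquare hp2
  have hx0 : x ≠ 0 := by
    rintro rfl
    exact hx (IsSquare.zero)
  refine ⟨x, ?_⟩
  have h1 : x ^ (p / 2) = -1 := by
    have h2 := ZMod.pow_div_two_eq_neg_one_or_one p hx0
    rcases h2 with h2 | h2
    · exact absurd ((ZMod.euler_criterion p hx0).2 h2) hx
    · exact h2
  have h2 : ¬ π ∣ ((x.val : ℕ) : G) := by
    rw [← hf, f_val p f]
    exact hx0
  have h3 := chi_apply hπ ho p f hf h2
  rw [f_val] at h3
  have h4 := f_chi hπ ho p f hf hN x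
  have h5 : π ∣ ip (2 * ex π ((x.val : ℕ) : G)) - ip 2 := by
    rw [← hf, map_sub, ip_two, map_neg, map_one, two_mul, ip_add, map_mul, ← h3, h4, ← pow_add]
    have : m4 π + m4 π = p / 2 := by omega
    rw [this, h1]
    ring
  have h6 := ip_inj hπ ho h5
  rw [h3, sq, ← ip_add, ← two_mul, h6, ip_two]

include hN in
lemma chi_sq_ne_one {R : Type*} [CommRing R] [IsDomain R] (h : G →+* R) (h2 : (2 : R) ≠ 0) :
    (chi hπ ho p f hf).ringHomComp h * (chi hπ ho p f hf).ringHomComp h ≠ 1 := by
  obtain ⟨x, hx⟩ := exists_chi_sq hπ ho p f hf hN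
  intro h1
  have hx0 : x ≠ 0 := by
    rintro rfl
    rw [MulChar.map_zero] at hx
    have := congrArg Zsqrtd.re hx
    simp at this
  have h3 : ((chi hπ ho p f hf).ringHomComp h * (chi hπ ho p f hf).ringHomComp h) x = 1 := by
    rw [h1, MulChar.one_apply (isUnit_iff_ne_zero.2 hx0)]
  rw [MulChar.mul_apply, MulChar.ringHomComp_apply, ← map_mul, ← sq, hx, map_neg, map_one] at h3
  apply h2
  linear_combination -h3

include hN in
lemma pi_dvd_jacobi : π ∣ jacobiSum (chi hπ ho p f hf) (chi hπ ho p f hf) := by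
  rw [← hf]
  unfold jacobiSum
  rw [map_sum]
  have hp4 := p_eq p hN ho
  have h1 : ∀ x : ZMod p, f (chi hπ ho p f hf x * chi hπ ho p f hf (1 - x)) =
      ∑ j ∈ Finset.range (m4 π + 1), ((-1) ^ j * ((m4 π).choose j : ZMod p)) * x ^ (m4 π + j) := by
    intro x
    rw [map_mul, f_chi hπ ho p f hf hN, f_chi hπ ho p f hf hN]
    have h2 : (1 - x) ^ m4 π = (-x + 1) ^ m4 π := by ring
    rw [h2, add_pow, Finset.mul_sum]
    refine Finset.sum_congr rfl fun j _ => ?_
    rw [one_pow, mul_one, neg_pow, pow_add]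
    ring
  rw [Finset.sum_congr rfl fun x _ => h1 x, Finset.sum_comm]
  refine Finset.sum_eq_zero fun j hj => ?_
  rw [← Finset.mul_sum, FiniteField.sum_pow_lt_card_sub_one, mul_zero]
  rw [ZMod.card]
  rw [Finset.mem_range] at hj
  have h1 := prime_norm hπ ho
  have h2 := m4_spec ho
  omega

lemma star_chi (x : ZMod p) : star (chi hπ ho p f hf x) = (chi hπ ho p f hf)⁻¹ x := by
  by_cases hx : x = 0
  · subst hx
    rw [MulChar.map_zero, star_zero, MulChar.map_zero]
  · have h1 : ¬ π ∣ ((x.val : ℕ) : G) := by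
      rw [← hf, f_val p f]
      exact hx
    have h2 := chi_apply hπ ho p f hf h1
    rw [f_val] at h2
    have h3 : (chi hπ ho p f hf)⁻¹ x * chi hπ ho p f hf x = 1 := by
      rw [← MulChar.mul_apply, inv_mul_cancel, MulChar.one_apply (isUnit_iff_ne_zero.2 hx)]
    have h4 : star (chi hπ ho p f hf x) * chi hπ ho p f hf x = 1 := by
      rw [h2, star_ip, ← ip_add, neg_add_cancel, ip_zero]
    have h5 : chi hπ ho p f hf x ≠ 0 := by
      intro h6
      rw [h6, mul_zero] at h4
      exact one_ne_zero h4.symm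
    exact mul_right_cancel₀ h5 (h4.trans h3.symm)

include hN in
lemma jacobi_norm : (jacobiSum (chi hπ ho p f hf) (chi hπ ho p f hf)).norm = (p : ℤ) := by
  set χ := chi hπ ho p f hf with hχ
  have hstar : star (jacobiSum χ χ) = jacobiSum χ⁻¹ χ⁻¹ := by
    unfold jacobiSum
    rw [star_sum]
    refine Finset.sum_congr rfl fun x _ => ?_
    rw [star_mul, star_chi, star_chi, mul_comm]
  have h1 := chi_sq_ne_one hπ ho p f hf hN GaussianInt.toComplex two_ne_zero
  rw [← hχ] at h1
  have h2 : χ.ringHomComp GaussianInt.toComplex ≠ 1 := by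
    intro h
    apply h1
    rw [h, one_mul]
  have h3 : ringChar ℂ ≠ ringChar (ZMod p) := by
    rw [ringChar.eq_zero, ZMod.ringChar_zmod_n]
    exact hp.out.ne_zero.symm
  have h4 := jacobiSum_mul_jacobiSum_inv h3 h2 h2 h1
  have h5 : (χ.ringHomComp GaussianInt.toComplex)⁻¹ = (χ⁻¹).ringHomComp GaussianInt.toComplex :=
    MulChar.ringHomComp_inv _ _
  rw [h5, jacobiSum_ringHomComp, jacobiSum_ringHomComp, ← hstar, ← map_mul, ZMod.card,
    ← Zsqrtd.norm_eq_mul_conj] at h4
  have h6 : GaussianInt.toComplex (((jacobiSum χ χ).norm : ℤ) : G) =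
      GaussianInt.toComplex ((p : ℤ) : G) := by
    rw [h4]
    simp
  have h7 := GaussianInt.toComplex_injective h6
  exact_mod_cast h7

include hN in
lemma jacobi_sq (him : π.im % 2 = 0) :
    jacobiSum (chi hπ ho p f hf) (chi hπ ho p f hf) ^ 2 = π ^ 2 := by
  obtain ⟨u, hu⟩ := pi_dvd_jacobi hπ ho p f hf hN
  have hn := jacobi_norm hπ ho p f hf hN
  have hp4 := p_eq p hN ho
  have hprim : IsPrimitiveRoot I 4 := by
    refine IsPrimitiveRoot.mk_of_lt I (by norm_num) I_pow_four ?_
    intro l hl1 hl2 h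
    interval_cases l
    · rw [pow_one] at h
      have := congrArg Zsqrtd.re h
      simp [I] at this
    · rw [I_sq] at h
      have := congrArg Zsqrtd.re h
      simp at this
    · have h3 : I ^ 3 = -I := by
        have : I ^ 3 = I ^ 2 * I := by ring
        rw [this, I_sq]
        ring
      rw [h3] at h
      have := congrArg Zsqrtd.re h
      simp [I] at this
  obtain ⟨z, -, hz⟩ := exists_jacobiSum_eq_neg_one_add (F := ZMod p) (n := 4) (by norm_num)
    (chi_pow_four hπ ho p f hf) (chi_pow_four hπ ho p f hf)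
    (by rw [ZMod.card]; exact ⟨m4 π, by omega⟩) hprim
  have him2 : (jacobiSum (chi hπ ho p f hf) (chi hπ ho p f hf)).im % 2 = 0 := by
    rw [hz]
    have : (I - 1) ^ 2 = -2 * I := by
      have h1 : (I - 1) ^ 2 = I ^ 2 - 2 * I + 1 := by ring
      rw [h1, I_sq]
      ring
    rw [this]
    simp [I]
  rw [hu] at hn him2 ⊢
  have hun : u.norm = 1 := by
    rw [Zsqrtd.norm_mul, hN] at hn
    have h1 : (p : ℤ) ≠ 0 := by exact_mod_cast hp.out.ne_zero
    have h2 : (p : ℤ) * u.norm = p * 1 := by rw [hn, mul_one]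
    exact mul_left_cancel₀ h1 h2
  have hre : π.re % 2 = 1 := by
    unfold od at ho
    rw [norm_eq] at ho
    rcases Int.even_or_odd π.re with ⟨r, hr⟩ | ⟨r, hr⟩
    · obtain ⟨s, hs⟩ : ∃ s, π.im = 2 * s := ⟨π.im / 2, by omega⟩
      rw [hr, hs] at ho
      ring_nf at ho
      omega
    · omega
  rw [norm_eq] at hun
  have hu4 : (u.re = 1 ∧ u.im = 0) ∨ (u.re = -1 ∧ u.im = 0) ∨ (u.re = 0 ∧ u.im = 1) ∨
      (u.re = 0 ∧ u.im = -1) := by
    have h1 : u.re ≤ 1 := by nlinarith [mul_self_nonneg u.im]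
    have h2 : -1 ≤ u.re := by nlinarith [mul_self_nonneg u.im]
    have h3 : u.im ≤ 1 := by nlinarith [mul_self_nonneg u.re]
    have h4 : -1 ≤ u.im := by nlinarith [mul_self_nonneg u.re]
    obtain ⟨x, y⟩ := u
    simp only at *
    interval_cases x <;> interval_cases y <;> simp_all
  rcases hu4 with ⟨h1, h2⟩ | ⟨h1, h2⟩ | ⟨h1, h2⟩ | ⟨h1, h2⟩
  · have : u = 1 := by apply Zsqrtd.ext <;> simp [h1, h2]
    rw [this, mul_one]
  · have : u = -1 := by apply Zsqrtd.ext <;> simp [h1, h2]
    rw [this]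
    ring
  · exfalso
    rw [Zsqrtd.im_mul, h1, h2] at him2
    omega
  · exfalso
    rw [Zsqrtd.im_mul, h1, h2] at him2
    omega

include hN in
/-- the fourth power of the Gauss sum -/
lemma gauss_pow_four (him : π.im % 2 = 0) {K : Type} [Field K] (h : G →+* K) (h2 : (2 : K) ≠ 0)
    {ψ : AddChar (ZMod p) K} (hψ : ψ.IsPrimitive) :
    gaussSum ((chi hπ ho p f hf).ringHomComp h) ψ ^ 4 = h (π ^ 3 * star π) := by
  set χ := (chi hπ ho p f hf).ringHomComp h with hχ
  have h1 : χ * χ ≠ 1 := chi_sq_ne_one hπ ho p f hf hN h h2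
  have h4 : χ ^ 4 = 1 := by
    rw [hχ, MulChar.ringHomComp_pow, chi_pow_four, MulChar.ringHomComp_one]
  have hq : (χ * χ).IsQuadratic := by
    intro a
    by_cases ha : IsUnit a
    · right
      have h5 : ((χ * χ) a) ^ 2 = 1 := by
        rw [← MulChar.pow_apply' _ two_ne_zero]
        have : (χ * χ) ^ 2 = 1 := by
          rw [← h4]
          rw [← sq, ← pow_mul]
        rw [this, MulChar.one_apply ha]
      have h6 : ((χ * χ) a - 1) * ((χ * χ) a + 1) = 0 := by linear_combination h5
      rcases mul_eq_zero.1 h6 with h7 | h7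
      · left
        linear_combination h7
      · right
        linear_combination h7
    · left
      exact MulChar.map_nonunit _ ha
  have h5 := gaussSum_sq h1 hq hψ
  have h6 := jacobiSum_mul_nontrivial h1 ψ
  have h7 : (χ * χ) (-1) = 1 := by
    rw [MulChar.mul_apply, ← map_mul, neg_one_mul, neg_neg, map_one]
  rw [h7, one_mul, ZMod.card] at h5
  have h8 : gaussSum χ ψ ^ 4 = (gaussSum χ ψ * gaussSum χ ψ) ^ 2 := by ring
  rw [h8, ← h6, mul_pow, h5, hχ, jacobiSum_ringHomComp, ← map_pow, jacobi_sq hπ ho p f hf hN him]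
  have h9 : (p : K) = h (π * star π) := by
    rw [← Zsqrtd.norm_eq_mul_conj, hN]
    simp
  rw [h9, ← map_mul]
  congr 1
  ring

end character

end Pool.Agent.Q33.QR
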