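import Pool.Agent.Q33.QR.Supp

/-!
# The transformation formula
-/

set_option autoImplicit false

namespace Pool.Agent.Q33.QR

open Zsqrtd

lemma F_one_mod {g : ℤ} (hg : g % 4 = 1) {α : G} (hα : sp α) : F (g : G) α = 0 := by
  obtain ⟨x, y, rfl⟩ := exists_mk hα
  obtain ⟨k, rfl⟩ : ∃ k, g = 2 * (2 * k) + 1 := ⟨g / 4, by omega⟩
  rw [← mk_int, F_mk]
  push_cast
  linear_combination ((k : ZMod 4) * y) * four_zero

lemma F_one_mod' {g : ℤ} (hg : g % 4 = 1) {α : G} (hα : sp α) : F α (g : G) = 0 := by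
  rw [F_symm hα (sp_int (by omega)), F_one_mod hg hα]

lemma M_one_mod {g : ℤ} (hg : g % 4 = 1) : 2 * M (g : G) = 0 := by
  obtain ⟨k, rfl⟩ : ∃ k, g = 2 * (2 * k) + 1 := ⟨g / 4, by omega⟩
  rw [← mk_int, M_mk]
  push_cast
  linear_combination (2 * (k : ZMod 4) ^ 2 + k) * four_zero

lemma coprime_two {β : G} (hβ : od β) : IsCoprime (2 : G) β := by
  have e : (2 : G) = I * (I * (I * (A * A))) := by
    apply Zsqrtd.ext
    · simp [A, I]
    · simp [A, I]
  have h1 := coprime_I β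
  have h2 := coprime_A hβ
  rw [e]
  exact h1.mul_left (h1.mul_left (h1.mul_left (h2.mul_left h2)))

lemma coprime_tau {τ : ℤ} (hτ : τ = 1 ∨ τ = 2) {β : G} (hβ : od β) : IsCoprime (τ : G) β := by
  rcases hτ with rfl | rfl
  · rw [Int.cast_one]
    exact isCoprime_one_left
  · have := coprime_two hβ
    exact_mod_cast this

lemma J_pow_left {α β : G} (hβ : od β) (h : IsCoprime α β) (s : ℕ) :
    J (α ^ s) β = s * J α β := by
  induction s with
  | zero =>
    rw [pow_zero, J_one hβ]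
    simp
  | succ s ih =>
    rw [pow_succ, J_mul_left hβ (h.pow_left) h, ih]
    push_cast
    ring

/-- the transformation formula, coprime case -/
lemma gl_coprime {π : G} (hπ : Prime π) (hs : sp π)
    {g n v v' Y κ τ : ℤ} (hτ : τ = 1 ∨ τ = 2) (hn : n % 2 = 1)
    (hid : (τ : G) * (π * (n : G)) = ⟨g * n, v⟩ * ⟨g * n, v'⟩ + (Y : G) ^ 2)
    (hv : v' = v + κ * Y) (hnY : IsCoprime n Y) (hπY : ¬ π ∣ (Y : G))
    {s : ℕ} {Y0 : ℤ} (hYs : Y = 2 ^ s * Y0) (hY0 : Y0 % 4 = 1)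
    {μ ω : G} (hμ : ∀ β, od β → IsCoprime μ β) (hω : (⟨g * n, v⟩ : G) = μ * ω) (hsω : sp ω) :
    J ⟨g * n, v⟩ π - J (Y : G) π = J μ π + J μ (n : G) - M (n : G) + F ω (π * (n : G)) +
      2 * s * J 2 ω - J (τ : G) ω - 2 * J μ (Y0 : G) - s * J 2 π := by
  set ω1 : G := ⟨g * n, v⟩ with hω1
  set ω1' : G := ⟨g * n, v'⟩ with hω1'
  have hoπ := sp_od hs
  have hon : od (n : G) := od_int hn
  have hoY0 : od (Y0 : G) := od_int (by omega)
  have hoω := sp_od hsω
  have hid2 : ω1 * ω1' = (τ : G) * (π * (n : G)) - (Y : G) ^ 2 := by rw [hid]; ring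
  have hYn : IsCoprime (Y : G) (n : G) := coprime_int' hnY.symm
  -- coprimality
  have c1 : IsCoprime (ω1 * ω1') (n : G) := by
    have h1 : IsCoprime (-(Y : G) ^ 2) (n : G) := (IsCoprime.neg_left_iff _ _).2 hYn.pow_left
    refine cop_congr (a := -(Y : G) ^ 2) ⟨-((τ : G) * π), ?_⟩ h1
    rw [hid2]
    ring
  have c2 : IsCoprime ω1 (n : G) := IsCoprime.of_mul_left_left c1
  have cYπ : IsCoprime (Y : G) π := coprime_of_not_dvd hπ hπY
  have c3 : IsCoprime (ω1 * ω1') π := by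
    have h1 : IsCoprime (-(Y : G) ^ 2) π := (IsCoprime.neg_left_iff _ _).2 cYπ.pow_left
    refine cop_congr (a := -(Y : G) ^ 2) ⟨-((τ : G) * (n : G)), ?_⟩ h1
    rw [hid2]
    ring
  have c4 : IsCoprime ω1 π := IsCoprime.of_mul_left_left c3
  have c5 : IsCoprime ω (n : G) := by
    rw [hω] at c2
    exact IsCoprime.of_mul_left_right c2
  have c6 : IsCoprime ω π := by
    rw [hω] at c4
    exact IsCoprime.of_mul_left_right c4
  have hYdvd : (Y0 : G) ∣ (Y : G) := by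
    rw [hYs]
    push_cast
    exact Dvd.intro_left _ rfl
  have hY0dvd : Y0 ∣ Y := by
    rw [hYs]
    exact Dvd.intro_left _ rfl
  have cnY0 : IsCoprime n Y0 := IsCoprime.of_isCoprime_of_dvd_right hnY hY0dvd
  have cπY0 : IsCoprime π (Y0 : G) := IsCoprime.of_isCoprime_of_dvd_right cYπ.symm hYdvd
  have cn : IsCoprime (n : G) (Y0 : G) := coprime_int' cnY0
  have cτ := coprime_tau hτ hoY0
  have c7 : IsCoprime ((τ : G) * (π * (n : G))) (Y0 : G) := cτ.mul_left (cπY0.mul_left cn)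
  have hcong : (Y0 : G) ∣ (τ : G) * (π * (n : G)) - ω1 * ω1' := by
    rw [hid2]
    have : (τ : G) * (π * (n : G)) - ((τ : G) * (π * (n : G)) - (Y : G) ^ 2) = (Y : G) * Y := by ring
    rw [this]
    exact hYdvd.mul_right _
  have c8 : IsCoprime (ω1 * ω1') (Y0 : G) := cop_congr hcong c7
  have c9 : IsCoprime ω1 (Y0 : G) := IsCoprime.of_mul_left_left c8
  have c9' : IsCoprime ω1' (Y0 : G) := IsCoprime.of_mul_left_right c8
  have c10 : IsCoprime ω (Y0 : G) := by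
    rw [hω] at c9
    exact IsCoprime.of_mul_left_right c9
  -- symbols
  have e1 : J ω1 π = J μ π + J ω π := by
    rw [hω]
    exact J_mul_left hoπ (hμ _ hoπ) c6
  have e2 : J ω (π * (n : G)) = J ω π + J ω (n : G) :=
    J_mul_right _ hπ.ne_zero (od_ne_zero hon)
  have e3 : J ω1 (n : G) = J μ (n : G) + J ω (n : G) := by
    rw [hω]
    exact J_mul_left hon (hμ _ hon) c5
  have e4 : J ω1 (n : G) = M (n : G) := by
    have hd : (n : G) ∣ ω1 - ((v : ℤ) : G) * I := by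
      refine ⟨(g : G), ?_⟩
      apply Zsqrtd.ext
      · simp [ω1, I, mul_comm]
      · simp [ω1, I]
    have h1 : IsCoprime (((v : ℤ) : G) * I) (n : G) := cop_congr hd c2
    have h2 := IsCoprime.of_mul_left_left h1
    rw [J_congr hon hd, J_mul_left hon h2 (coprime_I _), J_rat hn (coprime_int h2), J_I hon,
      zero_add]
  have e5 : J ω (π * (n : G)) - J (π * (n : G)) ω = F ω (π * (n : G)) :=
    law hsω (sp_mul hs (sp_int hn)) (c6.mul_right c5)
  have hsY0 : sp (Y0 : G) := sp_int (by omega)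
  have c2ω := coprime_two hoω
  have e6 : J (Y : G) ω = s * J 2 ω + J (Y0 : G) ω := by
    rw [hYs]
    push_cast
    rw [J_mul_left hoω c2ω.pow_left c10.symm, J_pow_left hoω c2ω]
  have c2π := coprime_two hoπ
  have e6' : J (Y : G) π = s * J 2 π + J (Y0 : G) π := by
    rw [hYs]
    push_cast
    rw [J_mul_left hoπ c2π.pow_left cπY0.symm, J_pow_left hoπ c2π]
  have cYω : IsCoprime (Y : G) ω := by
    rw [hYs]
    push_cast
    exact c2ω.pow_left.mul_left c10.symm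
  have e7 : J (τ : G) ω + J (π * (n : G)) ω = 2 * J (Y : G) ω := by
    have h1 : IsCoprime (π * (n : G)) ω := c6.symm.mul_left c5.symm
    rw [← J_mul_left hoω (coprime_tau hτ hoω) h1]
    have hd : ω ∣ (τ : G) * (π * (n : G)) - (Y : G) * (Y : G) := by
      rw [hid, hω]
      refine ⟨μ * ω1', ?_⟩
      ring
    rw [J_congr hoω hd, J_mul_left hoω cYω cYω]
    ring
  have e8 : 2 * J (Y0 : G) ω = 2 * J ω (Y0 : G) := by
    have h1 := law hsY0 hsω c10.symm
    rw [F_one_mod hY0 hsω] at h1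
    linear_combination 2 * h1
  have e9 : J ω1 (Y0 : G) = J μ (Y0 : G) + J ω (Y0 : G) := by
    rw [hω]
    exact J_mul_left hoY0 (hμ _ hoY0) c10
  have e10 : J ω1' (Y0 : G) = J ω1 (Y0 : G) := by
    apply J_congr hoY0
    have : ω1' - ω1 = (Y : G) * ((κ : G) * I) := by
      apply Zsqrtd.ext
      · simp [ω1, ω1', I]
      · simp [ω1, ω1', I, hv]
        ring
    rw [this]
    exact hYdvd.mul_right _
  have e11 : J ω1 (Y0 : G) + J ω1' (Y0 : G) = J π (Y0 : G) := by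
    rw [← J_mul_left hoY0 c9 c9', ← J_congr hoY0 hcong, J_mul_left hoY0 cτ (cπY0.mul_left cn),
      J_mul_left hoY0 cπY0 cn, J_rat (by omega) (coprime_int cτ), J_rat (by omega) cnY0]
    ring
  have e12 : J (Y0 : G) π = J π (Y0 : G) := by
    have h1 := law hsY0 hs cπY0.symm
    rw [F_one_mod hY0 hs] at h1
    exact sub_eq_zero.1 h1
  rw [e10] at e11
  linear_combination e1 - e6' - e12 + e11 - 2 * e9 + e8 + 2 * e6 + e7 + e3 - e4 + e5 - e2

lemma bezout_three (a b c : ℤ) (h : a ≠ 0) : ∃ D a' b' c' r s t : ℤ, a = D * a' ∧ b = D * b' ∧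
    c = D * c' ∧ r * a' + s * b' + t * c' = 1 := by
  have h1 := Int.gcd_eq_gcd_ab a (Int.gcd b c)
  have h2 := Int.gcd_eq_gcd_ab b c
  obtain ⟨a', ha⟩ : ((Int.gcd a (Int.gcd b c) : ℕ) : ℤ) ∣ a := Int.gcd_dvd_left ..
  obtain ⟨e, he⟩ : ((Int.gcd a (Int.gcd b c) : ℕ) : ℤ) ∣ (Int.gcd b c : ℕ) := Int.gcd_dvd_right ..
  obtain ⟨b1, hb⟩ : ((Int.gcd b c : ℕ) : ℤ) ∣ b := Int.gcd_dvd_left ..
  obtain ⟨c1, hc⟩ : ((Int.gcd b c : ℕ) : ℤ) ∣ c := Int.gcd_dvd_right ..
  set D : ℤ := ((Int.gcd a (Int.gcd b c) : ℕ) : ℤ) with hD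
  have hD0 : D ≠ 0 := by
    intro h0
    rw [h0, zero_mul] at ha
    exact h ha
  refine ⟨D, a', e * b1, e * c1, Int.gcdA a (Int.gcd b c),
    Int.gcdB a (Int.gcd b c) * Int.gcdA b c, Int.gcdB a (Int.gcd b c) * Int.gcdB b c,
    ha, ?_, ?_, ?_⟩
  · rw [← mul_assoc, ← he]
    exact hb
  · rw [← mul_assoc, ← he]
    exact hc
  · apply mul_left_cancel₀ hD0
    have e1 : D * (e * b1) = b := by rw [← mul_assoc, ← he]; exact hb.symm
    have e2 : D * (e * c1) = c := by rw [← mul_assoc, ← he]; exact hc.symm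
    linear_combination (Int.gcdB a (Int.gcd b c) * Int.gcdA b c) * e1 +
      (Int.gcdB a (Int.gcd b c) * Int.gcdB b c) * e2 - (Int.gcdA a (Int.gcd b c)) * ha -
      h1 - (Int.gcdB a (Int.gcd b c)) * h2

/-- the transformation formula -/
theorem gl {π : G} (hπ : Prime π) (hs : sp π) (p : ℕ) [hp : Fact p.Prime]
    (hN : π.norm = (p : ℤ))
    {n v v' Y κ τ : ℤ} (hτ : τ = 1 ∨ τ = 2) (hn : n % 2 = 1)
    (hid : (τ : G) * (π * (n : G)) = ⟨n, v⟩ * ⟨n, v'⟩ + (Y : G) ^ 2)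
    (hv : v' = v + κ * Y) (hpY : ¬ (p : ℤ) ∣ Y)
    {s : ℕ} {Y0 : ℤ} (hYs : Y = 2 ^ s * Y0) (hY0 : Y0 % 4 = 1)
    {μ ω : G} (hμ : ∀ β, od β → IsCoprime μ β) (hω : (⟨n, v⟩ : G) = μ * ω) (hsω : sp ω) :
    J ⟨n, v⟩ π - J (Y : G) π = J μ π + J μ (n : G) - M (n : G) + F ω (π * (n : G)) +
      2 * s * J 2 ω - J (τ : G) ω - 2 * J μ (Y0 : G) - s * J 2 π := by
  have hoπ := sp_od hs
  obtain ⟨g, n1, v1, Y1, r, r', r'', hgn, hgv, hgY, hbez, hg4⟩ : ∃ g n1 v1 Y1 r r' r'' : ℤ,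
      n = g * n1 ∧ v = g * v1 ∧ Y = g * Y1 ∧ r * n1 + r' * v1 + r'' * Y1 = 1 ∧ g % 4 = 1 := by
    obtain ⟨D, n1, v1, Y1, r, r', r'', h1, h2, h3, h4⟩ := bezout_three n v Y (by omega)
    have h5 : D % 2 = 1 := by
      have : Odd n := by
        rw [Int.odd_iff]
        exact hn
      rw [h1] at this
      exact Int.odd_iff.1 (Int.odd_mul.1 this).1
    have h6 : D % 4 = 1 ∨ D % 4 = 3 := by omega
    rcases h6 with h6 | h6
    · exact ⟨D, n1, v1, Y1, r, r', r'', h1, h2, h3, h4, h6⟩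
    · refine ⟨-D, -n1, -v1, -Y1, -r, -r', -r'', ?_, ?_, ?_, ?_, by omega⟩
      · rw [h1]; ring
      · rw [h2]; ring
      · rw [h3]; ring
      · rw [← h4]; ring
  have hg0 : g ≠ 0 := by
    rintro rfl
    omega
  have hgG0 : (g : G) ≠ 0 := int_ne_zero (by omega)
  have hog : od (g : G) := od_int (by omega)
  have cgπ : IsCoprime (g : G) π := by
    apply coprime_of_not_dvd hπ
    intro h
    apply hpY
    rw [hgY]
    exact (dvd_int_of p hN h).mul_right _
  obtain ⟨v1', hv1'⟩ : ∃ v1', v1' = v1 + κ * Y1 := ⟨_, rfl⟩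
  have hgv' : v' = g * v1' := by
    rw [hv, hgv, hgY, hv1']
    ring
  have hω1 : (⟨n, v⟩ : G) = (g : G) * ⟨n1, v1⟩ := by
    apply Zsqrtd.ext
    · simp [hgn]
    · simp [hgv]
  have hω1' : (⟨n, v'⟩ : G) = (g : G) * ⟨n1, v1'⟩ := by
    apply Zsqrtd.ext
    · simp [hgn]
    · simp [hgv']
  have hid1 : (τ : G) * (π * (n1 : G)) = (g : G) * (⟨n1, v1⟩ * ⟨n1, v1'⟩ + (Y1 : G) ^ 2) := by
    apply mul_left_cancel₀ hgG0
    rw [hω1, hω1', hgn, hgY] at hid
    push_cast at hid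
    linear_combination hid
  have hgn1 : g ∣ n1 := by
    have h1 : (g : G) ∣ (τ : G) * (π * (n1 : G)) := by
      rw [hid1]
      exact Dvd.intro _ rfl
    have h2 := (coprime_tau hτ hog).symm.dvd_of_dvd_mul_left h1
    have h3 := cgπ.dvd_of_dvd_mul_left h2
    exact (Zsqrtd.intCast_dvd_intCast _ _).1 h3
  obtain ⟨n2, hn2⟩ := hgn1
  have hid2 : (τ : G) * (π * (n2 : G)) = ⟨g * n2, v1⟩ * ⟨g * n2, v1'⟩ + (Y1 : G) ^ 2 := by
    apply mul_left_cancel₀ hgG0
    rw [hn2] at hid1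
    rw [← hid1]
    push_cast
    ring
  have hn22 : n2 % 2 = 1 := by
    have : Odd n := by
      rw [Int.odd_iff]
      exact hn
    rw [hgn, hn2] at this
    exact Int.odd_iff.1 (Int.odd_mul.1 (Int.odd_mul.1 this).2).2
  have cnY : IsCoprime n2 Y1 := by
    apply isCoprime_of_prime_dvd
    · rintro ⟨h1, -⟩
      rw [h1] at hn22
      omega
    · intro l hl hln hlY
      have h1 := congrArg Zsqrtd.re hid2
      have h2 : v1 * v1' = g * n2 * (g * n2) + Y1 ^ 2 - τ * π.re * n2 := by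
        rw [pow_two] at h1
        simp [Zsqrtd.re_mul] at h1
        linear_combination h1
      have h3 : l ∣ v1 * v1 := by
        have h4 : v1 * v1 = g * n2 * (g * n2) + Y1 ^ 2 - τ * π.re * n2 - v1 * κ * Y1 := by
          rw [← h2, hv1']
          ring
        rw [h4]
        refine dvd_sub (dvd_sub (dvd_add ?_ ?_) ?_) ?_
        · exact (hln.mul_left _).mul_left _
        · rw [pow_two]
          exact hlY.mul_left _
        · exact hln.mul_left _
        · exact hlY.mul_left _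
      have h5 : l ∣ v1 := by
        rcases hl.dvd_or_dvd h3 with h | h <;> exact h
      have h6 : l ∣ 1 := by
        rw [← hbez, hn2]
        exact dvd_add (dvd_add ((hln.mul_left _).mul_left _) (h5.mul_left _)) (hlY.mul_left _)
      exact hl.not_unit (isUnit_of_dvd_one h6)
  have hπY1 : ¬ π ∣ (Y1 : G) := by
    intro h
    apply hpY
    rw [hgY]
    exact (dvd_int_of p hN h).mul_left _
  obtain ⟨Y0', hY0'⟩ : g ∣ Y0 := by
    have h1 : g ∣ 2 ^ s * Y0 := by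
      rw [← hYs, hgY]
      exact Dvd.intro _ rfl
    have h2 : IsCoprime g (2 ^ s) := by
      apply IsCoprime.pow_right
      rw [Int.isCoprime_iff_gcd_eq_one]
      have : g.natAbs.Coprime 2 := by
        rw [Nat.coprime_two_right, Nat.odd_iff]
        omega
      exact this
    exact h2.dvd_of_dvd_mul_left h1
  have hY1s : Y1 = 2 ^ s * Y0' := by
    apply mul_left_cancel₀ hg0
    rw [← hgY, hYs, hY0']
    ring
  have hY0'4 : Y0' % 4 = 1 := by
    have h1 : Y0 % 4 = (g % 4) * (Y0' % 4) % 4 := by rw [hY0', Int.mul_emod]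
    rw [hY0, hg4] at h1
    omega
  obtain ⟨ω2, hω2⟩ : (g : G) ∣ ω := by
    have h1 : (g : G) ∣ μ * ω := by
      rw [← hω, hω1]
      exact Dvd.intro _ rfl
    exact (hμ _ hog).symm.dvd_of_dvd_mul_left h1
  have hsω2 : sp ω2 := by
    rw [hω2] at hsω
    exact sp_div (sp_int (by omega)) hsω
  have hω1μ : (⟨g * n2, v1⟩ : G) = μ * ω2 := by
    apply mul_left_cancel₀ hgG0
    rw [← hn2, ← hω1, hω, hω2]
    ring
  have key := gl_coprime hπ hs hτ hn22 hid2 hv1' cnY hπY1 hY1s hY0'4 hμ hω1μ hsω2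
  have hon2 : (n2 : G) ≠ 0 := int_ne_zero hn22
  have c1 : IsCoprime (⟨g * n2, v1⟩ : G) π := by
    have cYπ : IsCoprime (Y1 : G) π := coprime_of_not_dvd hπ hπY1
    have h1 : IsCoprime (-(Y1 : G) ^ 2) π := (IsCoprime.neg_left_iff _ _).2 cYπ.pow_left
    have h2 : IsCoprime ((⟨g * n2, v1⟩ : G) * ⟨g * n2, v1'⟩) π := by
      refine cop_congr (a := -(Y1 : G) ^ 2) ⟨-((τ : G) * (n2 : G)), ?_⟩ h1
      linear_combination hid2
    exact IsCoprime.of_mul_left_left h2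
  have f1 : J ⟨n, v⟩ π = J (g : G) π + J ⟨g * n2, v1⟩ π := by
    rw [hω1, hn2]
    exact J_mul_left hoπ cgπ c1
  have f2 : J (Y : G) π = J (g : G) π + J (Y1 : G) π := by
    rw [hgY, Int.cast_mul]
    exact J_mul_left hoπ cgπ (coprime_of_not_dvd hπ hπY1)
  have f3 : J μ (n : G) = 2 * J μ (g : G) + J μ (n2 : G) := by
    rw [hgn, hn2, Int.cast_mul, Int.cast_mul, J_mul_right _ hgG0 (mul_ne_zero hgG0 hon2),
      J_mul_right _ hgG0 hon2]
    ring
  have f4 : M (n : G) = M (n2 : G) := by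
    have h1 : od (n2 : G) := od_int hn22
    rw [hgn, hn2, Int.cast_mul, Int.cast_mul, M_mul hog (od_mul.2 ⟨hog, h1⟩), M_mul hog h1]
    linear_combination M_one_mod hg4
  have hsg : sp (g : G) := sp_int (by omega)
  have hsn2 : sp (n2 : G) := sp_int (by omega)
  have f5 : F ω (π * (n : G)) = F ω2 (π * (n2 : G)) := by
    have e : (n : G) = (g : G) * ((g : G) * (n2 : G)) := by
      rw [hgn, hn2]
      push_cast
      ring
    rw [e, F_mul_right hsω hs (sp_mul hsg (sp_mul hsg hsn2)),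
      F_mul_right hsω hsg (sp_mul hsg hsn2), F_mul_right hsω hsg hsn2, F_one_mod' hg4 hsω, hω2,
      F_mul_left hs hsg hsω2, F_mul_left hsn2 hsg hsω2, F_one_mod hg4 hs, F_one_mod hg4 hsn2,
      F_mul_right hsω2 hs hsn2]
    ring
  have hω20 := od_ne_zero (sp_od hsω2)
  have f6 : J 2 ω = J 2 ω2 := by
    rw [hω2, J_mul_right _ hgG0 hω20, J_rat_two (by omega), zero_add]
  have f7 : J (τ : G) ω = J (τ : G) ω2 := by
    rw [hω2, J_mul_right _ hgG0 hω20, J_rat (by omega) (coprime_int (coprime_tau hτ hog)), zero_add]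
  have f8 : J μ (Y0 : G) = J μ (g : G) + J μ (Y0' : G) := by
    rw [hY0', Int.cast_mul]
    exact J_mul_right _ hgG0 (int_ne_zero (by omega))
  linear_combination key + f1 - f2 - f3 + f4 - f5 - 2 * s * f6 + f7 + 2 * f8

end Pool.Agent.Q33.QR
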