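import Pool.Agent.Q33.QR.Rat

/-!
# The composite quartic symbol `J α β`, written additively in `ZMod 4`
-/

set_option autoImplicit false

namespace Pool.Agent.Q33.QR

open Zsqrtd UniqueFactorizationMonoid

/-- `i ^ J α β` is the quartic symbol of `α` over the composite odd modulus `β` -/
noncomputable def J (α β : G) : ZMod 4 := ((factors β).map (fun π => ex π α)).sum

lemma map_rel (α : G) {s t : Multiset G} (h : Multiset.Rel Associated s t) :
    s.map (fun π => ex π α) = t.map (fun π => ex π α) := by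
  induction h with
  | zero => rfl
  | cons h1 h2 ih => rw [Multiset.map_cons, Multiset.map_cons, ih, ex_assoc h1]

lemma J_assoc (α : G) {β β' : G} (h : Associated β β') : J α β = J α β' := by
  unfold J
  rw [map_rel α (factors_rel_of_associated h)]

lemma J_mul_right (α : G) {β β' : G} (h : β ≠ 0) (h' : β' ≠ 0) :
    J α (β * β') = J α β + J α β' := by
  unfold J
  rw [map_rel α (factors_mul h h'), Multiset.map_add, Multiset.sum_add]

lemma J_unit (α : G) {β : G} (h : IsUnit β) : J α β = 0 := by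
  rw [J_assoc α (associated_one_iff_isUnit.2 h)]
  unfold J
  rw [factors_one]
  simp

lemma J_prime (α : G) {π : G} (h : Prime π) : J α π = ex π α := by
  obtain ⟨p, h1, h2⟩ := factors_eq_singleton_of_irreducible h.irreducible
  unfold J
  rw [h2, Multiset.map_singleton, Multiset.sum_singleton]
  exact (ex_assoc h1).symm

lemma odd_ind {P : G → Prop} (h1 : ∀ u, IsUnit u → P u)
    (h2 : ∀ π α, Prime π → od π → od α → P α → P (π * α)) (β : G) (hβ : od β) : P β := by
  revert hβ
  refine induction_on_prime (P := fun β => od β → P β) β ?_ ?_ ?_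
  · intro h
    exact absurd rfl (od_ne_zero h)
  · intro x hx _
    exact h1 x hx
  · intro a p ha hp ih h
    rw [od_mul] at h
    exact h2 p a hp h.1 h.2 (ih h.2)

lemma not_dvd_of_coprime {π α : G} (hπ : Prime π) (h : IsCoprime α π) : ¬ π ∣ α := fun h1 =>
  hπ.not_isUnit (h.isUnit_of_dvd' h1 dvd_rfl)

lemma coprime_of_not_dvd {π α : G} (hπ : Prime π) (h : ¬ π ∣ α) : IsCoprime α π :=
  ((hπ.irreducible.coprime_iff_not_dvd).2 h).symm

lemma J_mul_left {α α' β : G} (hβ : od β) (h : IsCoprime α β) (h' : IsCoprime α' β) :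
    J (α * α') β = J α β + J α' β := by
  revert h h'
  refine odd_ind (P := fun β => IsCoprime α β → IsCoprime α' β →
    J (α * α') β = J α β + J α' β) ?_ ?_ β hβ
  · intro u hu _ _
    rw [J_unit _ hu, J_unit _ hu, J_unit _ hu, add_zero]
  · intro π γ hπ ho hoγ ih h h'
    rw [IsCoprime.mul_right_iff] at h h'
    have h0 := od_ne_zero hoγ
    rw [J_mul_right _ hπ.ne_zero h0, J_mul_right _ hπ.ne_zero h0, J_mul_right _ hπ.ne_zero h0,
      ih h.2 h'.2, J_prime _ hπ, J_prime _ hπ, J_prime _ hπ,
      ex_mul hπ ho (not_dvd_of_coprime hπ h.1) (not_dvd_of_coprime hπ h'.1)]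
    ring

lemma J_one {β : G} (hβ : od β) : J 1 β = 0 := by
  have h : IsCoprime (1 : G) β := isCoprime_one_left
  have := J_mul_left hβ h h
  rw [mul_one] at this
  exact (left_eq_add.1 this)

lemma J_congr {α α' β : G} (hβ : od β) (h : β ∣ α - α') : J α β = J α' β := by
  revert h
  refine odd_ind (P := fun β => β ∣ α - α' → J α β = J α' β) ?_ ?_ β hβ
  · intro u hu _
    rw [J_unit _ hu, J_unit _ hu]
  · intro π γ hπ ho hoγ ih h
    have h0 := od_ne_zero hoγ
    rw [J_mul_right _ hπ.ne_zero h0, J_mul_right _ hπ.ne_zero h0,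
      ih ((Dvd.intro_left _ rfl).trans h), J_prime _ hπ, J_prime _ hπ,
      ex_congr ((Dvd.intro _ rfl).trans h)]

lemma coprime_star {α β : G} (h : IsCoprime α β) : IsCoprime (star α) (star β) := by
  obtain ⟨u, v, huv⟩ := h
  refine ⟨star u, star v, ?_⟩
  have := congrArg star huv
  rw [star_add, star_mul, star_mul, star_one] at this
  rw [mul_comm (star u), mul_comm (star v)]
  exact this

lemma coprime_int {a b : ℤ} (h : IsCoprime (a : G) (b : G)) : IsCoprime a b := by
  obtain ⟨u, v, huv⟩ := h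
  refine ⟨u.re, v.re, ?_⟩
  have := congrArg Zsqrtd.re huv
  simpa using this

lemma coprime_int' {a b : ℤ} (h : IsCoprime a b) : IsCoprime (a : G) (b : G) := by
  obtain ⟨u, v, huv⟩ := h
  refine ⟨(u : G), (v : G), ?_⟩
  have := congrArg (Int.cast : ℤ → G) huv
  push_cast at this
  exact this

lemma J_star {α β : G} (hβ : od β) (h : IsCoprime α β) : J (star α) (star β) = - J α β := by
  revert h
  refine odd_ind (P := fun β => IsCoprime α β → J (star α) (star β) = - J α β) ?_ ?_ β hβ
  · intro u hu _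
    have h1 : IsUnit (star u) := by
      rw [isUnit_iff, norm_star]
      exact isUnit_iff.1 hu
    rw [J_unit _ hu, J_unit _ h1, neg_zero]
  · intro π γ hπ ho hoγ ih h
    rw [IsCoprime.mul_right_iff] at h
    have h0 := od_ne_zero hoγ
    have h1 : star γ ≠ 0 := od_ne_zero (od_star.2 hoγ)
    have hπ' := prime_star hπ
    have e1 : star (π * γ) = star π * star γ := by
      rw [star_mul, mul_comm]
    rw [e1, J_mul_right _ hπ.ne_zero h0, J_mul_right _ hπ'.ne_zero h1,
      ih h.2, J_prime _ hπ, J_prime _ hπ', ex_star hπ ho (not_dvd_of_coprime hπ h.1)]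
    ring

/-- the exponent of the symbol of `i` -/
noncomputable def M (α : G) : ZMod 4 := ((m4 α : ℕ) : ZMod 4)

lemma four_zero : (4 : ZMod 4) = 0 := by decide

lemma M_mul {α β : G} (h : od α) (h' : od β) : M (α * β) = M α + M β := by
  have h1 := m4_spec h
  have h2 := m4_spec h'
  have h3 := m4_spec (od_mul.2 ⟨h, h'⟩)
  rw [Zsqrtd.norm_mul, ← h1, ← h2] at h3
  have h4 : (m4 (α * β) : ℤ) = m4 α + m4 β + 4 * (m4 α * m4 β) := by
    nlinarith [h3]
  have h5 := congrArg (Int.cast : ℤ → ZMod 4) h4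
  push_cast at h5
  unfold M
  rw [h5, four_zero]
  ring

lemma M_unit {α : G} (h : IsUnit α) : M α = 0 := by
  unfold M m4
  rw [isUnit_iff.1 h]
  rfl

lemma isCoprime_of_dvd_unit {α β : G} (h : IsUnit α) : IsCoprime α β := by
  obtain ⟨v, hv⟩ := h.exists_left_inv
  exact ⟨v, 0, by rw [hv, zero_mul, add_zero]⟩

lemma coprime_I (β : G) : IsCoprime I β := by
  have : IsUnit I := by
    rw [isUnit_iff, norm_eq]
    simp [I]
  exact isCoprime_of_dvd_unit this

lemma J_I {β : G} (hβ : od β) : J I β = M β := by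
  refine odd_ind (P := fun β => J I β = M β) ?_ ?_ β hβ
  · intro u hu
    rw [J_unit _ hu, M_unit hu]
  · intro π γ hπ ho hoγ ih
    rw [J_mul_right _ hπ.ne_zero (od_ne_zero hoγ), ih, M_mul ho hoγ, J_prime _ hπ, ex_I hπ ho]
    rfl

end Pool.Agent.Q33.QR
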