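import Pool.Agent.Q33.QR.Jac

/-!
# The quartic reciprocity law for the composite symbol
-/

set_option autoImplicit false

namespace Pool.Agent.Q33.QR

open Zsqrtd

/-- semi-primary Gaussian integers: odd real part, even imaginary part -/
def sp (α : G) : Prop := Odd α.re ∧ Even α.im

/-- `(2x+1) + 2y i` -/
def mk (x y : ℤ) : G := ⟨2 * x + 1, 2 * y⟩

lemma sp_mk (x y : ℤ) : sp (mk x y) := ⟨⟨x, rfl⟩, ⟨y, by simp [mk, two_mul]⟩⟩

lemma exists_mk {α : G} (h : sp α) : ∃ x y : ℤ, α = mk x y := by
  obtain ⟨⟨x, hx⟩, ⟨y, hy⟩⟩ := h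
  refine ⟨x, y, ?_⟩
  apply Zsqrtd.ext
  · simp [mk, hx]
  · simp only [mk, hy]
    ring

lemma norm_mk (x y : ℤ) : (mk x y).norm = 4 * (x ^ 2 + x + y ^ 2) + 1 := by
  rw [norm_eq]
  simp only [mk]
  ring

lemma od_mk (x y : ℤ) : od (mk x y) := by
  unfold od
  rw [norm_mk]
  omega

lemma sp_od {α : G} (h : sp α) : od α := by
  obtain ⟨x, y, rfl⟩ := exists_mk h
  exact od_mk x y

lemma M_mk (x y : ℤ) : M (mk x y) = (x : ZMod 4) ^ 2 + x + y ^ 2 := by
  have h := m4_spec (od_mk x y)
  rw [norm_mk] at h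
  have h1 : (m4 (mk x y) : ℤ) = x ^ 2 + x + y ^ 2 := by linarith
  have h2 := congrArg (Int.cast : ℤ → ZMod 4) h1
  push_cast at h2
  exact h2

lemma mk_mul (x y z w : ℤ) : mk x y * mk z w =
    mk (2 * x * z + x + z - 2 * y * w) (2 * x * w + w + 2 * y * z + y) := by
  apply Zsqrtd.ext
  · simp only [mk, Zsqrtd.re_mul]
    ring
  · simp only [mk, Zsqrtd.im_mul]
    ring

lemma mk_int (x : ℤ) : mk x 0 = ((2 * x + 1 : ℤ) : G) := by
  apply Zsqrtd.ext <;> simp [mk]

lemma unit_cases {u : G} (h : IsUnit u) : u = 1 ∨ u = -1 ∨ u = I ∨ u = -I := by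
  rw [isUnit_iff, norm_eq] at h
  have h1 : -1 ≤ u.re := by nlinarith
  have h2 : u.re ≤ 1 := by nlinarith
  have h3 : -1 ≤ u.im := by nlinarith
  have h4 : u.im ≤ 1 := by nlinarith
  obtain ⟨a, ha⟩ : ∃ a, u.re = a := ⟨_, rfl⟩
  obtain ⟨b, hb⟩ : ∃ b, u.im = b := ⟨_, rfl⟩
  rw [ha] at h h1 h2
  rw [hb] at h h3 h4
  have hu : u = ⟨a, b⟩ := Zsqrtd.ext ha hb
  rw [hu]
  interval_cases a <;> interval_cases b <;> first
    | (left; rfl)
    | (right; left; rfl)
    | (right; right; left; rfl)
    | (right; right; right; rfl)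
    | (exfalso; revert h; decide)

lemma sp_div {α β : G} (h : sp α) (h' : sp (α * β)) : sp β := by
  unfold sp at *
  rw [Zsqrtd.re_mul, Zsqrtd.im_mul] at h'
  obtain ⟨h1, h2⟩ := h
  obtain ⟨h3, h4⟩ := h'
  have h5 : Even (-1 * α.im * β.im) := by
    rw [mul_assoc]
    exact (h2.mul_right _).mul_left _
  have h6 : Even (α.im * β.re) := h2.mul_right _
  have h7 : Odd (α.re * β.re) := by
    rcases Int.even_or_odd (α.re * β.re) with h8 | h8
    · exact absurd h3 (Int.not_odd_iff_even.2 (h8.add h5))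
    · exact h8
  have h8 : Even (α.re * β.im) := (Int.even_add.1 h4).2 h6
  refine ⟨(Int.odd_mul.1 h7).2, ?_⟩
  rcases Int.even_mul.1 h8 with h9 | h9
  · exact absurd h1 (Int.not_odd_iff_even.2 h9)
  · exact h9

lemma sp_mul {α β : G} (h : sp α) (h' : sp β) : sp (α * β) := by
  obtain ⟨x, y, rfl⟩ := exists_mk h
  obtain ⟨z, w, rfl⟩ := exists_mk h'
  rw [mk_mul]
  exact sp_mk _ _

lemma exists_sp {α : G} (h : od α) : ∃ v, IsUnit v ∧ sp (v * α) := by
  rcases Int.even_or_odd α.re with h1 | h1
  · have h2 : Odd α.im := by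
      rcases Int.even_or_odd α.im with h2 | h2
      · exfalso
        obtain ⟨a, ha⟩ := h1
        obtain ⟨b, hb⟩ := h2
        unfold od at h
        rw [norm_eq, ha, hb] at h
        ring_nf at h
        omega
      · exact h2
    refine ⟨I, by rw [isUnit_iff, norm_eq]; simp [I], ?_⟩
    unfold sp
    rw [Zsqrtd.re_mul, Zsqrtd.im_mul]
    simp only [I]
    constructor
    · have : 0 * α.re + -1 * 1 * α.im = - α.im := by ring
      rw [this]
      exact h2.neg
    · have : 0 * α.im + 1 * α.re = α.re := by ring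
      rw [this]
      exact h1
  · have h2 : Even α.im := by
      rcases Int.even_or_odd α.im with h2 | h2
      · exact h2
      · exfalso
        obtain ⟨a, ha⟩ := h1
        obtain ⟨b, hb⟩ := h2
        unfold od at h
        rw [norm_eq, ha, hb] at h
        ring_nf at h
        omega
    exact ⟨1, isUnit_one, by rw [one_mul]; exact ⟨h1, h2⟩⟩

lemma sp_ind {P : G → Prop} (h1 : P 1) (h2 : P (-1))
    (h3 : ∀ π α, Prime π → sp π → sp α → P α → P (π * α)) (β : G) (hβ : sp β) : P β := by
  have key : ∀ β, od β → ∀ u, IsUnit u → sp (u * β) → P (u * β) := by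
    intro β hβ
    refine odd_ind (P := fun β => ∀ u, IsUnit u → sp (u * β) → P (u * β)) ?_ ?_ β hβ
    · intro v hv u hu hs
      have : IsUnit (u * v) := hu.mul hv
      rcases unit_cases this with h | h | h | h
      · rw [h]
        exact h1
      · rw [h]
        exact h2
      · rw [h] at hs
        exact absurd hs.1 (by simp [I])
      · rw [h] at hs
        exact absurd hs.1 (by simp [I])
    · intro π α hπ hoπ hoα ih u hu hs
      obtain ⟨v, hv, hvs⟩ := exists_sp hoπ
      obtain ⟨w, hw⟩ := hv.exists_left_inv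
      have hwu : IsUnit w := IsUnit.of_mul_eq_one v hw
      have e : u * (π * α) = (v * π) * ((u * w) * α) := by
        linear_combination (-u * π * α) * hw
      rw [e] at hs ⊢
      have hs' : sp ((u * w) * α) := sp_div hvs hs
      refine h3 _ _ ?_ hvs hs' (ih _ (hu.mul hwu) hs')
      have : Associated π (v * π) := (associated_unit_mul_left π v hv).symm
      exact this.prime hπ
  have := key β (sp_od hβ) 1 isUnit_one
  rw [one_mul] at this
  exact this hβ

lemma od_int {n : ℤ} (hn : n % 2 = 1) : od (n : G) := by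
  have h : (n : G) = mk (n / 2) 0 := by
    rw [mk_int]
    congr 1
    omega
  rw [h]
  exact od_mk _ _

lemma sp_int {n : ℤ} (hn : n % 2 = 1) : sp (n : G) := by
  have h : (n : G) = mk (n / 2) 0 := by
    rw [mk_int]
    congr 1
    omega
  rw [h]
  exact sp_mk _ _

/-- a sp prime has prime norm or is a rational integer -/
lemma sp_prime_cases {π : G} (hπ : Prime π) (hs : sp π) :
    (∃ p : ℕ, p.Prime ∧ π.norm = p) ∨ ∃ m : ℤ, m % 2 = 1 ∧ π = (m : G) := by
  obtain ⟨p, hp, hp2, hd⟩ := exists_rat_prime hπ (sp_od hs)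
  rcases norm_cases hπ p hp hd with h | ⟨-, h⟩
  · exact Or.inl ⟨p, hp, h⟩
  · right
    obtain ⟨u, hu⟩ := h.symm
    rcases unit_cases u.isUnit with h1 | h1 | h1 | h1
    · rw [h1, mul_one] at hu
      refine ⟨p, ?_, by rw [← hu]; simp⟩
      have := hp.eq_two_or_odd
      omega
    · rw [h1] at hu
      refine ⟨-p, ?_, by rw [← hu]; simp⟩
      have := hp.eq_two_or_odd
      omega
    · rw [h1] at hu
      exfalso
      have h2 := hs.1
      rw [← hu] at h2
      simp [I] at h2
    · rw [h1] at hu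
      exfalso
      have h2 := hs.1
      rw [← hu] at h2
      simp [I] at h2

lemma split_lambda (l : ℕ) [hl : Fact l.Prime] (h1 : l % 4 = 1) :
    ∃ lam : G, Prime lam ∧ od lam ∧ lam.norm = l ∧ (l : G) = lam * star lam := by
  have hne : (l : G) ≠ 0 := by
    intro h
    have := hl.out.ne_zero
    exact this (by exact_mod_cast h)
  have hnu : ¬ IsUnit (l : G) := by
    intro h
    rw [isUnit_iff, norm_eq] at h
    simp only [Zsqrtd.re_natCast, Zsqrtd.im_natCast, mul_zero, add_zero] at h
    have := hl.out.one_lt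
    nlinarith
  obtain ⟨lam, h2, h3⟩ := WfDvdMonoid.exists_irreducible_factor hnu hne
  have h4 := h2.prime
  have h5 := norm_one_mod_four h4 l h1 h3
  refine ⟨lam, h4, ?_, h5, ?_⟩
  · unfold od
    rw [h5]
    omega
  · rw [← Zsqrtd.norm_eq_mul_conj, h5]
    simp

lemma J_neg_right (α β : G) : J α (-β) = J α β :=
  J_assoc α (Associated.neg_left (Associated.refl β))

lemma nat_ind {P : ℤ → Prop} (hneg : ∀ n, n % 2 = 1 → P n → P (-n)) (h1 : P 1)
    (hp : ∀ l : ℕ, l.Prime → l % 2 = 1 → P l)
    (hm : ∀ a b : ℤ, a % 2 = 1 → b % 2 = 1 → P a → P b → P (a * b)) (n : ℤ) (hn : n % 2 = 1) :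
    P n := by
  have key : ∀ n : ℕ, n % 2 = 1 → P n := by
    intro n
    induction n using Nat.recOnMul with
    | zero =>
      intro h
      omega
    | one =>
      intro _
      exact h1
    | prime p hp' => exact fun h => hp p hp' h
    | mul a b iha ihb =>
      intro h
      have h2 := Nat.odd_mul.1 (Nat.odd_iff.2 h)
      have ha := Nat.odd_iff.1 h2.1
      have hb := Nat.odd_iff.1 h2.2
      rw [Nat.cast_mul]
      exact hm _ _ (by omega) (by omega) (iha ha) (ihb hb)
  rcases Int.natAbs_eq n with h | h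
  · rw [h]
    exact key _ (by omega)
  · rw [h]
    exact hneg _ (by omega) (key _ (by omega))

lemma int_ne_zero {n : ℤ} (hn : n % 2 = 1) : (n : G) ≠ 0 := od_ne_zero (od_int hn)

lemma J_rat {m n : ℤ} (hn : n % 2 = 1) (h : IsCoprime m n) : J (m : G) (n : G) = 0 := by
  revert h
  refine nat_ind (P := fun n => IsCoprime m n → J (m : G) (n : G) = 0) ?_ ?_ ?_ ?_ n hn
  · intro n hn ih h
    rw [Int.cast_neg, J_neg_right]
    exact ih ((IsCoprime.neg_right_iff m n).1 h)
  · intro _
    rw [Int.cast_one]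
    exact J_unit _ isUnit_one
  · intro l hl hl2 h
    have : Fact l.Prime := ⟨hl⟩
    have hcop : IsCoprime (m : G) (l : G) := by
      have := coprime_int' h
      simpa using this
    rw [Int.cast_natCast]
    have h4 : l % 4 = 1 ∨ l % 4 = 3 := by omega
    rcases h4 with h4 | h4
    · obtain ⟨lam, h5, h6, h7, h8⟩ := split_lambda l h4
      rw [h8] at hcop ⊢
      rw [IsCoprime.mul_right_iff] at hcop
      have hnd := not_dvd_of_coprime h5 hcop.1
      rw [J_mul_right _ h5.ne_zero (prime_star h5).ne_zero, J_prime _ h5, J_prime _ (prime_star h5)]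
      have h9 := ex_star h5 h6 hnd
      have h10 : star (m : G) = (m : G) := by
        apply Zsqrtd.ext <;> simp
      rw [h10] at h9
      rw [h9]
      ring
    · have hlam := prime_three l h4
      have hol : od (l : G) := by
        have := od_int (n := l) (by omega)
        simpa using this
      rw [J_prime _ hlam]
      apply ex_eq hlam hol
      have h5 := Int.ModEq.pow_card_sub_one_eq_one hl h
      have hnl : ((l : ℕ) : G).norm = (l : ℤ) * l := by
        rw [norm_eq]
        simp
      have hm : 4 * m4 (l : G) + 1 = l * l := by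
        have := m4_spec hol
        rw [hnl] at this
        exact_mod_cast this
      obtain ⟨k, hk⟩ : ∃ k, l = 4 * k + 3 := ⟨l / 4, by omega⟩
      have hm2 : m4 (l : G) = (l - 1) * (k + 1) := by
        rw [hk] at hm
        have : (4 * k + 3) * (4 * k + 3) = 4 * ((4 * k + 2) * (k + 1)) + 1 := by ring
        rw [← hk] at hm
        rw [hk, this] at hm
        rw [← hk] at hm
        have h6 : l - 1 = 4 * k + 2 := by omega
        rw [h6]
        omega
      rw [hm2, ip_zero]
      have h6 : (m ^ ((l - 1) * (k + 1))) ≡ 1 [ZMOD l] := by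
        have := h5.pow (k + 1)
        rw [one_pow, ← pow_mul] at this
        exact this
      have h7 := h6.symm.dvd
      have h8 := (Int.cast_dvd_cast (α := G) _ _ h7)
      push_cast at h8
      exact h8
  · intro a b ha hb iha ihb h
    rw [IsCoprime.mul_right_iff] at h
    rw [Int.cast_mul, J_mul_right _ (int_ne_zero ha) (int_ne_zero hb), iha h.1, ihb h.2, add_zero]

end Pool.Agent.Q33.QR
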