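import Pool.Agent.Q33.QR.Law

/-!
# The quartic reciprocity law for the composite symbol, second part
-/

set_option autoImplicit false

namespace Pool.Agent.Q33.QR

open Zsqrtd

section split

variable {π : G} (hπ : Prime π) (hs : sp π) (p : ℕ) [hp : Fact p.Prime] (hN : π.norm = (p : ℤ))

include hN in
lemma dvd_int_of {a : ℤ} (h : π ∣ (a : G)) : (p : ℤ) ∣ a := by
  have h2 := norm_dvd h
  have h0 : (a : G).norm = a * a := by
    rw [norm_eq]
    simp
  rw [hN, h0] at h2
  rcases Int.Prime.dvd_mul' hp.out h2 with h3 | h3 <;> exact h3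

include hπ hN in
lemma coprime_lp (l : ℕ) (h : IsCoprime (l : G) π) : l ≠ p := by
  rintro rfl
  apply not_dvd_of_coprime hπ h
  have h1 : (l : G) = π * star π := by
    rw [← Zsqrtd.norm_eq_mul_conj, hN]
    simp
  rw [h1]
  exact Dvd.intro _ rfl

include hπ hs hN in
lemma law_prime (l : ℕ) [hl : Fact l.Prime] (hl2 : l % 2 = 1) (h : IsCoprime (l : G) π) :
    J (l : G) π - J π (l : G) = ((l : ZMod 4) - 1) * M π := by
  have hlp := coprime_lp hπ p hN l h
  have ho := sp_od hs
  have him : π.im % 2 = 0 := Int.even_iff.1 hs.2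
  have h4 : l % 4 = 1 ∨ l % 4 = 3 := by omega
  rw [J_prime _ hπ]
  rcases h4 with h4 | h4
  · obtain ⟨lam, h5, h6, h7, h8⟩ := split_lambda l h4
    have hd : lam ∣ (l : G) := by
      rw [h8]
      exact Dvd.intro _ rfl
    have h9 := recip_one hπ ho p hN him l hlp h4 h5 h6 hd
    have h10 := (not_dvd_of_ne p hN l h5 hd hlp).1
    have h11 := (not_dvd_of_ne (π := star π) p (by rw [norm_star]; exact hN) l h5 hd hlp).1
    have h12 : ex lam (π ^ 3 * star π) = 3 * ex lam π + ex lam (star π) := by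
      have e : π ^ 3 * star π = π * (π * (π * star π)) := by ring
      have n1 : ¬ lam ∣ π * star π := fun h => (h5.dvd_or_dvd h).elim h10 h11
      have n2 : ¬ lam ∣ π * (π * star π) := fun h => (h5.dvd_or_dvd h).elim h10 n1
      rw [e, ex_mul h5 h6 h10 n2, ex_mul h5 h6 h10 n1, ex_mul h5 h6 h10 h11]
      ring
    have h13 : J π (l : G) = ex lam π - ex lam (star π) := by
      conv_lhs => rw [h8]
      rw [J_mul_right _ h5.ne_zero (prime_star h5).ne_zero, J_prime _ h5, J_prime _ (prime_star h5)]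
      have := ex_star h5 h6 h11
      rw [star_star] at this
      rw [this]
      ring
    have h14 : (l : ZMod 4) = 1 := by
      have : ((l : ℕ) : ZMod 4) = ((l % 4 : ℕ) : ZMod 4) := by simp
      rw [this, h4]
      rfl
    rw [h13, h14]
    have h15 : (3 : ZMod 4) = -1 := by decide
    rw [h12, h15] at h9
    linear_combination h9
  · have hlam := prime_three l h4
    have h9 := recip_three hπ ho p hN him l hlp h4
    rw [J_prime _ hlam, h9]
    have h14 : (l : ZMod 4) = 3 := by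
      have : ((l : ℕ) : ZMod 4) = ((l % 4 : ℕ) : ZMod 4) := by simp
      rw [this, h4]
      rfl
    have h15 : ex π (-1) = 2 * M π := by
      have e : (-1 : G) = I * I := I_mul_I.symm
      have n1 : ¬ π ∣ I := not_dvd_of_coprime hπ (coprime_I π)
      rw [e, ex_mul hπ ho n1 n1, ex_I hπ ho]
      unfold M
      ring
    rw [h14, h15]
    linear_combination (-M π) * four_zero

include hπ hs hN in
lemma law_rat (m : ℤ) (hm : m % 2 = 1) (h : IsCoprime (m : G) π) :
    J (m : G) π - J π (m : G) = ((m : ZMod 4) - 1) * M π := by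
  have ho := sp_od hs
  revert h
  refine nat_ind (P := fun m => IsCoprime (m : G) π →
    J (m : G) π - J π (m : G) = ((m : ZMod 4) - 1) * M π) ?_ ?_ ?_ ?_ m hm
  · intro n hn ih h
    rw [Int.cast_neg, J_neg_right]
    rw [Int.cast_neg] at h
    have h' := (IsCoprime.neg_left_iff _ _).1 h
    have h1 := ih h'
    have e : -(n : G) = I * I * (n : G) := by rw [I_mul_I]; ring
    have hII : IsCoprime (I * I) π := (coprime_I π).mul_left (coprime_I π)
    rw [e, J_mul_left ho hII h', J_mul_left ho (coprime_I π) (coprime_I π), J_I ho]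
    have h2 : (n : ZMod 4) = 1 ∨ (n : ZMod 4) = 3 := by
      have h3 : n % 4 = 1 ∨ n % 4 = 3 := by omega
      have h4 : (n : ZMod 4) = ((n % 4 : ℤ) : ZMod 4) := by
        have := ZMod.intCast_mod n 4
        push_cast at this ⊢
        exact this.symm
      rcases h3 with h3 | h3 <;> rw [h4, h3]
      · left
        rfl
      · right
        rfl
    rw [Int.cast_neg]
    rcases h2 with h2 | h2 <;> rw [h2] at h1 ⊢
    · linear_combination h1 + M π * four_zero
    · linear_combination h1 + 2 * M π * four_zero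
  · intro _
    rw [Int.cast_one, Int.cast_one, J_unit _ isUnit_one, J_one ho]
    ring
  · intro l hl hl2 h
    have : Fact l.Prime := ⟨hl⟩
    rw [Int.cast_natCast] at h ⊢
    rw [Int.cast_natCast]
    exact law_prime hπ hs p hN l hl2 h
  · intro a b ha hb iha ihb h
    rw [Int.cast_mul] at h ⊢
    rw [IsCoprime.mul_left_iff] at h
    have h1 := iha h.1
    have h2 := ihb h.2
    rw [J_mul_left ho h.1 h.2, J_mul_right _ (int_ne_zero ha) (int_ne_zero hb), Int.cast_mul]
    obtain ⟨a', ha'⟩ : ∃ a', a = 2 * a' + 1 := ⟨a / 2, by omega⟩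
    obtain ⟨b', hb'⟩ : ∃ b', b = 2 * b' + 1 := ⟨b / 2, by omega⟩
    have hab : ((a : ZMod 4) - 1) * ((b : ZMod 4) - 1) = 0 := by
      rw [ha', hb']
      push_cast
      linear_combination ((a' : ZMod 4) * b') * four_zero
    linear_combination h1 + h2 - M π * hab

end split

/-- the correction term of the reciprocity law -/
def F (α β : G) : ZMod 4 :=
  (((α.re - 1) * (β.im / 2) + (β.re - 1) * (α.im / 2) + α.im * (β.im / 2) : ℤ) : ZMod 4)

lemma F_mk (x y z w : ℤ) : F (mk x y) (mk z w) =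
    2 * ((x : ZMod 4) * w + z * y + y * w) := by
  unfold F mk
  have h1 : (2 * w) / 2 = w := by omega
  have h2 : (2 * y) / 2 = y := by omega
  simp only [h1, h2]
  push_cast
  ring

lemma F_symm {α β : G} (h : sp α) (h' : sp β) : F α β = F β α := by
  obtain ⟨x, y, rfl⟩ := exists_mk h
  obtain ⟨z, w, rfl⟩ := exists_mk h'
  rw [F_mk, F_mk]
  ring

lemma F_neg {α β : G} (h : sp α) (h' : sp β) : - F α β = F α β := by
  obtain ⟨x, y, rfl⟩ := exists_mk h
  obtain ⟨z, w, rfl⟩ := exists_mk h'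
  rw [F_mk]
  linear_combination (-((x : ZMod 4) * w + z * y + y * w)) * four_zero

lemma F_mul_right {α β γ : G} (h : sp α) (h' : sp β) (h'' : sp γ) :
    F α (β * γ) = F α β + F α γ := by
  obtain ⟨x, y, rfl⟩ := exists_mk h
  obtain ⟨z, w, rfl⟩ := exists_mk h'
  obtain ⟨u, v, rfl⟩ := exists_mk h''
  rw [mk_mul, F_mk, F_mk, F_mk]
  push_cast
  linear_combination ((x : ZMod 4) * (z * v + w * u) + (z * u - w * v) * y +
    y * (z * v + w * u)) * four_zero

lemma F_mul_left {α β γ : G} (h : sp α) (h' : sp β) (h'' : sp γ) :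
    F (β * γ) α = F β α + F γ α := by
  rw [F_symm (sp_mul h' h'') h, F_symm h' h, F_symm h'' h, F_mul_right h h' h'']

lemma F_one {α : G} (h : sp α) : F α 1 = 0 := by
  obtain ⟨x, y, rfl⟩ := exists_mk h
  have : (1 : G) = mk 0 0 := by
    apply Zsqrtd.ext <;> simp [mk]
  rw [this, F_mk]
  push_cast
  ring

lemma mk_star (x y : ℤ) : star (mk x y) = mk x (-y) := by
  apply Zsqrtd.ext
  · simp [mk]
  · simp [mk]

lemma fin_id : ∀ x y z w : ZMod 4,
    ((2 * x * z + x + z + 2 * y * w) ^ 2 + (2 * x * z + x + z + 2 * y * w) + 0) +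
      (2 * (2 * x * z + x + z + 2 * y * w)) * ((x ^ 2 + x + y ^ 2) - (z ^ 2 + z + w ^ 2)) -
      (x ^ 2 + x) - 2 * x * (x ^ 2 + x + y ^ 2) + (z ^ 2 + z) + 2 * z * (z ^ 2 + z + w ^ 2) =
    2 * (x * w + z * y + y * w) := by
  decide

/-- the law for two split primes -/
lemma law_split {α β : G} (hα : Prime α) (hβ : Prime β) (hsα : sp α) (hsβ : sp β)
    (p q : ℕ) [hp : Fact p.Prime] [hq : Fact q.Prime] (hNα : α.norm = (p : ℤ))
    (hNβ : β.norm = (q : ℤ)) (h : IsCoprime α β) : J α β - J β α = F α β := by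
  obtain ⟨x, y, rfl⟩ := exists_mk hsα
  obtain ⟨z, w, rfl⟩ := exists_mk hsβ
  set m : ℤ := 2 * (2 * x * z + x + z + 2 * y * w) + 1 with hm
  set e : ℤ := (2 * y) * (2 * z + 1) - (2 * x + 1) * (2 * w) with he
  have hoα := od_mk x y
  have hoβ := od_mk z w
  have hmo : m % 2 = 1 := by omega
  have hdα : mk x y ∣ ((2 * x + 1 : ℤ) : G) * mk z w - (m : G) := by
    refine ⟨I * ((2 * w : ℤ) : G), ?_⟩
    apply Zsqrtd.ext
    · simp [mk, I, hm]
      ring
    · simp [mk, I]
  have hdβ : mk z w ∣ ((2 * z + 1 : ℤ) : G) * mk x y - (m : G) := by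
    refine ⟨I * ((2 * y : ℤ) : G), ?_⟩
    apply Zsqrtd.ext
    · simp [mk, I, hm]
      ring
    · simp [mk, I]
  have hdm : (m : G) ∣ mk x y * star (mk z w) - (e : G) * I := by
    refine ⟨1, ?_⟩
    apply Zsqrtd.ext
    · simp [mk, I, hm]
      ring
    · simp [mk, I, he]
      ring
  -- coprimality
  have hxα : IsCoprime ((2 * x + 1 : ℤ) : G) (mk x y) := by
    apply coprime_of_not_dvd hα
    intro h1
    have h2 := dvd_int_of p hNα h1
    have h3 := hNα
    rw [norm_eq] at h3
    simp only [mk] at h3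
    have h4 : (p : ℤ) ∣ (2 * y) * (2 * y) := by
      have : (2 * y) * (2 * y) = p - (2 * x + 1) * (2 * x + 1) := by linarith
      rw [this]
      exact dvd_sub dvd_rfl (h2.mul_right _)
    have h5 : (p : ℤ) ∣ 2 * y := by
      rcases Int.Prime.dvd_mul' hp.out h4 with h5 | h5 <;> exact h5
    obtain ⟨a, ha⟩ := h2
    obtain ⟨b, hb⟩ := h5
    rw [ha, hb] at h3
    have hp1 := hp.out.one_lt
    have h6 : (p : ℤ) * ((a * a + b * b) * p) = p * 1 := by linarith
    have h7 := mul_left_cancel₀ (by exact_mod_cast hp.out.ne_zero) h6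
    have h8 := Int.isUnit_iff.1 (IsUnit.of_mul_eq_one _ ((mul_comm _ _).trans h7) : IsUnit (p : ℤ))
    omega
  have hzβ : IsCoprime ((2 * z + 1 : ℤ) : G) (mk z w) := by
    apply coprime_of_not_dvd hβ
    intro h1
    have h2 := dvd_int_of q hNβ h1
    have h3 := hNβ
    rw [norm_eq] at h3
    simp only [mk] at h3
    have h4 : (q : ℤ) ∣ (2 * w) * (2 * w) := by
      have : (2 * w) * (2 * w) = q - (2 * z + 1) * (2 * z + 1) := by linarith
      rw [this]
      exact dvd_sub dvd_rfl (h2.mul_right _)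
    have h5 : (q : ℤ) ∣ 2 * w := by
      rcases Int.Prime.dvd_mul' hq.out h4 with h5 | h5 <;> exact h5
    obtain ⟨a, ha⟩ := h2
    obtain ⟨b, hb⟩ := h5
    rw [ha, hb] at h3
    have hp1 := hq.out.one_lt
    have h6 : (q : ℤ) * ((a * a + b * b) * q) = q * 1 := by linarith
    have h7 := mul_left_cancel₀ (by exact_mod_cast hq.out.ne_zero) h6
    have h8 := Int.isUnit_iff.1 (IsUnit.of_mul_eq_one _ ((mul_comm _ _).trans h7) : IsUnit (q : ℤ))
    omega
  have cop_congr : ∀ {a b c : G}, c ∣ a - b → IsCoprime a c → IsCoprime b c := by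
    rintro a b c ⟨t, ht⟩ ⟨u, v, huv⟩
    refine ⟨u, v + u * t, ?_⟩
    linear_combination huv - u * ht
  have hmα : IsCoprime (m : G) (mk x y) := cop_congr hdα (hxα.mul_left h.symm)
  have hmβ : IsCoprime (m : G) (mk z w) := cop_congr hdβ (hzβ.mul_left h)
  have hmsβ : IsCoprime (star (mk z w)) (m : G) := by
    have h1 := coprime_star hmβ
    have h10 : star (m : G) = (m : G) := by
      apply Zsqrtd.ext <;> simp
    rw [h10] at h1
    exact h1.symm
  have heI : IsCoprime ((e : G) * I) (m : G) := cop_congr hdm (hmα.symm.mul_left hmsβ)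
  have hem : IsCoprime e m := coprime_int (IsCoprime.of_mul_left_left heI)
  have hmo' := od_int hmo
  -- symbols
  have e1 : J ((2 * x + 1 : ℤ) : G) (mk x y) + J (mk z w) (mk x y) = J (m : G) (mk x y) := by
    rw [← J_mul_left hoα hxα h.symm]
    exact J_congr hoα hdα
  have e2 : J ((2 * z + 1 : ℤ) : G) (mk z w) + J (mk x y) (mk z w) = J (m : G) (mk z w) := by
    rw [← J_mul_left hoβ hzβ h]
    exact J_congr hoβ hdβ
  have e3 : J (mk x y) (m : G) - J (mk z w) (m : G) = M (m : G) := by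
    have h1 := J_mul_left hmo' hmα.symm hmsβ
    rw [J_congr hmo' hdm, J_mul_left hmo' (IsCoprime.of_mul_left_left heI) (coprime_I _),
      J_rat hmo hem, J_I hmo'] at h1
    have h2 := J_star hmo' hmβ.symm
    have h10 : star (m : G) = (m : G) := by
      apply Zsqrtd.ext <;> simp
    rw [h10] at h2
    rw [h2] at h1
    linear_combination -h1
  have e4 := law_rat hα hsα p hNα m hmo hmα
  have e5 := law_rat hβ hsβ q hNβ m hmo hmβ
  have e6 := law_rat hα hsα p hNα (2 * x + 1) (by omega) hxα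
  have e7 := law_rat hβ hsβ q hNβ (2 * z + 1) (by omega) hzβ
  -- `J α a`
  have red : ∀ x y : ℤ, IsCoprime ((2 * x + 1 : ℤ) : G) (mk x y) →
      J (mk x y) ((2 * x + 1 : ℤ) : G) = M ((2 * x + 1 : ℤ) : G) := by
    intro x y hxα
    have ho : od ((2 * x + 1 : ℤ) : G) := od_int (by omega)
    have hd : ((2 * x + 1 : ℤ) : G) ∣ mk x y - ((2 * y : ℤ) : G) * I := by
      refine ⟨1, ?_⟩
      apply Zsqrtd.ext
      · simp [mk, I]
      · simp [mk, I]
    have h1 : IsCoprime (((2 * y : ℤ) : G) * I) ((2 * x + 1 : ℤ) : G) := cop_congr hd hxα.symm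
    rw [J_congr ho hd, J_mul_left ho (IsCoprime.of_mul_left_left h1) (coprime_I _),
      J_rat (by omega) (coprime_int (IsCoprime.of_mul_left_left h1)), J_I ho, zero_add]
  have e8 := red x y hxα
  have e9 := red z w hzβ
  have hMm : M (m : G) = ((2 * x * z + x + z + 2 * y * w : ZMod 4)) ^ 2 +
      (2 * x * z + x + z + 2 * y * w : ZMod 4) + 0 := by
    rw [hm, ← mk_int, M_mk]
    push_cast
    ring
  have hMa : M ((2 * x + 1 : ℤ) : G) = (x : ZMod 4) ^ 2 + x := by
    rw [← mk_int, M_mk]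
    push_cast
    ring
  have hMc : M ((2 * z + 1 : ℤ) : G) = (z : ZMod 4) ^ 2 + z := by
    rw [← mk_int, M_mk]
    push_cast
    ring
  rw [e8, hMa] at e6
  rw [e9, hMc] at e7
  rw [hMm] at e3
  rw [M_mk] at e4 e5 e6 e7
  have hmc : (m : ZMod 4) = 2 * (2 * x * z + x + z + 2 * y * w : ZMod 4) + 1 := by
    rw [hm]
    push_cast
    ring
  rw [hmc] at e4 e5
  push_cast at e1 e2 e6 e7
  have h1 := fin_id x y z w
  have h2 := F_neg (sp_mk x y) (sp_mk z w)
  rw [F_mk] at h2 ⊢
  linear_combination h2 - e1 + e2 - e3 - e4 + e5 + e6 - e7 - h1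

lemma law_symm {α β : G} (hα : sp α) (hβ : sp β) (h : J α β - J β α = F α β) :
    J β α - J α β = F β α := by
  rw [F_symm hβ hα]
  linear_combination -h + F_neg hα hβ

/-- the law for two primes -/
lemma law_pp {α β : G} (hα : Prime α) (hβ : Prime β) (hsα : sp α) (hsβ : sp β)
    (h : IsCoprime α β) : J α β - J β α = F α β := by
  -- a rational and a split one
  have mixed : ∀ {m : ℤ} {β : G}, m % 2 = 1 → Prime β → sp β → ∀ p : ℕ, p.Prime →
      β.norm = (p : ℤ) → IsCoprime (m : G) β → J (m : G) β - J β (m : G) = F (m : G) β := by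
    intro m β hm hβ hsβ p hp hN h
    have : Fact p.Prime := ⟨hp⟩
    have h1 := law_rat hβ hsβ p hN m hm h
    obtain ⟨x, y, rfl⟩ := exists_mk hsβ
    obtain ⟨n, rfl⟩ : ∃ n, m = 2 * n + 1 := ⟨m / 2, by omega⟩
    rw [h1, ← mk_int, F_mk, M_mk]
    have : ∀ n x y : ZMod 4, (2 * n + 1 - 1) * (x ^ 2 + x + y ^ 2) = 2 * (n * y + x * 0 + 0 * y) := by
      decide
    push_cast
    exact this _ _ _
  rcases sp_prime_cases hα hsα with ⟨p, hp, hNp⟩ | ⟨m, hm, rfl⟩
  · rcases sp_prime_cases hβ hsβ with ⟨q, hq, hNq⟩ | ⟨n, hn, rfl⟩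
    · have : Fact p.Prime := ⟨hp⟩
      have : Fact q.Prime := ⟨hq⟩
      exact law_split hα hβ hsα hsβ p q hNp hNq h
    · exact law_symm hsβ hsα (mixed hn hα hsα p hp hNp h.symm)
  · rcases sp_prime_cases hβ hsβ with ⟨q, hq, hNq⟩ | ⟨n, hn, rfl⟩
    · exact mixed hm hβ hsβ q hq hNq h
    · rw [J_rat hn (coprime_int h), J_rat hm (coprime_int h.symm)]
      obtain ⟨m', rfl⟩ : ∃ m', m = 2 * m' + 1 := ⟨m / 2, by omega⟩
      obtain ⟨n', rfl⟩ : ∃ n', n = 2 * n' + 1 := ⟨n / 2, by omega⟩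
      rw [← mk_int, ← mk_int, F_mk]
      push_cast
      ring

lemma J_neg_one {β : G} (hβ : od β) : J (-1) β = 2 * M β := by
  rw [← I_mul_I, J_mul_left hβ (coprime_I β) (coprime_I β), J_I hβ]
  ring

lemma law_neg_one {α : G} (hα : sp α) : J α (-1) - J (-1) α = F α (-1) := by
  have h1 : IsUnit (-1 : G) := isUnit_one.neg
  rw [J_unit _ h1, J_neg_one (sp_od hα)]
  obtain ⟨x, y, rfl⟩ := exists_mk hα
  have h2 : (-1 : G) = mk (-1) 0 := by
    apply Zsqrtd.ext <;> simp [mk]
  rw [h2, F_mk, M_mk]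
  have : ∀ x y : ZMod 4, 0 - 2 * (x ^ 2 + x + y ^ 2) = 2 * (x * 0 + -1 * y + y * 0) := by
    decide
  push_cast
  exact this _ _

lemma law_one {α : G} (hα : sp α) : J α 1 - J 1 α = F α 1 := by
  rw [J_unit _ isUnit_one, J_one (sp_od hα), F_one hα, sub_zero]

/-- **The quartic reciprocity law**, for coprime semi-primary Gaussian integers -/
theorem law {α β : G} (hα : sp α) (hβ : sp β) (h : IsCoprime α β) :
    J α β - J β α = F α β := by
  revert h
  have hm1 : sp (-1 : G) := ⟨⟨-1, by simp⟩, by simp⟩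
  have h1' : sp (1 : G) := ⟨⟨0, by simp⟩, by simp⟩
  refine sp_ind (P := fun α => IsCoprime α β → J α β - J β α = F α β) ?_ ?_ ?_ α hα
  · intro _
    exact law_symm hβ h1' (law_one hβ)
  · intro _
    exact law_symm hβ hm1 (law_neg_one hβ)
  · intro π γ hπ hsπ hsγ ih h
    have hoβ := sp_od hβ
    have hoγ := sp_od hsγ
    rw [IsCoprime.mul_left_iff] at h
    have key : J π β - J β π = F π β := by
      have h' := h.1
      revert h'
      refine sp_ind (P := fun β => IsCoprime π β → J π β - J β π = F π β) ?_ ?_ ?_ β hβ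
      · intro _
        exact law_one hsπ
      · intro _
        exact law_neg_one hsπ
      · intro π' γ' hπ' hsπ' hsγ' ih' h'
        rw [IsCoprime.mul_right_iff] at h'
        rw [J_mul_right _ hπ'.ne_zero (od_ne_zero (sp_od hsγ')),
          J_mul_left (sp_od hsπ) h'.1.symm h'.2.symm, F_mul_right hsπ hsπ' hsγ']
        linear_combination law_pp hπ hπ' hsπ hsπ' h'.1 + ih' h'.2
    rw [J_mul_left hoβ h.1 h.2, J_mul_right _ hπ.ne_zero (od_ne_zero hoγ),
      F_mul_left hβ hsπ hsγ]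
    linear_combination key + ih h.2

end Pool.Agent.Q33.QR
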