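import Pool.Agent.Q33.QR.Gauss

/-!
# Reciprocity between a split Gaussian prime and a rational prime
-/

set_option autoImplicit false

namespace Pool.Agent.Q33.QR

open Zsqrtd

/-- The residue field of a Gaussian prime, inside a field with a primitive additive character. -/
lemma exists_field {lam : G} (hlam : Prime lam) (l p : ℕ) [hl : Fact l.Prime] [hp : Fact p.Prime]
    (hlp : l ≠ p) (hdvd : lam ∣ (l : G)) :
    ∃ (K : Type) (_ : Field K) (_ : CharP K l) (h : G →+* K) (ψ : AddChar (ZMod p) K),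
      ψ.IsPrimitive ∧ ∀ x, h x = 0 ↔ lam ∣ x := by
  let P := Ideal.span {lam}
  have hmax : P.IsMaximal := PrincipalIdealRing.isMaximal_of_irreducible hlam.irreducible
  let _ : Field (G ⧸ P) := Ideal.Quotient.field P
  let q : G →+* G ⧸ P := Ideal.Quotient.mk P
  have hq : ∀ x, q x = 0 ↔ lam ∣ x := by
    intro x
    rw [Ideal.Quotient.eq_zero_iff_mem, Ideal.mem_span_singleton]
  have hl0 : (l : G ⧸ P) = 0 := by
    have := (hq (l : G)).2 hdvd
    rwa [map_natCast] at this
  have hchar := CharP.ringChar_of_prime_eq_zero hl.out hl0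
  have hne : ringChar (G ⧸ P) ≠ ringChar (ZMod p) := by
    rw [hchar, ZMod.ringChar_zmod_n]
    exact hlp
  let ψ := AddChar.FiniteField.primitiveChar (ZMod p) (G ⧸ P) hne
  have hinj := (algebraMap (G ⧸ P) (CyclotomicField ψ.n (G ⧸ P))).injective
  refine ⟨CyclotomicField ψ.n (G ⧸ P), inferInstance, ?_,
    (algebraMap (G ⧸ P) (CyclotomicField ψ.n (G ⧸ P))).comp q, ψ.char, ψ.prim, ?_⟩
  · have h1 : (l : CyclotomicField ψ.n (G ⧸ P)) = 0 := by
      rw [← map_natCast (algebraMap (G ⧸ P) (CyclotomicField ψ.n (G ⧸ P))), hl0, map_zero]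
    have h2 := CharP.ringChar_of_prime_eq_zero hl.out h1
    rw [← h2]
    infer_instance
  · intro x
    rw [RingHom.comp_apply, ← hq, map_eq_zero_iff _ hinj]

/-- Classification of the Gaussian primes over a rational prime. -/
lemma norm_cases {lam : G} (hlam : Prime lam) (l : ℕ) (hl : l.Prime) (hdvd : lam ∣ (l : G)) :
    lam.norm = (l : ℤ) ∨ (lam.norm = (l : ℤ) * l ∧ Associated lam (l : G)) := by
  obtain ⟨γ, hγ⟩ := hdvd
  have h0 : ((l : ℕ) : G).norm = (l : ℤ) * l := by
    rw [norm_eq]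
    simp
  have h1 : lam.norm * γ.norm = (l : ℤ) * l := by
    rw [← Zsqrtd.norm_mul, ← hγ, h0]
  have h6 : lam.norm.natAbs ∣ l ^ 2 := by
    have h2 : lam.norm ∣ (l : ℤ) * l := Dvd.intro _ h1
    have := Int.natAbs_dvd_natAbs.2 h2
    rw [← sq, Int.natAbs_pow, Int.natAbs_natCast] at this
    exact this
  obtain ⟨k, hk, hk2⟩ := (Nat.dvd_prime_pow hl).1 h6
  have h7 : lam.norm = (l : ℤ) ^ k := by
    rw [← Int.natAbs_of_nonneg (norm_nonneg lam), hk2]
    push_cast
    rfl
  have hl0 : (l : ℤ) ≠ 0 := by exact_mod_cast hl.ne_zero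
  interval_cases k
  · exfalso
    exact hlam.not_isUnit (isUnit_iff.2 (by rw [h7, pow_zero]))
  · left
    rw [h7, pow_one]
  · right
    refine ⟨by rw [h7, sq], ?_⟩
    have h8 : γ.norm = 1 := by
      have h9 : ((l : ℤ) * l) * γ.norm = (l : ℤ) * l * 1 := by
        rw [h7, sq] at h1
        rw [mul_one, h1]
      exact mul_left_cancel₀ (mul_ne_zero hl0 hl0) h9
    obtain ⟨u, hu⟩ := isUnit_iff.2 h8
    exact ⟨u, by rw [hu, hγ]⟩

lemma prime_three (l : ℕ) [hl : Fact l.Prime] (h3 : l % 4 = 3) : Prime (l : G) :=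
  (GaussianInt.prime_iff_mod_four_eq_three_of_nat_prime l).2 h3

lemma norm_one_mod_four {lam : G} (hlam : Prime lam) (l : ℕ) [hl : Fact l.Prime] (h1 : l % 4 = 1)
    (hdvd : lam ∣ (l : G)) : lam.norm = (l : ℤ) := by
  rcases norm_cases hlam l hl.out hdvd with h | ⟨-, h⟩
  · exact h
  · exfalso
    have h2 : Prime (l : G) := (h.prime_iff).1 hlam
    have := (GaussianInt.prime_iff_mod_four_eq_three_of_nat_prime l).1 h2
    omega

/-- Frobenius -/
lemma frob_three (l : ℕ) [hl : Fact l.Prime] (h3 : l % 4 = 3) (α : G) :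
    (l : G) ∣ α ^ l - star α := by
  have hprime := prime_three l h3
  let P := Ideal.span {(l : G)}
  have : P.IsPrime := (Ideal.span_singleton_prime hprime.ne_zero).2 hprime
  let K := G ⧸ P
  let q : G →+* K := Ideal.Quotient.mk P
  have hq : ∀ x, q x = 0 ↔ (l : G) ∣ x := by
    intro x
    rw [Ideal.Quotient.eq_zero_iff_mem, Ideal.mem_span_singleton]
  have hp0 : (l : K) = 0 := by
    have := (hq (l : G)).2 dvd_rfl
    rwa [map_natCast] at this
  have : CharP K l := by
    have := CharP.ringChar_of_prime_eq_zero hl.out hp0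
    rw [← this]
    infer_instance
  have hfrob : ∀ a : ℤ, (a : K) ^ l = a := by
    intro a
    have := map_intCast (frobenius K l) a
    rwa [frobenius_def] at this
  obtain ⟨t, ht⟩ : ∃ t, q I = t := ⟨_, rfl⟩
  have ht2 : t ^ 2 = -1 := by
    rw [← ht, ← map_pow, I_sq, map_neg, map_one]
  have hx : ∀ β : G, q β = (β.re : K) + (β.im : K) * t := by
    intro β
    have : β = (β.re : G) + (β.im : G) * I := by
      apply Zsqrtd.ext <;> simp [I]
    conv_lhs => rw [this]
    rw [map_add, map_mul, map_intCast, map_intCast, ht]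
  have htp : t ^ l = -t := by
    have h5 : l = 2 * (l / 2) + 1 := by omega
    have h6 : Odd (l / 2) := by
      rw [Nat.odd_iff]
      omega
    conv_lhs => rw [h5, pow_add, pow_mul, ht2, pow_one, h6.neg_one_pow]
    ring
  rw [← hq, map_sub, map_pow, sub_eq_zero, hx (star α), hx α]
  have h3 := (frobenius K l).map_add (α.re : K) ((α.im : K) * t)
  rw [frobenius_def, frobenius_def, frobenius_def, mul_pow, hfrob, hfrob, htp] at h3
  rw [h3, Zsqrtd.re_star, Zsqrtd.im_star]
  push_cast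
  ring

section main

variable {π : G} (hπ : Prime π) (ho : od π) (p : ℕ) [hp : Fact p.Prime] (hN : π.norm = (p : ℤ))
  (him : π.im % 2 = 0) (l : ℕ) [hl : Fact l.Prime] (hlp : l ≠ p)

include hN in
lemma not_dvd_of_ne {lam : G} (hlam : Prime lam) (hdvd : lam ∣ (l : G))
    (hlp : l ≠ p) : ¬ lam ∣ π ∧ ¬ π ∣ (l : G) := by
  have h1 : ¬ lam ∣ π := by
    intro h
    have h2 := norm_dvd h
    rw [hN] at h2
    have h3 : (l : ℤ) ∣ p := by
      rcases norm_cases hlam l hl.out hdvd with h4 | ⟨h4, -⟩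
      · rwa [h4] at h2
      · rw [h4] at h2
        exact (Dvd.intro _ rfl).trans h2
    have h4 : l ∣ p := by exact_mod_cast h3
    exact hlp ((Nat.prime_dvd_prime_iff_eq hl.out hp.out).1 h4)
  refine ⟨h1, ?_⟩
  intro h
  have h2 := norm_dvd h
  have h0 : ((l : ℕ) : G).norm = (l : ℤ) * l := by
    rw [norm_eq]
    simp
  rw [hN, h0] at h2
  have h3 : p ∣ l * l := by exact_mod_cast h2
  rcases (Nat.Prime.dvd_mul hp.out).1 h3 with h4 | h4
  · exact hlp ((Nat.prime_dvd_prime_iff_eq hp.out hl.out).1 h4).symm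
  · exact hlp ((Nat.prime_dvd_prime_iff_eq hp.out hl.out).1 h4).symm

include hπ ho hN him hlp in
/-- the basic relation between the Gauss sum and its Frobenius image -/
theorem recip_one (h1 : l % 4 = 1) {lam : G} (hlam : Prime lam) (hol : od lam)
    (hdvd : lam ∣ (l : G)) : ex lam (π ^ 3 * star π) = - ex π (l : G) := by
  obtain ⟨hlp1, hpl⟩ := not_dvd_of_ne p hN l hlam hdvd hlp
  have hlsp : ¬ lam ∣ star π :=
    (not_dvd_of_ne p (by rw [norm_star]; exact hN) l hlam hdvd hlp).1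
  obtain ⟨f, hf⟩ := exists_hom hπ p hN
  obtain ⟨K, _, _, h, ψ, hψ, hh⟩ := exists_field hlam l p hlp hdvd
  have hl2 : l ≠ 2 := by omega
  have h2 : (2 : K) ≠ 0 := by
    intro h3
    have h4 : ((2 : ℕ) : K) = 0 := by exact_mod_cast h3
    rw [CharP.cast_eq_zero_iff K l] at h4
    exact hl2 ((Nat.prime_dvd_prime_iff_eq hl.out Nat.prime_two).1 h4)
  have hg4 := gauss_pow_four hπ ho p f hf hN him h h2 hψ
  set χ := (chi hπ ho p f hf).ringHomComp h with hχ
  set g := gaussSum χ ψ with hg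
  have hχ4 : χ ^ 4 = 1 := by
    rw [hχ, MulChar.ringHomComp_pow, chi_pow_four, MulChar.ringHomComp_one]
  obtain ⟨k, hk⟩ : ∃ k, l = 4 * k + 1 := ⟨l / 4, by omega⟩
  have hfrob := gaussSum_frob l χ ψ
  have hχl : χ ^ l = χ := by
    rw [hk, pow_add, pow_mul, hχ4, one_pow, one_mul, pow_one]
  have hlu : IsUnit (l : ZMod p) := by
    rw [isUnit_iff_ne_zero]
    intro h3
    rw [ZMod.natCast_eq_zero_iff] at h3
    exact hlp ((Nat.prime_dvd_prime_iff_eq hp.out hl.out).1 h3).symm
  have hshift := gaussSum_mulShift χ ψ hlu.unit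
  rw [hlu.unit_spec] at hshift
  rw [hχl, AddChar.pow_mulShift] at hfrob
  rw [← hfrob, ← hg] at hshift
  have hχv : χ (l : ZMod p) = h (ip (ex π (l : G))) := by
    rw [hχ, MulChar.ringHomComp_apply, ← chi_apply hπ ho p f hf hpl, map_natCast f l]
  have hg0 : g ≠ 0 := by
    intro h3
    rw [h3, zero_pow (by norm_num)] at hg4
    rcases hlam.dvd_or_dvd ((hh _).1 hg4.symm) with h5 | h5
    · exact hlp1 (hlam.dvd_of_dvd_pow h5)
    · exact hlsp h5
  have h3 : h (ip (ex π (l : G))) * h ((π ^ 3 * star π) ^ k) = 1 := by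
    have h4 : χ (l : ZMod p) * (g ^ 4) ^ k * g = 1 * g := by
      rw [one_mul, mul_assoc, ← pow_mul, ← pow_succ, ← hk, hshift]
    have h5 := mul_right_cancel₀ hg0 h4
    rw [hg4, hχv, ← map_pow] at h5
    exact h5
  apply ex_eq hlam hol
  have hm : m4 lam = k := by
    have h4 := m4_spec hol
    rw [norm_one_mod_four hlam l h1 hdvd] at h4
    omega
  rw [hm, ← hh, map_sub, sub_eq_zero]
  have h6 : h (ip (ex π (l : G))) * h (ip (-ex π (l : G))) = 1 := by
    rw [← map_mul, ← ip_add, add_neg_cancel, ip_zero, map_one]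
  have h7 : h (ip (ex π (l : G))) ≠ 0 := left_ne_zero_of_mul (h3.trans_ne one_ne_zero)
  exact mul_left_cancel₀ h7 (h3.trans h6.symm)

include hπ ho hN him hlp in
theorem recip_three (h3 : l % 4 = 3) :
    ex (l : G) π = ex π (l : G) + ex π (-1) := by
  have hlam : Prime (l : G) := prime_three l h3
  have hdvd : (l : G) ∣ (l : G) := dvd_rfl
  have hnl : ((l : ℕ) : G).norm = (l : ℤ) * l := by
    rw [norm_eq]
    simp
  have hol : od (l : G) := by
    unfold od
    rw [hnl]
    obtain ⟨k, hk⟩ : ∃ k, l = 4 * k + 3 := ⟨l / 4, by omega⟩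
    rw [hk]
    push_cast
    ring_nf
    omega
  obtain ⟨hlp1, hpl⟩ := not_dvd_of_ne p hN l hlam hdvd hlp
  obtain ⟨f, hf⟩ := exists_hom hπ p hN
  obtain ⟨K, _, _, h, ψ, hψ, hh⟩ := exists_field hlam l p hlp hdvd
  have hl2 : l ≠ 2 := by omega
  have h2 : (2 : K) ≠ 0 := by
    intro h3
    have h4 : ((2 : ℕ) : K) = 0 := by exact_mod_cast h3
    rw [CharP.cast_eq_zero_iff K l] at h4
    exact hl2 ((Nat.prime_dvd_prime_iff_eq hl.out Nat.prime_two).1 h4)
  have hg4 := gauss_pow_four hπ ho p f hf hN him h h2 hψ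
  have hne := chi_sq_ne_one hπ ho p f hf hN h h2
  set χ := (chi hπ ho p f hf).ringHomComp h with hχ
  set g := gaussSum χ ψ with hg
  have hχ1 : χ ≠ 1 := by
    intro h4
    apply hne
    rw [h4, one_mul]
  have hχ4 : χ ^ 4 = 1 := by
    rw [hχ, MulChar.ringHomComp_pow, chi_pow_four, MulChar.ringHomComp_one]
  obtain ⟨k, hk⟩ : ∃ k, l = 4 * k + 3 := ⟨l / 4, by omega⟩
  have hfrob := gaussSum_frob l χ ψ
  have hχl : χ ^ l = χ⁻¹ := by
    rw [eq_inv_iff_mul_eq_one, ← pow_succ, hk]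
    have : 4 * k + 3 + 1 = 4 * (k + 1) := by ring
    rw [this, pow_mul, hχ4, one_pow]
  have hlu : IsUnit (l : ZMod p) := by
    rw [isUnit_iff_ne_zero]
    intro h3
    rw [ZMod.natCast_eq_zero_iff] at h3
    exact hlp ((Nat.prime_dvd_prime_iff_eq hp.out hl.out).1 h3).symm
  have hshift := gaussSum_mulShift χ⁻¹ ψ hlu.unit
  rw [hlu.unit_spec] at hshift
  rw [hχl, AddChar.pow_mulShift] at hfrob
  rw [← hfrob, ← hg, ← mul_gaussSum_inv_eq_gaussSum] at hshift
  have hcard := gaussSum_mul_gaussSum_eq_card hχ1 hψ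
  rw [← hg, ZMod.card] at hcard
  have hχv : χ (l : ZMod p) = h (ip (ex π (l : G))) := by
    rw [hχ, MulChar.ringHomComp_apply, ← chi_apply hπ ho p f hf hpl, map_natCast f l]
  have hpm1 : ¬ π ∣ (-1 : G) := by
    intro h4
    exact hπ.not_isUnit (isUnit_of_dvd_one ((dvd_neg).1 h4))
  have hχm : χ⁻¹ (-1) = h (ip (ex π (-1))) := by
    have h4 : χ (-1) = h (ip (ex π (-1))) := by
      rw [hχ, MulChar.ringHomComp_apply, ← chi_apply hπ ho p f hf hpm1, map_neg f, map_one f]
    rw [MulChar.inv_apply', ← h4]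
    congr 1
    rw [inv_neg_one]
  have hχi : χ (l : ZMod p) * χ⁻¹ (l : ZMod p) = 1 := by
    rw [← MulChar.mul_apply, mul_inv_cancel, MulChar.one_apply hlu]
  have h5 : g ^ (l + 1) = h (ip (ex π (l : G)) * ip (ex π (-1)) * (π * star π)) := by
    have h9 : (p : K) = h (π * star π) := by
      rw [← Zsqrtd.norm_eq_mul_conj, hN]
      simp
    rw [map_mul, map_mul, ← hχv, ← hχm, ← h9, ← hcard, pow_succ]
    calc g ^ l * g = (χ (l : ZMod p) * χ⁻¹ (l : ZMod p)) * g ^ l * g := by rw [hχi, one_mul]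
      _ = χ (l : ZMod p) * (χ⁻¹ (l : ZMod p) * g ^ l) * g := by ring
      _ = _ := by
        rw [hshift]
        ring
  have h6 : l + 1 = 4 * (k + 1) := by omega
  rw [h6, pow_mul, hg4, ← map_pow] at h5
  have h7 : (l : G) ∣ (π ^ 3 * star π) ^ (k + 1) -
      ip (ex π (l : G)) * ip (ex π (-1)) * (π * star π) := by
    rw [← hh, map_sub, h5, sub_self]
  have h8 := frob_three l h3 π
  have h9 : (l : G) ∣ (π ^ 3 * π ^ l) ^ (k + 1) - (π ^ 3 * star π) ^ (k + 1) := by
    apply pow_congr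
    have : π ^ 3 * π ^ l - π ^ 3 * star π = (π ^ l - star π) * π ^ 3 := by ring
    rw [this]
    exact h8.mul_right _
  have h10 : (l : G) ∣ ip (ex π (l : G)) * ip (ex π (-1)) * (π * star π) -
      ip (ex π (l : G)) * ip (ex π (-1)) * (π * π ^ l) := by
    have : ip (ex π (l : G)) * ip (ex π (-1)) * (π * star π) -
      ip (ex π (l : G)) * ip (ex π (-1)) * (π * π ^ l) =
      (π ^ l - star π) * (-(ip (ex π (l : G)) * ip (ex π (-1)) * π)) := by ring
    rw [this]
    exact h8.mul_right _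
  have h11 := dvd_add (dvd_add h9 h7) h10
  have hm : 4 * m4 (l : G) + 1 = l * l := by
    have := m4_spec hol
    rw [hnl] at this
    exact_mod_cast this
  have hm2 : m4 (l : G) = (4 * k + 2) * (k + 1) := by
    rw [hk] at hm
    have : (4 * k + 3) * (4 * k + 3) = 4 * ((4 * k + 2) * (k + 1)) + 1 := by ring
    rw [← hk] at hm
    rw [hk, this] at hm
    rw [← hk] at hm
    omega
  have h12 : (π ^ 3 * π ^ l) ^ (k + 1) - (π ^ 3 * star π) ^ (k + 1) +
      ((π ^ 3 * star π) ^ (k + 1) - ip (ex π (l : G)) * ip (ex π (-1)) * (π * star π)) +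
      (ip (ex π (l : G)) * ip (ex π (-1)) * (π * star π) -
      ip (ex π (l : G)) * ip (ex π (-1)) * (π * π ^ l)) =
      π ^ (l + 1) * (π ^ m4 (l : G) - ip (ex π (l : G) + ex π (-1))) := by
    have h13 : (π ^ 3 * π ^ l) ^ (k + 1) = π ^ (l + 1) * π ^ m4 (l : G) := by
      rw [← pow_add, ← pow_mul, ← pow_add, hm2]
      congr 1
      rw [hk]
      ring
    rw [h13, ip_add]
    ring
  rw [h12] at h11
  apply ex_eq hlam hol
  rcases hlam.dvd_or_dvd h11 with h14 | h14
  · exact absurd (hlam.dvd_of_dvd_pow h14) hlp1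
  · exact h14

end main

end Pool.Agent.Q33.QR
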