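import Pool.Agent.Q33.QR.Core

/-!
# Small lemmas for the final statements
-/

set_option autoImplicit false

namespace Pool.Agent.Q33.QR

/-- the integer `m` is nonzero and its odd part is `1` modulo `4` -/
def Npart (m : ℤ) : Prop := ∃ (k : ℕ) (m0 : ℤ), m = 2 ^ k * m0 ∧ m0 % 4 = 1

lemma npart_cases {m : ℤ} (h : Npart m) : (∃ w, m = 4 * w + 1) ∨ (∃ w, m = 2 * (4 * w + 1)) ∨
    ∃ (k : ℕ) (w : ℤ), m = 4 * (2 ^ k * (4 * w + 1)) := by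
  obtain ⟨k, m0, rfl, h0⟩ := h
  obtain ⟨w, rfl⟩ : ∃ w, m0 = 4 * w + 1 := ⟨m0 / 4, by omega⟩
  rcases k with _ | _ | k
  · left
    exact ⟨w, by ring⟩
  · right
    left
    exact ⟨w, by ring⟩
  · right
    right
    exact ⟨k, w, by ring⟩

lemma npart_ne {m : ℤ} (h : Npart m) : m ≠ 0 := by
  obtain ⟨k, m0, rfl, h0⟩ := h
  refine mul_ne_zero (pow_ne_zero _ (by norm_num)) ?_
  rintro rfl
  omega

lemma cast4 {a b : ℤ} (k : ℤ) (h : a = b + 4 * k) : (a : ZMod 4) = (b : ZMod 4) := by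
  rw [h]
  push_cast
  linear_combination (k : ZMod 4) * four_zero

lemma sgn {K : Type*} [Field K] {a b : ℤ} (h : Even (a - b)) : ((-1 : K)) ^ a = (-1) ^ b := by
  have e : a = (a - b) + b := by ring
  rw [e, zpow_add₀ (neg_ne_zero.2 one_ne_zero), h.neg_one_zpow, one_mul]

lemma par_even {p : ℕ} {c1 d1 : ℤ} (h : (4 * c1 + 1) ^ 2 + (2 * (2 * d1)) ^ 2 = (p : ℤ)) :
    Even ((p - 1) / 4) := by
  have h1 : (p : ℤ) = 8 * (2 * c1 ^ 2 + c1 + 2 * d1 ^ 2) + 1 := by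
    rw [← h]
    ring
  rw [Nat.even_iff]
  omega

lemma par_odd {p : ℕ} {c1 δ1 : ℤ} (h : (4 * c1 + 1) ^ 2 + (2 * (4 * δ1 + 1)) ^ 2 = (p : ℤ)) :
    Odd ((p - 1) / 4) := by
  have h1 : (p : ℤ) = 8 * (2 * c1 ^ 2 + c1 + 8 * δ1 ^ 2 + 4 * δ1) + 5 := by
    rw [← h]
    ring
  rw [Nat.odd_iff]
  omega

end Pool.Agent.Q33.QR
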