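import Pool.Agent.Q33.QR.Law2

/-!
# The supplementary laws
-/

set_option autoImplicit false

namespace Pool.Agent.Q33.QR

open Zsqrtd

/-- `1 + i` -/
def A : G := ⟨1, 1⟩

lemma A_star : A = I * star A := by
  apply Zsqrtd.ext <;> simp [A, I]

lemma A_star' : star A = -I * A := by
  apply Zsqrtd.ext <;> simp [A, I]

lemma two_eq : (2 : G) = -I * (A * A) := by
  apply Zsqrtd.ext
  · simp [A, I]
  · simp [A, I]

lemma coprime_A {β : G} (hβ : od β) : IsCoprime A β := by
  -- the norm of `β` is odd
  have h1 : β * star β = ((β.norm : ℤ) : G) := (Zsqrtd.norm_eq_mul_conj β).symm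
  have h2 : (β.norm : ℤ) = 2 * (β.norm / 2) + 1 := by
    unfold od at hβ
    omega
  refine ⟨-(star A) * ((β.norm / 2 : ℤ) : G), star β, ?_⟩
  have h3 : A * star A = 2 := by
    apply Zsqrtd.ext <;> simp [A]
  have h4 : star β * β = 2 * ((β.norm / 2 : ℤ) : G) + 1 := by
    rw [mul_comm, h1]
    conv_lhs => rw [h2]
    push_cast
    ring
  rw [h4]
  linear_combination (-((β.norm / 2 : ℤ) : G)) * h3

lemma A_dvd_of_not {l : ℕ} [hl : Fact l.Prime] (h3 : l % 4 = 3) : ¬ (l : G) ∣ A := by
  apply not_dvd_of_coprime (prime_three l h3)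
  apply coprime_A
  have := od_int (n := l) (by omega)
  simpa using this

/-- the supplement for rational moduli -/
lemma J_A_rat (m : ℤ) (hm : m % 4 = 1) : J A (m : G) = (((m - 1) / 4 : ℤ) : ZMod 4) := by
  have key : ∀ n : ℤ, n % 2 = 1 → ∀ m : ℤ, m.natAbs = n.natAbs → m % 4 = 1 →
      J A (m : G) = (((m - 1) / 4 : ℤ) : ZMod 4) := by
    intro n hn
    refine nat_ind (P := fun n => ∀ m : ℤ, m.natAbs = n.natAbs → m % 4 = 1 →
      J A (m : G) = (((m - 1) / 4 : ℤ) : ZMod 4)) ?_ ?_ ?_ ?_ n hn
    · intro n hn ih m hm hm4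
      exact ih m (by rw [hm, Int.natAbs_neg]) hm4
    · intro m hm hm4
      have h1 : m = 1 := by
        rw [Int.natAbs_one] at hm
        omega
      rw [h1, Int.cast_one, J_unit _ isUnit_one]
      rfl
    · intro l hl hl2 m hm hm4
      have : Fact l.Prime := ⟨hl⟩
      rw [Int.natAbs_natCast] at hm
      have h4 : l % 4 = 1 ∨ l % 4 = 3 := by omega
      rcases h4 with h4 | h4
      · have h1 : m = l := by omega
        rw [h1, Int.cast_natCast]
        obtain ⟨lam, h5, h6, h7, h8⟩ := split_lambda l h4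
        have h5' := prime_star h5
        have hA := coprime_A h6
        have hA' := coprime_A (od_star.2 h6)
        rw [h8, J_mul_right _ h5.ne_zero h5'.ne_zero, J_prime _ h5, J_prime _ h5']
        have h9 := ex_star h5 h6 (not_dvd_of_coprime h5 hA)
        have h10 : ¬ star lam ∣ star A := by
          rw [star_dvd_iff]
          exact not_dvd_of_coprime h5 hA
        have h11 : ex (star lam) A = ex (star lam) I + ex (star lam) (star A) := by
          conv_lhs => rw [A_star]
          exact ex_mul h5' (od_star.2 h6) (not_dvd_of_coprime h5' (coprime_I _)) h10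
        rw [h11, h9, ex_I h5' (od_star.2 h6)]
        have h12 : ((m4 (star lam) : ℕ) : ℤ) = ((l : ℤ) - 1) / 4 := by
          have := m4_spec (od_star.2 h6)
          rw [norm_star, h7] at this
          omega
        have h13 := congrArg (Int.cast : ℤ → ZMod 4) h12
        push_cast at h13 ⊢
        rw [← h13]
        ring
      · have h1 : m = -l := by omega
        rw [h1, Int.cast_neg, J_neg_right, Int.cast_natCast, J_prime _ (prime_three l h4)]
        have hlam := prime_three l h4
        have hol : od (l : G) := by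
          have := od_int (n := l) (by omega)
          simpa using this
        have hnl : ((l : ℕ) : G).norm = (l : ℤ) * l := by
          rw [norm_eq]
          simp
        have hm : 4 * m4 (l : G) + 1 = l * l := by
          have := m4_spec hol
          rw [hnl] at this
          exact_mod_cast this
        obtain ⟨k, hk⟩ : ∃ k, l = 4 * k + 3 := ⟨l / 4, by omega⟩
        have hm2 : m4 (l : G) = (l - 1) * (k + 1) := by
          rw [hk] at hm
          have : (4 * k + 3) * (4 * k + 3) = 4 * ((4 * k + 2) * (k + 1)) + 1 := by ring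
          rw [← hk] at hm
          rw [hk, this] at hm
          rw [← hk] at hm
          have h6 : l - 1 = 4 * k + 2 := by omega
          rw [h6]
          omega
        have h5 := frob_three l h4 A
        rw [A_star'] at h5
        have h6 : A ^ l - -I * A = A * (A ^ (l - 1) - -I) := by
          have h7 : l = (l - 1) + 1 := by omega
          conv_lhs => rw [h7, pow_succ]
          ring
        rw [h6] at h5
        have h8 := (hlam.dvd_or_dvd h5).resolve_left (A_dvd_of_not h4)
        have h9 := pow_congr h8 (k + 1)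
        rw [← pow_mul, ← hm2] at h9
        apply ex_eq hlam hol
        have h10 : (-I) ^ (k + 1) = ip (((-(l : ℤ) - 1) / 4 : ℤ) : ZMod 4) := by
          have h11 : ((-(l : ℤ) - 1) / 4 : ℤ) = -((k : ℤ) + 1) := by omega
          rw [h11]
          have h12 : ((-((k : ℤ) + 1) : ℤ) : ZMod 4) = ((3 * (k + 1) : ℕ) : ZMod 4) := by
            push_cast
            linear_combination (-((k : ZMod 4) + 1)) * four_zero
          rw [h12, ip_natCast, pow_mul]
          congr 1
        rw [← h10]
        exact h9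
    · intro a b ha hb iha ihb m hm hm4
      obtain ⟨a', ha1, ha2⟩ : ∃ a' : ℤ, a'.natAbs = a.natAbs ∧ a' % 4 = 1 := by
        have h4 : a % 4 = 1 ∨ a % 4 = 3 := by omega
        rcases h4 with h4 | h4
        · exact ⟨a, rfl, h4⟩
        · exact ⟨-a, Int.natAbs_neg a, by omega⟩
      obtain ⟨b', hb1, hb2⟩ : ∃ b' : ℤ, b'.natAbs = b.natAbs ∧ b' % 4 = 1 := by
        have h4 : b % 4 = 1 ∨ b % 4 = 3 := by omega
        rcases h4 with h4 | h4
        · exact ⟨b, rfl, h4⟩
        · exact ⟨-b, Int.natAbs_neg b, by omega⟩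
      have h1 := iha a' ha1 ha2
      have h2 := ihb b' hb1 hb2
      obtain ⟨s, hs⟩ : ∃ s, a' = 4 * s + 1 := ⟨a' / 4, by omega⟩
      obtain ⟨t, ht⟩ : ∃ t, b' = 4 * t + 1 := ⟨b' / 4, by omega⟩
      have h3 : a' * b' = 4 * (4 * (s * t) + s + t) + 1 := by
        rw [hs, ht]
        ring
      have h4 : m = a' * b' := by
        have h5 : m.natAbs = (a' * b').natAbs := by
          rw [hm, Int.natAbs_mul, Int.natAbs_mul, ha1, hb1]
        omega
      rw [h4, Int.cast_mul, J_mul_right _ (int_ne_zero (by omega)) (int_ne_zero (by omega)), h1, h2,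
        ← Int.cast_add]
      have h5 : (a' * b' - 1) / 4 = 4 * (s * t) + s + t := by omega
      have h6 : (a' - 1) / 4 = s := by omega
      have h7 : (b' - 1) / 4 = t := by omega
      rw [h5, h6, h7]
      push_cast
      linear_combination (-((s : ZMod 4) * t)) * four_zero
  exact key m (by omega) m rfl hm

lemma cop_congr {a b c : G} (h : c ∣ a - b) (h' : IsCoprime a c) : IsCoprime b c := by
  obtain ⟨t, ht⟩ := h
  obtain ⟨u, v, huv⟩ := h'
  refine ⟨u, v + u * t, ?_⟩
  linear_combination huv - u * ht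

/-- real part coprime to a split prime -/
lemma re_coprime {x y : ℤ} (hα : Prime (mk x y)) (p : ℕ) [hp : Fact p.Prime]
    (hNα : (mk x y).norm = (p : ℤ)) : IsCoprime ((2 * x + 1 : ℤ) : G) (mk x y) := by
  apply coprime_of_not_dvd hα
  intro h1
  have h2 := dvd_int_of p hNα h1
  have h3 := hNα
  rw [norm_eq] at h3
  simp only [mk] at h3
  have h4 : (p : ℤ) ∣ (2 * y) * (2 * y) := by
    have : (2 * y) * (2 * y) = p - (2 * x + 1) * (2 * x + 1) := by linarith
    rw [this]
    exact dvd_sub dvd_rfl (h2.mul_right _)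
  have h5 : (p : ℤ) ∣ 2 * y := by
    rcases Int.Prime.dvd_mul' hp.out h4 with h5 | h5 <;> exact h5
  obtain ⟨a, ha⟩ := h2
  obtain ⟨b, hb⟩ := h5
  rw [ha, hb] at h3
  have hp1 := hp.out.one_lt
  have h6 : (p : ℤ) * ((a * a + b * b) * p) = p * 1 := by linarith
  have h7 := mul_left_cancel₀ (by exact_mod_cast hp.out.ne_zero) h6
  have h8 := Int.isUnit_iff.1 (IsUnit.of_mul_eq_one _ ((mul_comm _ _).trans h7) : IsUnit (p : ℤ))
  omega

lemma fin_id2 : ∀ x u y : ZMod 4, x = 2 * u - y →
    ((x + y) ^ 2 + (x + y)) + u - (x ^ 2 + x + 2 * x * (x ^ 2 + x + y ^ 2)) = u - y - y ^ 2 := by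
  decide

/-- the supplement for a primary split prime -/
lemma J_A_split {x y u : ℤ} (hα : Prime (mk x y)) (p : ℕ) [hp : Fact p.Prime]
    (hNα : (mk x y).norm = (p : ℤ)) (hxy : x + y = 2 * u) :
    J A (mk x y) = (u : ZMod 4) - y - y ^ 2 := by
  have hsα := sp_mk x y
  have hoα := od_mk x y
  have hxα := re_coprime hα p hNα
  have hA := coprime_A hoα
  set s : ℤ := 2 * x + 1 + 2 * y with hs
  have hs4 : s % 4 = 1 := by omega
  have hd1 : mk x y ∣ ((2 * x + 1 : ℤ) : G) * A - (s : G) := by
    refine ⟨I, ?_⟩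
    apply Zsqrtd.ext
    · simp [mk, I, A, hs]
    · simp [mk, I, A]
  have hsα' : IsCoprime (s : G) (mk x y) := cop_congr hd1 (hxα.mul_left hA)
  have hso : od (s : G) := od_int (by omega)
  have hd2 : (s : G) ∣ mk x y - ((2 * y : ℤ) : G) * (I * A) := by
    refine ⟨1, ?_⟩
    apply Zsqrtd.ext
    · simp [mk, I, A, hs]
    · simp [mk, I, A]
  have e1 : J ((2 * x + 1 : ℤ) : G) (mk x y) + J A (mk x y) = J (s : G) (mk x y) := by
    rw [← J_mul_left hoα hxα hA]
    exact J_congr hoα hd1
  have e2 := law_rat hα hsα p hNα s (by omega) hsα'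
  have e3 := law_rat hα hsα p hNα (2 * x + 1) (by omega) hxα
  have h1 : IsCoprime (((2 * y : ℤ) : G) * (I * A)) (s : G) := cop_congr hd2 hsα'.symm
  have hIA : IsCoprime (I * A) (s : G) := (coprime_I _).mul_left (coprime_A hso)
  have e4 : J (mk x y) (s : G) = M (s : G) + (((s - 1) / 4 : ℤ) : ZMod 4) := by
    rw [J_congr hso hd2, J_mul_left hso (IsCoprime.of_mul_left_left h1) hIA,
      J_rat (by omega) (coprime_int (IsCoprime.of_mul_left_left h1)),
      J_mul_left hso (coprime_I _) (coprime_A hso), J_I hso, J_A_rat s hs4, zero_add]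
  have e5 : J (mk x y) ((2 * x + 1 : ℤ) : G) = M ((2 * x + 1 : ℤ) : G) := by
    have ho : od ((2 * x + 1 : ℤ) : G) := od_int (by omega)
    have hd : ((2 * x + 1 : ℤ) : G) ∣ mk x y - ((2 * y : ℤ) : G) * I := by
      refine ⟨1, ?_⟩
      apply Zsqrtd.ext
      · simp [mk, I]
      · simp [mk, I]
    have h1 : IsCoprime (((2 * y : ℤ) : G) * I) ((2 * x + 1 : ℤ) : G) := cop_congr hd hxα.symm
    rw [J_congr ho hd, J_mul_left ho (IsCoprime.of_mul_left_left h1) (coprime_I _),
      J_rat (by omega) (coprime_int (IsCoprime.of_mul_left_left h1)), J_I ho, zero_add]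
  have hMs : M (s : G) = ((x : ZMod 4) + y) ^ 2 + (x + y) := by
    have : s = 2 * (x + y) + 1 := by rw [hs]; ring
    rw [this, ← mk_int, M_mk]
    push_cast
    ring
  have hMa : M ((2 * x + 1 : ℤ) : G) = (x : ZMod 4) ^ 2 + x := by
    rw [← mk_int, M_mk]
    push_cast
    ring
  have hu : (s - 1) / 4 = u := by omega
  rw [hu, hMs] at e4
  rw [hMa] at e5
  have hsc : (s : ZMod 4) = 1 := by
    have : s = 4 * u + 1 := by omega
    rw [this]
    push_cast
    linear_combination (u : ZMod 4) * four_zero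
  rw [hsc, M_mk] at e2
  rw [M_mk] at e3
  push_cast at e1 e3
  have hx : (x : ZMod 4) = 2 * u - y := by
    have : x = 2 * u - y := by omega
    rw [this]
    push_cast
    ring
  have h2 := fin_id2 x u y hx
  push_cast at e5
  linear_combination e1 + e2 + e4 - e3 - e5 + h2

lemma fin_id3 : ∀ x u y : ZMod 4, x = 2 * u - y →
    3 * (x ^ 2 + x + y ^ 2) + 2 * (u - y - y ^ 2) = (2 * x + 1) * y := by
  decide

lemma J_two_eq {β : G} (hβ : od β) : J 2 β = 3 * M β + 2 * J A β := by
  have e : (2 : G) = I * (I * (I * (A * A))) := by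
    apply Zsqrtd.ext
    · simp [A, I]
    · simp [A, I]
  have h1 := coprime_I β
  have h2 := coprime_A hβ
  rw [e, J_mul_left hβ h1 (h1.mul_left (h1.mul_left (h2.mul_left h2))),
    J_mul_left hβ h1 (h1.mul_left (h2.mul_left h2)),
    J_mul_left hβ h1 (h2.mul_left h2), J_mul_left hβ h2 h2, J_I hβ]
  ring

lemma J_two_split {x y : ℤ} (hα : Prime (mk x y)) (p : ℕ) [hp : Fact p.Prime]
    (hNα : (mk x y).norm = (p : ℤ)) : J 2 (mk x y) = (2 * (x : ZMod 4) + 1) * y := by
  rcases Int.even_or_odd (x + y) with ⟨u, hu⟩ | ⟨u, hu⟩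
  · have h1 : x + y = 2 * u := by omega
    rw [J_two_eq (od_mk x y), J_A_split hα p hNα h1, M_mk]
    apply fin_id3
    have : x = 2 * u - y := by omega
    rw [this]
    push_cast
    ring
  · have h1 : (-x - 1) + (-y) = 2 * (-u - 1) := by omega
    have h2 : mk (-x - 1) (-y) = - mk x y := by
      apply Zsqrtd.ext
      · simp [mk]
        ring
      · simp [mk]
    have h3 : Prime (mk (-x - 1) (-y)) := by
      rw [h2]
      exact hα.neg
    have h4 : (mk (-x - 1) (-y)).norm = (p : ℤ) := by
      rw [h2, Zsqrtd.norm_neg]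
      exact hNα
    have h5 := J_A_split h3 p h4 h1
    have h6 := J_two_eq (od_mk (-x - 1) (-y))
    rw [h5, M_mk, h2, J_neg_right] at h6
    rw [h6]
    have h7 := fin_id3 ((-x - 1 : ℤ) : ZMod 4) ((-u - 1 : ℤ) : ZMod 4) ((-y : ℤ) : ZMod 4) (by
      have : (-x - 1 : ℤ) = 2 * (-u - 1) - -y := by omega
      rw [this]
      push_cast
      ring)
    rw [h7]
    push_cast
    ring

lemma J_rat_two {m : ℤ} (hm : m % 2 = 1) : J 2 (m : G) = 0 := by
  have h : IsCoprime (2 : ℤ) m := by
    rw [Int.isCoprime_iff_gcd_eq_one]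
    have : (2 : ℕ).Coprime m.natAbs := by
      rw [Nat.coprime_two_left, Nat.odd_iff]
      omega
    exact this
  have := J_rat hm h
  push_cast at this
  exact this

/-- the supplement for `2` -/
theorem J_two {x y : ℤ} : J 2 (mk x y) = (2 * (x : ZMod 4) + 1) * y := by
  have key : ∀ β, sp β → ∀ x y : ℤ, β = mk x y → J 2 β = (2 * (x : ZMod 4) + 1) * y := by
    intro β hβ
    refine sp_ind (P := fun β => ∀ x y : ℤ, β = mk x y → J 2 β = (2 * (x : ZMod 4) + 1) * y)
      ?_ ?_ ?_ β hβ
    · intro x y h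
      have h1 := congrArg Zsqrtd.im h
      simp only [mk, Zsqrtd.im_one] at h1
      have h2 : y = 0 := by omega
      rw [J_unit _ isUnit_one, h2]
      simp
    · intro x y h
      have h1 := congrArg Zsqrtd.im h
      simp only [mk, Zsqrtd.im_neg, Zsqrtd.im_one] at h1
      have h2 : y = 0 := by omega
      rw [J_unit _ isUnit_one.neg, h2]
      simp
    · intro π α hπ hsπ hsα ih x y h
      obtain ⟨z, w, rfl⟩ := exists_mk hsα
      obtain ⟨a, b, rfl⟩ := exists_mk hsπ
      have h1 := ih z w rfl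
      have h2 : J 2 (mk a b) = (2 * (a : ZMod 4) + 1) * b := by
        rcases sp_prime_cases hπ hsπ with ⟨p, hp, hN⟩ | ⟨m, hm, hm2⟩
        · have : Fact p.Prime := ⟨hp⟩
          exact J_two_split hπ p hN
        · rw [hm2, J_rat_two hm]
          have h3 := congrArg Zsqrtd.im hm2
          simp only [mk, Zsqrtd.im_intCast] at h3
          have h4 : b = 0 := by omega
          rw [h4]
          simp
      rw [J_mul_right _ hπ.ne_zero (od_ne_zero (od_mk z w)), h1, h2]
      rw [mk_mul] at h
      have h3 := congrArg Zsqrtd.im h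
      have h4 := congrArg Zsqrtd.re h
      simp only [mk] at h3 h4
      have h5 : y = 2 * a * w + w + 2 * b * z + b := by omega
      have h6 : x = 2 * a * z + a + z - 2 * b * w := by omega
      rw [h5, h6]
      push_cast
      have : ∀ a b z w : ZMod 4, (2 * a + 1) * b + (2 * z + 1) * w =
          (2 * (2 * a * z + a + z - 2 * b * w) + 1) * (2 * a * w + w + 2 * b * z + b) := by
        decide
      exact this _ _ _ _
  exact key _ (sp_mk x y) x y rfl

end Pool.Agent.Q33.QR
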